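import Pool.Agent.Lib.MP_0d9445_pr.HO.IDefs
import Pool.Agent.Lib.MP_0d9445_pr.EN.Pull

/-! Module HO: the local functionals of the unit box. Measurability, transfer to the true net,
subadditivity, rotation. -/

open MeasureTheory ProbabilityTheory Set Filter Topology LQ.Met Function
open scoped ENNReal NNReal ComplexConjugate Classical

noncomputable section

namespace Pool.Agent.Lib.MP_0d9445_pr.HO

open PPP CR Cell EN

/-! ### geometry of the unit box -/

theorem y0_re : y0.re = 1 / 2 := by simp [y0, ctr, sc]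

theorem y0_im : y0.im = 1 / 2 := by simp [y0, ctr, sc]

theorem ball_subset_csq {y w : ℂ} {s r : ℝ} (hw : w ∈ csq y s) :
    Metric.closedBall w r ⊆ csq y (s + r) := fun z hz => by
  rw [mem_closedBall_iff_norm] at hz
  have h1 := (Complex.abs_re_le_norm (z - w)).trans hz
  have h2 := (Complex.abs_im_le_norm (z - w)).trans hz
  rw [Complex.sub_re] at h1
  rw [Complex.sub_im] at h2
  exact ⟨(abs_sub_le _ w.re _).trans (by linarith [hw.1]),
    (abs_sub_le _ w.im _).trans (by linarith [hw.2])⟩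

theorem S0_subset_csq : S0 ⊆ csq y0 (1 / 2) := fun z hz => by
  obtain ⟨h1, h2, h3, h4⟩ := hz
  simp only [Complex.zero_re, Complex.zero_im] at h1 h2 h3 h4
  constructor
  · rw [y0_re, abs_le]
    constructor <;> linarith
  · rw [y0_im, abs_le]
    constructor <;> linarith

theorem ball_subset_K0 {z : ℂ} (hz : z ∈ S0) : Metric.closedBall z (1 / 4) ⊆ K0 :=
  (ball_subset_csq (S0_subset_csq hz)).trans (csq_mono _ (by norm_num))

theorem S0_subset_W0 : S0 ⊆ W0.o := S0_subset_csq.trans (csq_subset_osq _ (by norm_num [W0]))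

theorem measurableSet_S0 : MeasurableSet S0 := LQ.Met.measurableSet_box _ _

theorem S0_eq_box : S0 = CR.box 0 (0, 0) := by
  ext z
  simp [S0, Walk.box, CR.box, sc]

theorem mem_box_iff_S0 {l : ℝ} (hl : 0 < l) (b z : ℂ) : l * z + b ∈ Walk.box b l ↔ z ∈ S0 := by
  simp only [S0, Walk.box, mem_ofPred_eq, Complex.add_re, Complex.add_im, Complex.re_ofReal_mul,
    Complex.im_ofReal_mul, Complex.zero_re, Complex.zero_im, zero_add, le_add_iff_nonneg_left,
    mul_nonneg_iff_of_pos_left hl, add_comm b.re, add_comm b.im, add_lt_add_iff_right,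
    mul_lt_iff_lt_one_right hl]

/-- the child box -/
def kid (k : ℕ) (j : Ix k) : Set ℂ := Walk.box (cor k j) (sc k)

theorem mem_kid {k : ℕ} {j : Ix k} {z : ℂ} : z ∈ kid k j ↔
    ((j.1 : ℕ) ≤ z.re * 2 ^ k ∧ z.re * 2 ^ k < (j.1 : ℕ) + 1) ∧
      (j.2 : ℕ) ≤ z.im * 2 ^ k ∧ z.im * 2 ^ k < (j.2 : ℕ) + 1 := by
  have e : cor k j = (((j.1 : ℕ) / 2 ^ k : ℝ) : ℂ) + (((j.2 : ℕ) / 2 ^ k : ℝ) : ℂ) * Complex.I := by
    simp only [cor]
    push_cast
    ring
  have h2 : (0 : ℝ) < 2 ^ k := by positivity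
  simp only [kid, Walk.box, mem_ofPred_eq, e, Complex.add_re, Complex.add_im, Complex.ofReal_re,
    Complex.ofReal_im, Complex.re_ofReal_mul, Complex.im_ofReal_mul, Complex.I_re, Complex.I_im,
    mul_zero, mul_one, add_zero, zero_add, sc, ← one_div, one_div_pow, ← add_div, div_le_iff₀ h2,
    lt_div_iff₀ h2, and_assoc]

theorem kid_disjoint (k : ℕ) : Pairwise (Disjoint on kid k) := fun i j hij =>
  disjoint_left.2 fun z hi hj => by
    rw [mem_kid] at hi hj
    have key : ∀ (t : ℝ) (m n : ℕ), (m ≤ t ∧ t < m + 1) → (n ≤ t ∧ t < n + 1) → m = n :=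
      fun t m n h h' => by
        have h1 : m < n + 1 := by exact_mod_cast h.1.trans_lt h'.2
        have h2 : n < m + 1 := by exact_mod_cast h'.1.trans_lt h.2
        omega
    exact hij (Prod.ext (Fin.ext (key _ _ _ hi.1 hj.1)) (Fin.ext (key _ _ _ hi.2 hj.2)))

theorem iUnion_kid (k : ℕ) : ⋃ j, kid k j = S0 := by
  have h2 : (0 : ℝ) < 2 ^ k := by positivity
  ext z
  simp only [mem_iUnion, mem_kid, S0, Walk.box, mem_ofPred_eq, Complex.zero_re, Complex.zero_im,
    zero_add]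
  have key : ∀ t : ℝ, (∃ i : Fin (2 ^ k), (i : ℕ) ≤ t * 2 ^ k ∧ t * 2 ^ k < (i : ℕ) + 1) ↔
      0 ≤ t ∧ t < 1 := fun t => by
    constructor
    · rintro ⟨i, h, h'⟩
      have : ((i : ℕ) : ℝ) + 1 ≤ 2 ^ k := by exact_mod_cast i.2
      exact ⟨nonneg_of_mul_nonneg_left ((Nat.cast_nonneg _).trans h) h2,
        (mul_lt_iff_lt_one_left h2).1 (h'.trans_le this)⟩
    · rintro ⟨h, h'⟩
      have h0 := mul_nonneg h h2.le
      exact ⟨⟨⌊t * 2 ^ k⌋₊, (Nat.floor_lt h0).2 (by
        push_cast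
        exact (mul_lt_iff_lt_one_left h2).2 h')⟩, Nat.floor_le h0, Nat.lt_floor_add_one _⟩
  rw [← and_assoc, ← key, ← key, Prod.exists]
  simp only [exists_and_left, exists_and_right]

/-! ### the local family of cells -/

theorem Y0_finite (x : Xi) : (Y0 x).Finite := (pts_finite _).inter_of_left _

theorem win0 {S : Set ℂ} {d : Met} (h : NearGeo S (curry d)) (hS : W0.c ⊆ S) :
    Win S (curry d) (curry (T W0 d)) W0.o K0 (1 / 4) where
  geo := h
  isOpen := isOpen_osq _ _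
  bdd := (isBounded_csq _ _).subset (osq_subset_csq _ _)
  sub := (closure_osq_subset _ _).trans hS
  agree := agree_Tp (p := ⟨proj W0, continuous_proj W0⟩) (isCompact_frontier_osq _ _)
    (fun _ hx => proj_eq (closure_osq_subset _ _ hx)) d
  pos := by norm_num
  ball _ hw := (ball_subset_csq hw).trans (csq_subset_osq _ (by norm_num [W0]))

/-- On the shielded event the true net at the centres of the unit box is the local net. -/
theorem sameOn0 {S P K : Set ℂ} {x : Xi} (h : NearGeo S (curry x.1.1)) (hS : W0.c ⊆ S)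
    (hP : P ⊆ S) (hY : P ∩ W0.o = Y0 x) (g : Shield x) {C : Walk.Cells} (hV : C.V = P)
    (hH : ∀ z, C.H z = cell S (curry x.1.1) P z)
    (hf : {z | z ∈ C.V ∧ (C.H z ∩ K).Nonempty}.Finite) (hK : ∀ z ∈ S0, z ∈ P → C.H z ⊆ K) :
    SameOn (C.toFC K) (fc0 x) S0 := by
  rw [fc0, ← hY]
  exact (win0 h hS).sameOn' hP (GLoc.mono g Subset.rfl (hY ▸ inter_subset_left))
    (hY ▸ Y0_finite x) hV hH hf (fun _ => ball_subset_K0) hK

theorem nearGeo_pull {S : Set ℂ} {D : ℂ → ℂ → ℝ} (h : NearGeo S D) (φ : ℂ ≃ₜ ℂ) :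
    NearGeo (φ ⁻¹' S) fun u v => D (φ u) (φ v) where
  self x hx := h.self _ hx
  symm x hx y hy := h.symm _ hx _ hy
  tri x hx y hy z hz := h.tri _ hx _ hy _ hz
  pos x hx y hy hne := h.pos _ hx _ hy (φ.injective.ne hne)
  cont := h.cont.comp (f := fun p : ℂ × ℂ => (φ p.1, φ p.2)) (by fun_prop) fun _ hp => hp
  geo x hx y hy ε hε := by
    obtain ⟨L, h1, h2, h3, h4, h5⟩ := h.geo _ hx _ hy ε hε
    exact ⟨φ ⁻¹' L, preimage_mono h1, φ.isPreconnected_preimage.2 h2, h3, h4, fun z hz => h5 _ hz⟩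

theorem nearGeo_scale {S : Set ℂ} {e : Cf} (h : NearGeo S (curry e.1)) (ξ γ t : ℝ) :
    NearGeo S (curry (scale ξ γ t e).1) := h.const_mul (Real.exp_pos (ξ * t))

theorem cell_scale (S P : Set ℂ) (e : Cf) (ξ γ t : ℝ) (z : ℂ) :
    cell S (curry (scale ξ γ t e).1) P z = cell S (curry e.1) P z :=
  cell_const_mul (Real.exp_pos (ξ * t)) z

theorem mem_Y0_pullX {a : ℂ} (ha : a ≠ 0) (b : ℂ) (x : Xi) (z : ℂ) :
    z ∈ Y0 (pullX W0 a b x) ↔ a * z + b ∈ pts x.2.1 ∧ z ∈ W0.o := by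
  simp only [Y0, pullX, pts_filt, pts_cmap, inter_assoc, inter_self, mem_inter_iff, mem_image]
  refine and_congr_left' ⟨?_, fun h => ⟨_, h, add_sub_div ha b z⟩⟩
  rintro ⟨w, hw, rfl⟩
  rwa [mul_div_add ha]

theorem muX_pullX {a : ℂ} (ha : a ≠ 0) (W : Sq) (b : ℂ) (x : Xi) {A : Set ℂ}
    (hA : ∀ z, a * z + b ∈ A ↔ z ∈ S0) : muX (pullX W a b x) = (x.1.2 A).toReal := by
  show (x.1.2.map _ S0).toReal = _
  rw [Measure.map_apply (measurable_unaff a b) measurableSet_S0]
  congr 2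
  ext z
  rw [mem_preimage, ← hA, mul_div_add ha]

/-- Transfer to the true net: `C` is the Voronoi structure of the points `P` for the metric of `x`
on `S`, `A` is the image of the unit box under `z ↦ a z + b`. -/
theorem transfer {S P K A : Set ℂ} {x : Xi} (h : NearGeo S (curry x.1.1)) {a b : ℂ} (ha : a ≠ 0)
    (hS : ∀ z ∈ W0.c, a * z + b ∈ S) (hP : P ⊆ S)
    (hY : ∀ z ∈ W0.o, a * z + b ∈ P ↔ a * z + b ∈ pts x.2.1) (g : Shield (pullX W0 a b x))
    {C : Walk.Cells} (hV : C.V = P) (hH : ∀ z, C.H z = cell S (curry x.1.1) P z)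
    (hf : {z | z ∈ C.V ∧ (C.H z ∩ K).Nonempty}.Finite) (hA : ∀ z, a * z + b ∈ A ↔ z ∈ S0)
    (hK : ∀ z ∈ A, z ∈ P → C.H z ⊆ K) :
    (∀ p, (C.toFC K).nu A p = nu0 (conj a * p) (pullX W0 a b x)) ∧
      ∑ z ∈ (C.toFC K).pts A, (C.toFC K).G.deg z = pi0 (pullX W0 a b x) ∧
      (((C.toFC K).pts A).card : ℝ) = NX (pullX W0 a b x) ∧
      (C.toFC K).X A = ‖a‖ ^ 2 * (fc0 (pullX W0 a b x)).X S0 ∧
      (C.toFC K).Y A = ‖a‖ ^ 2 * (fc0 (pullX W0 a b x)).Y S0 := by
  set φ := aff ha b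
  let C' : Walk.Cells := ⟨φ ⁻¹' C.V, fun z => φ ⁻¹' C.H (φ z)⟩
  have hp : Pull φ.toEquiv (C'.toFC (φ ⁻¹' K)) (C.toFC K) := pull_toFC _ rfl (fun _ => rfl) K
  have eA : φ.toEquiv ⁻¹' A = S0 := Set.ext hA
  have hs : SameOn (C'.toFC (φ ⁻¹' K)) (fc0 (pullX W0 a b x)) S0 := by
    refine sameOn0 (S := φ ⁻¹' S) (P := φ ⁻¹' P) (nearGeo_pull h φ) hS (preimage_mono hP) ?_ g
      (congrArg (φ ⁻¹' ·) hV) (fun z => ?_) ?_ fun z hz hz' => preimage_mono (hK _ ((hA z).2 hz) hz')
    · ext z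
      rw [mem_Y0_pullX ha]
      exact and_congr_left fun hz => hY z hz
    · show φ ⁻¹' C.H (φ z) = _
      rw [hH, ← φ.image_preimage P, ← cell_preimage, φ.image_preimage]
      rfl
    · refine (hf.preimage φ.injective.injOn).subset fun z hz => ⟨hz.1, ?_⟩
      exact φ.surjective.nonempty_preimage.1 hz.2
  have hφ : ∀ z, φ.toEquiv z = a * z + b := fun _ => rfl
  refine ⟨fun p => ?_, ?_, ?_, ?_, ?_⟩
  · rw [hp.nu hφ, eA, hs.nu, nu0]
  · rw [hp.sum_deg, eA, hs.sum_deg, pi0]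
  · rw [hp.pts, eA, hs.pts, Finset.card_image_of_injective _ φ.toEquiv.injective, NX]
  · rw [hp.X hφ, eA, hs.X]
  · rw [hp.Y hφ, eA, hs.Y]

/-! ### the minimal energy as a quadratic form -/

theorem nu_eq (N : Walk.FC) (A : Set ℂ) (q : ℂ) : N.nu A q = q.re ^ 2 * N.nu A 1 +
    2 * (q.re * q.im) * N.G.en (N.pts A) (N.corr A 1) (N.corr A Complex.I) +
      q.im ^ 2 * N.nu A Complex.I := by
  have e : Walk.lin q = q.re • Walk.lin 1 + q.im • Walk.lin Complex.I := by
    funext z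
    simp [Walk.lin]
  simp only [Walk.FC.nu, Walk.FC.corr]
  rw [e, Net.nu_add, Net.nu_smul, Net.nu_smul, Net.hx_smul, Net.hx_smul, Net.en_smul_left,
    Net.en_smul_right]
  ring

theorem nu_real_mul (N : Walk.FC) (A : Set ℂ) (c : ℝ) (q : ℂ) :
    N.nu A (c * q) = c ^ 2 * N.nu A q := by
  rw [nu_eq N A q, nu_eq N A (c * q), Complex.re_ofReal_mul, Complex.im_ofReal_mul]
  ring

theorem nu_le_X (N : Walk.FC) (A : Set ℂ) (q : ℂ) : N.nu A q ≤ ‖q‖ ^ 2 * N.X A := by
  refine (Net.nu_le_en _ _ _).trans ?_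
  rw [Walk.FC.X, Complex.sq_norm, Complex.normSq_apply]
  simp only [Net.en, ← mul_add, ← Finset.sum_add_distrib, Finset.mul_sum]
  refine Finset.sum_le_sum fun x _ => Finset.sum_le_sum fun y _ => ?_
  simp only [Walk.lin]
  nlinarith [sq_nonneg (q.re * (x.im - y.im) - q.im * (x.re - y.re))]

theorem pts_iUnion (N : Walk.FC) {ι : Type*} [Fintype ι] (A : ι → Set ℂ) :
    N.pts (⋃ i, A i) = Finset.univ.biUnion fun i => N.pts (A i) := by
  ext z
  simp [Walk.FC.mem_pts]

theorem pts_disjoint (N : Walk.FC) {ι : Type*} [Fintype ι] {A : ι → Set ℂ}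
    (h : Pairwise (Disjoint on A)) :
    ((Finset.univ : Finset ι) : Set ι).PairwiseDisjoint fun i => N.pts (A i) :=
  fun _ _ _ _ hij => Finset.disjoint_left.2 fun _ h1 h2 =>
    disjoint_left.1 (h hij) (N.mem_pts.1 h1).2 (N.mem_pts.1 h2).2

/-! ### the statements -/

/-- the Voronoi structure of all the points of `x` -/
def vorX (x : Xi) : Walk.Cells := ⟨pts x.2.1, cell univ (curry x.1.1) (pts x.2.1)⟩

theorem vorX_finite (x : Xi) (K : Set ℂ) :
    {z | z ∈ (vorX x).V ∧ ((vorX x).H z ∩ K).Nonempty}.Finite :=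
  (pts_finite x.2.1).subset fun _ h => h.1

theorem sameOn_vorX {x : Xi} (h : IsGood x.1) (g : Shield x) :
    SameOn ((vorX x).toFC univ) (fc0 x) S0 :=
  sameOn0 (nearGeo h.1 h.2) (subset_univ _) (subset_univ _) rfl g rfl (fun _ => rfl)
    (vorX_finite x _) fun _ _ _ => subset_univ _

theorem transfer_vorX {x : Xi} (h : IsGood x.1) {a b : ℂ} (ha : a ≠ 0)
    (g : Shield (pullX W0 a b x)) {A : Set ℂ} (hA : ∀ z, a * z + b ∈ A ↔ z ∈ S0) :
    (∀ p, ((vorX x).toFC univ).nu A p = nu0 (conj a * p) (pullX W0 a b x)) ∧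
      ∑ z ∈ ((vorX x).toFC univ).pts A, ((vorX x).toFC univ).G.deg z = pi0 (pullX W0 a b x) :=
  (transfer (nearGeo h.1 h.2) ha (fun _ _ => mem_univ _) (subset_univ _) (fun _ _ => Iff.rfl) g rfl
    (fun _ => rfl) (vorX_finite x _) hA fun _ _ _ => subset_univ _).imp_right And.left

theorem mem_kid_iff (k : ℕ) (j : Ix k) (z : ℂ) : dy k 0 * z + cor k j ∈ kid k j ↔ z ∈ S0 := by
  rw [dy_zero]
  exact mem_box_iff_S0 (EN.sc_pos k) _ _

theorem det_sub (x : Xi) (k : ℕ) (h : IsGood x.1) (g : Shield x) (hj : ∀ j, Shield (chX k j x)) :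
    (∀ q, nu0 q x ≤ (∑ j, nu0 q (chX k j x)) / 4 ^ k) ∧ pi0 x = ∑ j, pi0 (chX k j x) := by
  have hs := sameOn_vorX h g
  have ht := fun j => transfer_vorX h (sim_dy k 0).ne (hj j) (mem_kid_iff k j)
  have hd := pts_disjoint ((vorX x).toFC univ) (kid_disjoint k)
  constructor
  · intro q
    rw [nu0, ← hs.nu, Walk.FC.nu, ← iUnion_kid k, pts_iUnion, Finset.sum_div]
    refine (Net.nu_biUnion_le _ hd _).trans (Finset.sum_le_sum fun j _ => le_of_eq ?_)
    refine ((ht j).1 q).trans ?_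
    rw [dy_zero, Complex.conj_ofReal, nu0, nu_real_mul, ← dy_zero, sc, ← pow_mul, mul_comm k,
      pow_mul, div_eq_inv_mul, ← inv_pow]
    norm_num
    rfl
  · rw [pi0, ← hs.sum_deg, ← iUnion_kid k, pts_iUnion, Finset.sum_biUnion hd]
    exact Finset.sum_congr rfl fun j _ => (ht j).2

theorem det_rot (x : Xi) (h : IsGood x.1) (g : Shield x) (g' : Shield (rotX x))
    (hf : Disjoint (pts x.2.1) (frontier S0)) (q : ℂ) :
    nu0 q (rotX x) = nu0 (Complex.I * q) x := by
  have e : dy 0 1 = Complex.I := by simp [dy]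
  have e0 : S0 = Ico 0 1 ×ℂ Ico 0 1 := by
    ext z
    simp [S0, Walk.box, Complex.mem_reProdIm, and_assoc]
  have ht := (transfer_vorX h (sim_dy 0 1).ne g' (A := Ioc 0 1 ×ℂ Ico 0 1) fun z => by
    simp [e, e0, Complex.mem_reProdIm, and_comm]).1 (Complex.I * q)
  have hp : ((vorX x).toFC univ).pts (Ioc 0 1 ×ℂ Ico 0 1) = ((vorX x).toFC univ).pts S0 := by
    ext z
    simp only [Walk.FC.mem_pts]
    refine and_congr_right fun hz => ?_
    have hz' := disjoint_left.1 hf ((mem_toFC (vorX_finite x _)).1 hz).1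
    rw [e0, Complex.frontier_reProdIm, closure_Ico zero_ne_one, frontier_Ico zero_lt_one] at hz'
    simp only [e0, Complex.mem_reProdIm, mem_union, not_or, not_and_or] at hz' ⊢
    refine and_congr_left fun hi => ?_
    have := hz'.2.resolve_right (not_not.2 (Ico_subset_Icc_self hi))
    simp only [mem_insert_iff, mem_singleton_iff, not_or] at this
    exact ⟨fun h => ⟨h.1.le, h.2.lt_of_ne this.2⟩, fun h => ⟨h.1.lt_of_ne' this.1, h.2.le⟩⟩
  rw [Walk.FC.nu, hp, ← Walk.FC.nu, (sameOn_vorX h g).nu, e, ← mul_assoc, Complex.conj_I, neg_mul,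
    Complex.I_mul_I, neg_neg, one_mul] at ht
  rw [rotX, e]
  exact ht.symm

theorem det_N (x : Xi) (h : IsGood x.1) (g : Shield x) : NX x ≤ pi0 x := by
  rw [NX, pi0, Finset.card_eq_sum_ones, Nat.cast_sum]
  refine Finset.sum_le_sum fun z hz => ?_
  rw [Walk.FC.mem_pts, fc0, mem_lfc (Y0_finite x)] at hz
  exact (Nat.cast_one (R := ℝ)).trans_le ((win0 (nearGeo h.1 h.2) (subset_univ _)).one_le_deg
    (subset_univ _) (GLoc.mono g Subset.rfl inter_subset_left) (Y0_finite x)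
    (ball_subset_K0 hz.2) hz.1.1)

theorem det_mu (x : Xi) (k : ℕ) (h : x.1.2 S0 ≠ ∞) : muX x = ∑ j, muX (chX k j x) := by
  simp only [chX, muX_pullX (sim_dy k 0).ne W0 _ x (mem_kid_iff k _)]
  rw [← ENNReal.toReal_sum fun j _ =>
      ne_top_of_le_ne_top h (measure_mono (iUnion_kid k ▸ subset_iUnion (kid k) j)),
    muX, ← iUnion_kid k, measure_iUnion (kid_disjoint k) fun j => LQ.Met.measurableSet_box _ _,
    tsum_fintype]

theorem det : Det := by
  refine ⟨det_sub, det_rot, det_N, det_mu, fun x => ?_, fun x => ?_,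
    fun q x => Net.nu_nonneg _ _ _, fun x => Finset.sum_nonneg fun _ _ => Nat.cast_nonneg _,
    fun a b c ha h => IsGood.pull ha h⟩
  · rw [nu0, nu0, nu_eq _ _ (1 + _), nu_eq _ _ (1 - _), nu0, nu0]
    simp
    ring
  · refine Continuous.congr ?_ fun q => (nu_eq (fc0 x) S0 q).symm
    fun_prop

/-- a measurable functional of the local family of cells is local -/
theorem measurable_fc0 {β : Type*} [MeasurableSpace β] {F : Walk.FC → β}
    (hF : Measurable fun q : Met × Tup => F (lfc K0 (curry q.1) (pts q.2))) :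
    Measurable[GGhat W0.o] fun x => F (fc0 x) := by
  rw [GGhat_eq, (isOpen_osq _ _).interior_eq]
  refine measurable_hat ?_ fun c z w h1 _ => ?_
  · let _ : MeasurableSpace Cf := GG W0.o
    have h1 : Measurable fun x : Cf × Tup × Tup => ((loc W0 x.1).1, filt W0.o x.2.1) :=
      ((@measurable_fst _ _ _ _).comp ((measurable_loc_GG Subset.rfl).comp measurable_fst)).prodMk
        ((measurable_filt (measurableSet_o W0)).comp measurable_snd.fst)
    simpa only [Function.comp_def, pts_filt] using! hF.comp h1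
  · exact congrArg (fun P => F (lfc K0 (curry (T W0 c.1)) P)) h1

theorem measLoc : MeasLoc := by
  have h := mfc_lfc (K := K0) (isClosed_csq _ _)
  refine ⟨fun q => measurable_fc0 (F := fun N => N.nu S0 q) (h.measurable_nu measurableSet_S0 q),
    measurable_fc0 (F := fun N => ∑ y ∈ N.pts S0, N.G.deg y)
      (h.measurable_sum_deg measurableSet_S0), ?_,
    measurable_fc0 (F := fun N => ((N.pts S0).card : ℝ))
      ((measurable_from_top (f := fun n : ℕ => (n : ℝ))).comp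
        (h.pts measurableSet_S0).measurable_card)⟩
  rw [GGhat_eq]
  refine measurable_hat ?_ fun c z w _ _ => rfl
  let _ : MeasurableSpace Cf := GG W0.o
  have h1 : Measurable fun x : Cf × Tup × Tup => ((loc W0 x.1).2 S0).toReal :=
    ((Measure.measurable_coe measurableSet_S0).comp ((@measurable_snd _ _ _ _).comp
      ((measurable_loc_GG Subset.rfl).comp measurable_fst))).ennreal_toReal
  simpa only [loc, Measure.restrict_apply measurableSet_S0, inter_eq_left.2 S0_subset_W0] using! h1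

end Pool.Agent.Lib.MP_0d9445_pr.HO
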