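import Pool.Agent.Lib.MP_0d9445_pr.HO.Basic

/-! Module HO: the two forms of the Cameron-Martin input. -/

open MeasureTheory ProbabilityTheory Set Filter Topology
open scoped ENNReal NNReal

noncomputable section

namespace Pool.Agent.Lib.MP_0d9445_pr.HO

variable {X : Type} [MeasurableSpace X] (d : Data X)

private theorem PfCM_real {A B E : ℝ≥0∞} {t e : ℝ} (hA : A ≠ ∞) (hB : B ≠ ∞) (he : 0 ≤ e)
    (hE : E ≤ ENNReal.ofReal e) (h1 : A ≤ ee t * B + E) (h2 : ee t * B ≤ A + E) :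
    |A.toReal - Real.exp t * B.toReal| ≤ e := by
  have hW : ee t * B ≠ ∞ := ENNReal.mul_ne_top (ee_ne_top t) hB
  have h3 : A ≤ ee t * B + ENNReal.ofReal e := h1.trans (by gcongr)
  have h4 : ee t * B ≤ A + ENNReal.ofReal e := h2.trans (by gcongr)
  have h5 := ENNReal.toReal_mono (ENNReal.add_ne_top.2 ⟨hW, ENNReal.ofReal_ne_top⟩) h3
  have h6 := ENNReal.toReal_mono (ENNReal.add_ne_top.2 ⟨hA, ENNReal.ofReal_ne_top⟩) h4
  rw [ENNReal.toReal_add hW ENNReal.ofReal_ne_top, ENNReal.toReal_ofReal he, ENNReal.toReal_mul,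
    ee_toReal] at h5
  rw [ENNReal.toReal_add hA ENNReal.ofReal_ne_top, ENNReal.toReal_ofReal he, ENNReal.toReal_mul,
    ee_toReal] at h6
  rw [abs_le]
  constructor <;> linarith

private theorem PfCM_int (m : ℕ) (j : Ix m) (g : Fn) {F : X → ℝ} (hF : Measurable F)
    (h0 : ∀ x, 0 ≤ F x) :
    ∫ x, F (d.ch m j x) ∂d.P 0 g = (∫⁻ x, ENNReal.ofReal (F (d.ch m j x)) ∂d.P 0 g).toReal :=
  integral_eq_lintegral_of_nonneg_ae (ae_of_all _ fun _ => h0 _)
    (hF.comp (d.ch_meas m j)).aestronglyMeasurable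

private theorem PfCM_bdd {Y : Type} [MeasurableSpace Y] (μ : Measure Y) [IsProbabilityMeasure μ]
    {f : Y → ℝ≥0∞} {T : ℝ≥0∞} (h : ∀ y, f y ≤ T) : ∫⁻ y, f y ∂μ ≤ T :=
  (lintegral_mono h).trans (by simp)

theorem cm0 : d.CM0 := by
  intro R0 ε hε
  obtain ⟨m0, hm0⟩ := d.cm 0 (Or.inl rfl) R0 ε hε
  refine ⟨m0, fun m hm j c T u hu F hF hT => ?_⟩
  have hp : 0 < d.p := zero_lt_one.trans d.one_lt
  obtain ⟨x0⟩ : Nonempty X := nonempty_of_isProbabilityMeasure (d.P 0 0)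
  have hT0 : 0 ≤ T := (hT x0).1.trans (hT x0).2
  have hle : ∀ x, ENNReal.ofReal (F x) ≤ ENNReal.ofReal T := fun x =>
    ENNReal.ofReal_le_ofReal (hT x).2
  obtain ⟨h1, h2⟩ := hm0 m hm j c u (fun x => ENNReal.ofReal (F x)) _ hu.1 hu.2
    hF.ennreal_ofReal rfl
  have hfin : ∀ (i : Ix m) (g : Fn), ∫⁻ x, ENNReal.ofReal (F (d.ch m i x)) ∂d.P 0 g ≠ ∞ :=
    fun i g => ne_top_of_le_ne_top ENNReal.ofReal_ne_top (PfCM_bdd _ fun x => hle _)
  have key := PfCM_real (hfin j _) (hfin j _) (mul_nonneg hε.le hT0) ?_ h1 h2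
  · rw [d.lintegral_ch_cst m j c hF.ennreal_ofReal, zero_mul, Real.exp_zero, one_mul] at key
    rw [PfCM_int d m j _ hF fun x => (hT x).1, PfCM_int d m 0 _ hF fun x => (hT x).1]
    exact key
  · have hb : (∫⁻ η, ee (-(0 * (d.p - 1)) * η (cor m j)) *
        ∫⁻ x, ENNReal.ofReal (F x) ^ d.p ∂d.P 0 (res d.Q m (cor m j) (cst c + η)) ∂d.lay m) ≤
        ENNReal.ofReal T ^ d.p := by
      refine PfCM_bdd _ fun η => ?_
      rw [zero_mul, neg_zero, zero_mul, ee_zero, one_mul]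
      exact PfCM_bdd _ fun x => ENNReal.rpow_le_rpow (hle x) hp.le
    have hb' := ENNReal.rpow_le_rpow hb (one_div_nonneg.2 hp.le)
    rw [← ENNReal.rpow_mul, mul_one_div_cancel hp.ne', ENNReal.rpow_one] at hb'
    rw [ENNReal.ofReal_mul hε.le, show (0 : ℝ) ^ 2 / 2 * (m * Real.log 2) * (1 - 1 / d.p) = 0 by
      ring, ee_zero, mul_one]
    gcongr

private theorem PfCM_fin {F : X → ℝ} (hF : Measurable F) (h0 : ∀ x, 0 ≤ F x)
    (hK : ∀ g, ∫⁻ x, ENNReal.ofReal (F x ^ d.p) ∂d.P 0 g ≤ d.C * ee (d.p * d.γ * g 0) * d.V g)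
    (m : ℕ) (j : Ix m) (g : Fn) (hg : d.V g ≠ ∞) :
    ∫⁻ x, ENNReal.ofReal (F (d.ch m j x)) ∂d.P 0 g ≠ ∞ := by
  refine (Integrable.lintegral_lt_top (integrable_of_rpow (d.P 0 g) (hF.comp (d.ch_meas m j))
    (fun x => h0 _) d.one_lt.le ?_)).ne
  obtain ⟨B, hB⟩ := d.wt_kid (d.p * d.γ)
  have h1 := d.lintegral_ch m j g (F := fun x => ENNReal.ofReal (F x ^ d.p))
    (hF.pow_const d.p).ennreal_ofReal
  simp only [Function.comp_apply]
  rw [h1]
  have h2 : ∫⁻ η, ∫⁻ x, ENNReal.ofReal (F x ^ d.p) ∂d.P 0 (d.kid m j (g + η)) ∂d.lay m ≤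
      d.C * ∫⁻ η, ee (d.p * d.γ * d.kid m j (g + η) 0) * d.V (d.kid m j (g + η)) ∂d.lay m := by
    rw [← lintegral_const_mul' _ _ ENNReal.coe_ne_top]
    exact lintegral_mono fun η => (hK _).trans (le_of_eq (mul_assoc _ _ _))
  refine ne_top_of_le_ne_top ?_ (h2.trans (mul_le_mul_right (hB m j g) _))
  exact ENNReal.mul_ne_top ENNReal.coe_ne_top (ENNReal.mul_ne_top (ENNReal.mul_ne_top
    (ENNReal.mul_ne_top ENNReal.coe_ne_top (ee_ne_top _)) (ee_ne_top _))
    (ENNReal.rpow_ne_top_of_nonneg (by positivity) hg))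

theorem cmg : d.CMg := by
  intro R0 ε hε
  have hp : 0 < d.p := zero_lt_one.trans d.one_lt
  obtain ⟨B, hB⟩ := d.V_lay d.γ
  set K : ℝ≥0 := (d.C * B) ^ (1 / d.p) with hKdef
  have hK0 : (0 : ℝ) < K + 1 := by positivity
  obtain ⟨m0, hm0⟩ := d.cm d.γ (Or.inr rfl) R0 (ε / (K + 1)) (div_pos hε hK0)
  refine ⟨m0, fun m hm j c u hu F hF h0 hK => ?_⟩
  obtain ⟨h1, h2⟩ := hm0 m hm j c u (fun x => ENNReal.ofReal (F x)) _ hu.1 hu.2
    hF.ennreal_ofReal rfl
  have hV1 : d.V (cst c + u) ≠ ∞ := by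
    rw [d.V_cst_add]
    exact ne_top_of_le_ne_top ENNReal.ofReal_ne_top hu.2
  have hV2 : d.V (cst c) ≠ ∞ := by
    rw [d.V_const]
    exact ENNReal.one_ne_top
  have key := PfCM_real (e := ε * Real.exp (d.γ * c) / 4 ^ m) (PfCM_fin d hF h0 hK m j _ hV1)
    (PfCM_fin d hF h0 hK m j _ hV2) (by positivity) ?_ h1 h2
  · rw [d.lintegral_ch_cst m j c hF.ennreal_ofReal] at key
    rw [PfCM_int d m j _ hF h0, PfCM_int d m 0 _ hF h0]
    exact key
  · have hb : (∫⁻ η, ee (-(d.γ * (d.p - 1)) * η (cor m j)) *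
        ∫⁻ x, ENNReal.ofReal (F x) ^ d.p ∂d.P 0 (res d.Q m (cor m j) (cst c + η)) ∂d.lay m) ≤
        (d.C * B : ℝ≥0) * ee (d.p * d.γ * (c - m * d.Q * Real.log 2) +
          d.γ ^ 2 / 2 * (m * Real.log 2)) := by
      calc _ ≤ ∫⁻ η, d.C * ee (d.p * d.γ * (c - m * d.Q * Real.log 2)) *
            (ee (d.γ * η (cor m j)) * d.V (res d.Q m (cor m j) (cst c + η))) ∂d.lay m := by
            refine lintegral_mono fun η => ?_
            have h3 := hK (res d.Q m (cor m j) (cst c + η))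
            simp only [← ENNReal.ofReal_rpow_of_nonneg (h0 _) hp.le] at h3
            have h4 : ee (-(d.γ * (d.p - 1)) * η (cor m j)) *
                ee (d.p * d.γ * res d.Q m (cor m j) (cst c + η) 0) =
                ee (d.p * d.γ * (c - m * d.Q * Real.log 2)) * ee (d.γ * η (cor m j)) := by
              rw [← ee_add, ← ee_add]
              congr 1
              simp only [res_apply, zero_div, add_zero, ContinuousMap.add_apply, cst_apply]
              ring
            calc _ ≤ ee (-(d.γ * (d.p - 1)) * η (cor m j)) *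
                  (d.C * ee (d.p * d.γ * res d.Q m (cor m j) (cst c + η) 0) *
                    d.V (res d.Q m (cor m j) (cst c + η))) := by gcongr
              _ = d.C * (ee (-(d.γ * (d.p - 1)) * η (cor m j)) *
                  ee (d.p * d.γ * res d.Q m (cor m j) (cst c + η) 0)) *
                    d.V (res d.Q m (cor m j) (cst c + η)) := by ring
              _ = _ := by rw [h4]; ring
        _ = d.C * ee (d.p * d.γ * (c - m * d.Q * Real.log 2)) *
            ∫⁻ η, ee (d.γ * η (cor m j)) * d.V (res d.Q m (cor m j) (cst c + η)) ∂d.lay m :=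
            lintegral_const_mul' _ _ (ENNReal.mul_ne_top ENNReal.coe_ne_top (ee_ne_top _))
        _ ≤ d.C * ee (d.p * d.γ * (c - m * d.Q * Real.log 2)) *
            (B * ee (d.γ ^ 2 / 2 * (m * Real.log 2)) * d.V (cst c)) := by
            gcongr
            exact hB m j (cst c)
        _ = _ := by
            rw [d.V_const, ee_add, ENNReal.coe_mul]
            ring
    have hb' := ENNReal.rpow_le_rpow hb (one_div_nonneg.2 hp.le)
    rw [ENNReal.mul_rpow_of_nonneg _ _ (one_div_nonneg.2 hp.le), ee_rpow,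
      ← ENNReal.coe_rpow_of_nonneg _ (one_div_nonneg.2 hp.le), ← hKdef] at hb'
    have hexp : d.γ ^ 2 / 2 * (m * Real.log 2) * (1 - 1 / d.p) +
        1 / d.p * (d.p * d.γ * (c - m * d.Q * Real.log 2) + d.γ ^ 2 / 2 * (m * Real.log 2)) =
        d.γ * c - m * (2 * Real.log 2) := by
      have hz := d.zγ
      have hi : 1 / d.p * d.p = 1 := one_div_mul_cancel hp.ne'
      linear_combination (-(m * Real.log 2)) * hz + d.γ * (c - m * d.Q * Real.log 2) * hi
    have h4 : Real.exp (d.γ * c - m * (2 * Real.log 2)) = Real.exp (d.γ * c) / 4 ^ m := by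
      rw [Real.exp_sub, Real.exp_nat_mul, show 2 * Real.log 2 = Real.log 4 by
        rw [show (4 : ℝ) = 2 ^ 2 by norm_num, Real.log_pow]; norm_num,
        Real.exp_log (by norm_num)]
    calc _ ≤ ENNReal.ofReal (ε / (K + 1)) *
          ee (d.γ ^ 2 / 2 * (m * Real.log 2) * (1 - 1 / d.p)) * (K * ee (1 / d.p *
            (d.p * d.γ * (c - m * d.Q * Real.log 2) + d.γ ^ 2 / 2 * (m * Real.log 2)))) := by
          gcongr
      _ = ENNReal.ofReal (ε / (K + 1)) * K * ee (d.γ * c - m * (2 * Real.log 2)) := by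
          rw [← hexp, ee_add]
          ring
      _ ≤ ENNReal.ofReal ε * ee (d.γ * c - m * (2 * Real.log 2)) := by
          gcongr
          rw [← ENNReal.ofReal_coe_nnreal, ← ENNReal.ofReal_mul (div_pos hε hK0).le]
          refine ENNReal.ofReal_le_ofReal ?_
          rw [div_mul_eq_mul_div, div_le_iff₀ hK0]
          nlinarith
      _ = _ := by
          rw [ee, h4, ← ENNReal.ofReal_mul hε.le, mul_div_assoc]

end Pool.Agent.Lib.MP_0d9445_pr.HO
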