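import Pool.Agent.Lib.MP_0d9445_pr.HO.Basic

/-! Module HO: the defect of subadditivity. -/

open MeasureTheory ProbabilityTheory Set Filter Topology
open scoped ENNReal NNReal

noncomputable section

namespace Pool.Agent.Lib.MP_0d9445_pr.HO

variable {X : Type} [MeasurableSpace X] (d : Data X)

/-- translating a bounded function changes its integral over an interval by a boundary term -/
private theorem PfDefect_shift {ψ : ℝ → ℝ≥0∞} (hψ : Measurable ψ) {K : ℝ≥0∞} (hK : ∀ t, ψ t ≤ K)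
    (T l : ℝ) :
    ∫⁻ t in Ioc 0 T, ψ (t + l) ≤ (∫⁻ t in Ioc 0 T, ψ t) + 2 * (ENNReal.ofReal |l| * K) := by
  have h1 : ∫⁻ t in Ioc 0 T, ψ (t + l) = ∫⁻ t in Ioc l (T + l), ψ t := by
    rw [← (measurePreserving_add_right volume l).setLIntegral_comp_preimage measurableSet_Ioc hψ]
    congr 2
    ext t
    simp
  have h2 : ∀ a b : ℝ, b - a ≤ |l| → ∫⁻ t in Ioc a b, ψ t ≤ ENNReal.ofReal |l| * K := by
    intro a b hab
    calc ∫⁻ t in Ioc a b, ψ t ≤ ∫⁻ _t in Ioc a b, K := lintegral_mono hK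
      _ = K * ENNReal.ofReal (b - a) := by rw [setLIntegral_const, Real.volume_Ioc]
      _ ≤ _ := by
        rw [mul_comm]
        gcongr
  have h3 : Ioc l (T + l) ⊆ Ioc 0 T ∪ (Ioc l 0 ∪ Ioc T (T + l)) := by
    intro t ht
    rcases le_or_gt t 0 with h | h
    · exact Or.inr (Or.inl ⟨ht.1, h⟩)
    · rcases le_or_gt t T with h' | h'
      · exact Or.inl ⟨h, h'⟩
      · exact Or.inr (Or.inr ⟨h', ht.2⟩)
  rw [h1, two_mul]
  refine (lintegral_mono_set h3).trans ((lintegral_union_le _ _ _).trans ?_)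
  gcongr
  refine (lintegral_union_le _ _ _).trans (add_le_add (h2 _ _ ?_) (h2 _ _ ?_))
  · simpa using neg_le_abs l
  · simpa using le_abs_self l

private theorem PfDefect_meas_arg : Measurable fun w : Fn × ℝ => w.1 + cst w.2 :=
  measurable_fst.add (measurable_cst.comp measurable_snd)

/-- shape with law `Ginf`, height uniform on `Ioc 0 T` -/
private def PfDefect_m (T : ℝ) : Measure Fn :=
  (d.Ginf.prod (volume.restrict (Ioc (0 : ℝ) T))).map fun w => w.1 + cst w.2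

private theorem PfDefect_m_eq (T : ℝ) {φ : Fn → ℝ≥0∞} (hφ : Measurable φ) :
    ∫⁻ u, φ u ∂PfDefect_m d T = ∫⁻ g, (∫⁻ t in Ioc 0 T, φ (g + cst t)) ∂d.Ginf := by
  rw [PfDefect_m, lintegral_map hφ PfDefect_meas_arg,
    lintegral_prod (fun w : Fn × ℝ => φ (w.1 + cst w.2)) (hφ.comp PfDefect_meas_arg).aemeasurable]

private theorem PfDefect_m_eq' (T : ℝ) {φ : Fn → ℝ≥0∞} (hφ : Measurable φ) :
    ∫⁻ u, φ u ∂PfDefect_m d T = ∫⁻ t in Ioc 0 T, ∫⁻ g, φ (g + cst t) ∂d.Ginf := by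
  rw [PfDefect_m_eq d T hφ]
  exact lintegral_lintegral_swap (f := fun (g : Fn) (t : ℝ) => φ (g + cst t))
    (hφ.comp PfDefect_meas_arg).aemeasurable

private theorem PfDefect_V_fin : ∫⁻ g, d.V g ∂d.Ginf ≠ ∞ := by
  simpa using d.V_Ginf 1

/-- the boundary term of a child is finite -/
private theorem PfDefect_bdry (k : ℕ) (j : Ix k) :
    ∫⁻ g, ∫⁻ η, ENNReal.ofReal |d.kid k j (g + η) 0| * d.V (d.kid k j (g + η)) ∂d.lay k
      ∂d.Ginf ≠ ∞ := by
  obtain ⟨B1, hB1⟩ := d.wt_kid 1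
  obtain ⟨B2, hB2⟩ := d.wt_kid (-1)
  set c1 := ee (((1 : ℝ) ^ 2 / 2 - 1 * d.Q) * (k * Real.log 2)) with hc1
  set c2 := ee (((-1 : ℝ) ^ 2 / 2 - -1 * d.Q) * (k * Real.log 2)) with hc2
  have hfin : (B1 * c1 + B2 * c2) * ∫⁻ g, d.V g ^ (2 : ℝ) ∂d.Ginf ≠ ∞ :=
    ENNReal.mul_ne_top (ENNReal.add_ne_top.2 ⟨ENNReal.mul_ne_top ENNReal.coe_ne_top (ee_ne_top _),
      ENNReal.mul_ne_top ENNReal.coe_ne_top (ee_ne_top _)⟩) (d.V_Ginf 2)
  refine ne_top_of_le_ne_top hfin ?_
  rw [← lintegral_const_mul _ (d.V_meas.pow_const _)]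
  refine lintegral_mono_ae ?_
  filter_upwards [d.Ginf_zero] with g hg
  have hm : Measurable fun η => ee (1 * d.kid k j (g + η) 0) * d.V (d.kid k j (g + η)) :=
    (measurable_ee.comp (((measurable_ev 0).comp (d.measurable_kid_add k j g)).const_mul 1)).mul
      (d.V_meas.comp (d.measurable_kid_add k j g))
  have h1 := hB1 k j g
  have h2 := hB2 k j g
  rw [hg, mul_zero, ee_zero, mul_one, abs_one, one_add_one_eq_two] at h1
  rw [hg, mul_zero, ee_zero, mul_one, abs_neg, abs_one, one_add_one_eq_two] at h2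
  calc ∫⁻ η, ENNReal.ofReal |d.kid k j (g + η) 0| * d.V (d.kid k j (g + η)) ∂d.lay k
      ≤ ∫⁻ η, (ee (1 * d.kid k j (g + η) 0) * d.V (d.kid k j (g + η)) +
          ee (-1 * d.kid k j (g + η) 0) * d.V (d.kid k j (g + η))) ∂d.lay k := by
        refine lintegral_mono fun η => ?_
        rw [← add_mul, one_mul, neg_one_mul]
        exact mul_le_mul_left (ofReal_abs_le_ee _) _
    _ ≤ B1 * c1 * d.V g ^ (2 : ℝ) + B2 * c2 * d.V g ^ (2 : ℝ) := by
        rw [lintegral_add_left hm]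
        exact add_le_add h1 h2
    _ = _ := by rw [add_mul]

/-- stationarity up to a boundary term -/
private theorem PfDefect_child (k : ℕ) (j : Ix k) {f : Fn → ℝ≥0∞} (hf : Measurable f) {K : ℝ≥0∞}
    (hK : K ≠ ∞) (hle : ∀ g, f g ≤ K * d.V g) : ∃ M : ℝ≥0∞, M ≠ ∞ ∧ ∀ T : ℝ,
      ∫⁻ u, ∫⁻ η, f (d.kid k j (u + η)) ∂d.lay k ∂PfDefect_m d T ≤
        ∫⁻ u, f u ∂PfDefect_m d T + M := by
  have hkid : Measurable fun w : Fn × Fn => d.kid k j (w.1 + w.2) :=
    (d.measurable_kid k j).comp measurable_add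
  have hshp : Measurable fun w : Fn × Fn => shp k (cor k j) (w.1 + w.2) :=
    (measurable_shp k _).comp measurable_add
  have hb : Measurable fun w : Fn × Fn =>
      ENNReal.ofReal |d.kid k j (w.1 + w.2) 0| * d.V (d.kid k j (w.1 + w.2)) :=
    ((measurable_ev 0).comp hkid).abs.ennreal_ofReal.mul (d.V_meas.comp hkid)
  refine ⟨2 * K * ∫⁻ w, ENNReal.ofReal |d.kid k j (w.1 + w.2) 0| * d.V (d.kid k j (w.1 + w.2))
    ∂d.Ginf.prod (d.lay k), ?_, fun T => ?_⟩
  · refine ENNReal.mul_ne_top (ENNReal.mul_ne_top (by simp) hK) ?_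
    rw [lintegral_prod _ hb.aemeasurable]
    exact PfDefect_bdry d k j
  have hΦ : Measurable fun u => ∫⁻ η, f (d.kid k j (u + η)) ∂d.lay k :=
    Measurable.lintegral_prod_right' (f := fun w : Fn × Fn => f (d.kid k j (w.1 + w.2)))
      (hf.comp hkid)
  have hI : Measurable fun g : Fn => ∫⁻ t in Ioc 0 T, f (g + cst t) :=
    Measurable.lintegral_prod_right' (f := fun w : Fn × ℝ => f (w.1 + cst w.2))
      (hf.comp PfDefect_meas_arg)
  have e : ∀ (g η : Fn) (t : ℝ), d.kid k j (g + cst t + η) =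
      shp k (cor k j) (g + η) + cst (t + d.kid k j (g + η) 0) := by
    intro g η t
    ext z
    simp [Data.kid]
    ring
  have hI' : Measurable fun w : Fn × Fn =>
      ∫⁻ t in Ioc 0 T, f (shp k (cor k j) (w.1 + w.2) + cst t) := hI.comp hshp
  have e2 : ∫⁻ g, (∫⁻ t in Ioc 0 T, f (g + cst t)) ∂d.Ginf = ∫⁻ w : Fn × Fn,
      (∫⁻ t in Ioc 0 T, f (shp k (cor k j) (w.1 + w.2) + cst t)) ∂d.Ginf.prod (d.lay k) := by
    rw [← lintegral_map hI hshp, d.shape k j]
  have hS : Measurable fun w : Fn × Fn =>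
      (∫⁻ t in Ioc 0 T, f (shp k (cor k j) (w.1 + w.2) + cst t)) +
        2 * K * (ENNReal.ofReal |d.kid k j (w.1 + w.2) 0| * d.V (d.kid k j (w.1 + w.2))) :=
    hI'.add (hb.const_mul _)
  rw [PfDefect_m_eq d T hΦ, PfDefect_m_eq d T hf, e2, ← lintegral_const_mul _ hb,
    ← lintegral_add_left hI', lintegral_prod _ hS.aemeasurable]
  refine lintegral_mono fun g => ?_
  have hsw : Measurable fun w : ℝ × Fn => f (d.kid k j (g + cst w.1 + w.2)) :=
    hf.comp ((d.measurable_kid k j).comp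
      ((measurable_const.add (measurable_cst.comp measurable_fst)).add measurable_snd))
  rw [lintegral_lintegral_swap (f := fun (t : ℝ) (η : Fn) => f (d.kid k j (g + cst t + η)))
    hsw.aemeasurable]
  refine lintegral_mono fun η => ?_
  simp only [e]
  have h1 := PfDefect_shift (ψ := fun t => f (shp k (cor k j) (g + η) + cst t))
    (hf.comp (measurable_const.add measurable_cst)) (K := K * d.V (d.kid k j (g + η)))
    (fun t => by rw [d.V_kid, ← d.V_cst _ t]; exact hle _) T (d.kid k j (g + η) 0)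
  refine h1.trans (le_of_eq ?_)
  ring

private theorem PfDefect_f_le {q : ℂ} (hq : ‖q‖ ≤ 2) (g : Fn) :
    ∫⁻ x, ENNReal.ofReal (d.nu q x) ∂d.P 0 g ≤ (1 + d.C) * d.V g := by
  have h1 := setLIntegral_le_trunc (d.P 0 g) (d.nu_meas q) (d.nu_nonneg q) one_pos one_le_two univ
  simp only [Measure.restrict_univ, Real.one_rpow, ENNReal.ofReal_one, measure_univ, div_one,
    Real.rpow_two, mul_one] at h1
  rw [add_mul, one_mul]
  exact h1.trans (add_le_add (d.one_le_V g) (d.K_nu g q hq))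

/-- the contribution of the complement of the localisation event -/
private theorem PfDefect_err (h2 : d.LocS) (k : ℕ) {q : ℂ} (hq : ‖q‖ ≤ 2) (η : ℝ) :
    ∃ M : ℝ≥0∞, M ≠ ∞ ∧ ∀ T : ℝ,
      ∫⁻ u, (∫⁻ x in (d.allLoc k)ᶜ, (ENNReal.ofReal η + ENNReal.ofReal (d.nu q x)) ∂d.P 0 u)
        ∂PfDefect_m d T ≤ M := by
  obtain ⟨B, hB⟩ := h2 k
  have ha := d.a_pos
  set W : Fn → ℝ≥0∞ := fun g => (ENNReal.ofReal η + 1) * B * d.V g ^ (d.a + 1) + d.C * d.V g
    with hW
  have hWfin : ∫⁻ g, W g ∂d.Ginf ≠ ∞ := by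
    rw [hW, lintegral_add_left ((d.V_meas.pow_const _).const_mul _),
      lintegral_const_mul _ (d.V_meas.pow_const _), lintegral_const_mul _ d.V_meas]
    exact ENNReal.add_ne_top.2 ⟨ENNReal.mul_ne_top (ENNReal.mul_ne_top (by simp) (by simp))
      (d.V_Ginf _), ENNReal.mul_ne_top (by simp) (PfDefect_V_fin d)⟩
  have hexp : ∫⁻ t in Ioi (0 : ℝ), ee (-(d.a / 2) * t) ≠ ∞ :=
    (exp_neg_integrableOn_Ioi 0 (half_pos ha)).lintegral_lt_top.ne
  refine ⟨(∫⁻ t in Ioi (0 : ℝ), ee (-(d.a / 2) * t)) * ∫⁻ g, W g ∂d.Ginf,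
    ENNReal.mul_ne_top hexp hWfin, fun T => ?_⟩
  have hmeas : Measurable fun u =>
      ∫⁻ x in (d.allLoc k)ᶜ, (ENNReal.ofReal η + ENNReal.ofReal (d.nu q x)) ∂d.P 0 u := by
    simp only [← lintegral_indicator (d.measurableSet_allLoc k).compl]
    exact d.measurable_lintegral_P
      ((measurable_const.add (d.nu_meas q).ennreal_ofReal).indicator
        (d.measurableSet_allLoc k).compl)
  rw [PfDefect_m_eq' d T hmeas, ← lintegral_mul_const' _ _ hWfin]
  refine le_trans (setLIntegral_mono' measurableSet_Ioc fun t ht => ?_)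
    (lintegral_mono_set Ioc_subset_Ioi_self)
  rw [← lintegral_const_mul' _ _ (ee_ne_top _)]
  refine lintegral_mono_ae ?_
  filter_upwards [d.Ginf_zero] with g hg
  have h0 : (g + cst t) 0 = t := by simp [hg]
  have h3 := hB (g + cst t)
  rw [h0, d.V_cst] at h3
  have h4 := setLIntegral_le_trunc (d.P 0 (g + cst t)) (d.nu_meas q) (d.nu_nonneg q)
    (Real.exp_pos (d.a / 2 * t)) one_le_two (d.allLoc k)ᶜ
  have h5 := d.K_nu (g + cst t) q hq
  rw [d.V_cst] at h5
  simp only [Real.rpow_two] at h4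
  rw [show (2 : ℝ) - 1 = 1 by norm_num, Real.rpow_one] at h4
  have h6 : ee (-d.a * t) ≤ ee (-(d.a / 2) * t) := ee_mono (by nlinarith [ht.1])
  have h7 : ee (d.a / 2 * t) * ee (-d.a * t) = ee (-(d.a / 2) * t) := by
    rw [← ee_add]
    congr 1
    ring
  have h8 : (ee (d.a / 2 * t))⁻¹ = ee (-(d.a / 2) * t) := by
    rw [ee, ee, neg_mul, Real.exp_neg, ENNReal.ofReal_inv_of_pos (Real.exp_pos _)]
  rw [lintegral_add_left measurable_const, setLIntegral_const]
  calc _ ≤ ENNReal.ofReal η * (B * ee (-(d.a / 2) * t) * d.V g ^ (d.a + 1)) +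
        (ee (d.a / 2 * t) * (B * ee (-d.a * t) * d.V g ^ (d.a + 1)) +
          d.C * d.V g / ee (d.a / 2 * t)) := by
        refine add_le_add ?_ (h4.trans ?_)
        · gcongr
          refine h3.trans ?_
          gcongr
        · unfold ee
          gcongr
          exact h3
    _ = _ := by
        rw [ENNReal.div_eq_inv_mul, h8, hW, ← h7]
        ring

/-- the pointwise inequality -/
private theorem PfDefect_pt (k : ℕ) (q : ℂ) {η : ℝ} (hη : 0 < η) (u : Fn) :
    ENNReal.ofReal η * d.P 0 u {x | η < |d.nu q x - d.av k (d.nu q) x|} +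
        ∫⁻ x, ENNReal.ofReal (d.nu q x) ∂d.P 0 u ≤
      (4 ^ k : ℝ≥0∞)⁻¹ * ∑ j, ∫⁻ η', ∫⁻ x, ENNReal.ofReal (d.nu q x)
          ∂d.P 0 (d.kid k j (u + η')) ∂d.lay k +
        ∫⁻ x in (d.allLoc k)ᶜ, (ENNReal.ofReal η + ENNReal.ofReal (d.nu q x)) ∂d.P 0 u := by
  have hν := (d.nu_meas q).ennreal_ofReal
  have hB : MeasurableSet {x | η < |d.nu q x - d.av k (d.nu q) x|} :=
    measurableSet_lt measurable_const ((d.nu_meas q).sub (d.measurable_av k (d.nu_meas q))).abs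
  have hch : ∀ j, Measurable fun x => ENNReal.ofReal (d.nu q (d.ch k j x)) :=
    fun j => hν.comp (d.ch_meas k j)
  simp only [← d.lintegral_ch k _ u hν]
  rw [← lintegral_finsetSum _ fun j _ => hch j,
    ← lintegral_const_mul _ (Finset.measurable_sum _ fun j _ => hch j),
    ← lintegral_indicator (d.measurableSet_allLoc k).compl,
    ← lintegral_add_left ((Finset.measurable_sum _ fun j _ => hch j).const_mul _),
    ← lintegral_indicator_const hB, ← lintegral_add_right _ hν]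
  refine lintegral_mono_ae ?_
  filter_upwards [d.sub k u] with x hx
  by_cases hl : x ∈ d.allLoc k
  · have h1 : d.nu q x ≤ d.av k (d.nu q) x := (hx hl.1 hl.2).1 q
    have h2 : ENNReal.ofReal (d.av k (d.nu q) x) =
        (4 ^ k : ℝ≥0∞)⁻¹ * ∑ j, ENNReal.ofReal (d.nu q (d.ch k j x)) := by
      rw [Data.av, ENNReal.ofReal_div_of_pos (by positivity),
        ENNReal.ofReal_sum_of_nonneg fun j _ => d.nu_nonneg q _, div_eq_mul_inv, mul_comm,
        ENNReal.ofReal_pow (by norm_num)]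
      simp
    rw [← h2]
    refine le_trans ?_ le_self_add
    by_cases hx' : x ∈ {x | η < |d.nu q x - d.av k (d.nu q) x|}
    · rw [indicator_of_mem hx', ← ENNReal.ofReal_add hη.le (d.nu_nonneg q x)]
      refine ENNReal.ofReal_le_ofReal ?_
      have h3 : η < |d.nu q x - d.av k (d.nu q) x| := hx'
      rw [abs_of_nonpos (by linarith)] at h3
      linarith
    · rw [indicator_of_notMem hx', zero_add]
      exact ENNReal.ofReal_le_ofReal h1
  · rw [indicator_of_mem (mem_compl hl)]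
    refine le_trans ?_ le_add_self
    gcongr
    exact indicator_le_self _ _ x

theorem defect_of (h1 : d.Avg) (h2 : d.LocS) : d.Defect := by
  intro k q η hq hη
  have hB : MeasurableSet {x | η < |d.nu q x - d.av k (d.nu q) x|} :=
    measurableSet_lt measurable_const ((d.nu_meas q).sub (d.measurable_av k (d.nu_meas q))).abs
  refine h1 _ hB ?_
  set B := {x | η < |d.nu q x - d.av k (d.nu q) x|} with hBdef
  set f : Fn → ℝ≥0∞ := fun g => ∫⁻ x, ENNReal.ofReal (d.nu q x) ∂d.P 0 g with hfdef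
  have hf : Measurable f := d.measurable_lintegral_P (d.nu_meas q).ennreal_ofReal
  have hK : (1 + d.C : ℝ≥0∞) ≠ ∞ := by simp
  have hfle : ∀ g, f g ≤ (1 + d.C) * d.V g := PfDefect_f_le d hq
  choose M hM hM' using fun j => PfDefect_child d k j hf hK hfle
  obtain ⟨E, hE, hE'⟩ := PfDefect_err d h2 k hq η
  have hP := d.measurable_P B hB
  have hΦ : ∀ j, Measurable fun u => ∫⁻ η', f (d.kid k j (u + η')) ∂d.lay k := fun j =>
    Measurable.lintegral_prod_right' (f := fun w : Fn × Fn => f (d.kid k j (w.1 + w.2)))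
      (hf.comp ((d.measurable_kid k j).comp measurable_add))
  have h4 : (4 ^ k : ℝ≥0∞)⁻¹ * 4 ^ k = 1 := ENNReal.inv_mul_cancel (by simp) (by simp)
  have key : ∀ T : ℝ, ENNReal.ofReal η * ∫⁻ t in Ioc 0 T, ∫⁻ g, d.P 0 (g + cst t) B ∂d.Ginf ≤
      (4 ^ k : ℝ≥0∞)⁻¹ * ∑ j, M j + E := by
    intro T
    have hfin : ∫⁻ u, f u ∂PfDefect_m d T ≠ ∞ := by
      refine ne_top_of_le_ne_top ?_ (lintegral_mono hfle)
      rw [lintegral_const_mul _ d.V_meas, PfDefect_m_eq' d T d.V_meas]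
      simp only [d.V_cst, setLIntegral_const, Real.volume_Ioc]
      exact ENNReal.mul_ne_top hK (ENNReal.mul_ne_top (PfDefect_V_fin d) ENNReal.ofReal_ne_top)
    have h5 : ∫⁻ u, (ENNReal.ofReal η * d.P 0 u B + f u) ∂PfDefect_m d T ≤
        ∫⁻ u, ((4 ^ k : ℝ≥0∞)⁻¹ * ∑ j, ∫⁻ η', f (d.kid k j (u + η')) ∂d.lay k +
          ∫⁻ x in (d.allLoc k)ᶜ, (ENNReal.ofReal η + ENNReal.ofReal (d.nu q x)) ∂d.P 0 u)
          ∂PfDefect_m d T := lintegral_mono fun u => PfDefect_pt d k q hη u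
    rw [lintegral_add_right _ hf, lintegral_const_mul _ hP,
      lintegral_add_left ((Finset.measurable_sum _ fun j _ => hΦ j).const_mul _),
      lintegral_const_mul _ (Finset.measurable_sum _ fun j _ => hΦ j),
      lintegral_finsetSum _ fun j _ => hΦ j, PfDefect_m_eq' d T hP] at h5
    refine ENNReal.le_of_add_le_add_right hfin (h5.trans ?_)
    calc _ ≤ (4 ^ k : ℝ≥0∞)⁻¹ * ∑ j, (∫⁻ u, f u ∂PfDefect_m d T + M j) + E := by
          gcongr with j
          · exact hM' j T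
          · exact hE' T
      _ = _ := by
          rw [Finset.sum_add_distrib, sum_const_Ix', mul_add, ← mul_assoc, h4, one_mul]
          ring
  have hfin : (4 ^ k : ℝ≥0∞)⁻¹ * ∑ j, M j + E ≠ ∞ :=
    ENNReal.add_ne_top.2 ⟨ENNReal.mul_ne_top (by simp) (ENNReal.sum_ne_top.2 fun j _ => hM j), hE⟩
  have hU : Ioi (0 : ℝ) = ⋃ n : ℕ, Ioc (0 : ℝ) n := by
    ext t
    simp only [mem_Ioi, mem_iUnion, mem_Ioc]
    exact ⟨fun h => (exists_nat_ge t).imp fun n hn => ⟨h, hn⟩, fun ⟨_, h⟩ => h.1⟩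
  have hη' : ENNReal.ofReal η ≠ 0 := (ENNReal.ofReal_pos.2 hη).ne'
  have hle : ENNReal.ofReal η * ∫⁻ t in Ioi 0, ∫⁻ g, d.P 0 (g + cst t) B ∂d.Ginf ≤
      (4 ^ k : ℝ≥0∞)⁻¹ * ∑ j, M j + E := by
    rw [hU, setLIntegral_iUnion_of_directed _ (Monotone.directed_le fun a b hab =>
      Ioc_subset_Ioc_right (Nat.cast_le.2 hab)), ENNReal.mul_iSup]
    exact iSup_le fun n => key n
  intro htop
  rw [htop, ENNReal.mul_top hη'] at hle
  exact hfin (top_le_iff.1 hle)

end Pool.Agent.Lib.MP_0d9445_pr.HO
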