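import Pool.Agent.Lib.MP_0d9445_pr.HO.Basic

/-! Module HO: the degree law in probability and the output. -/

open MeasureTheory ProbabilityTheory Set Filter Topology
open scoped ENNReal NNReal

noncomputable section

namespace Pool.Agent.Lib.MP_0d9445_pr.HO

variable {X : Type} [MeasurableSpace X] (d : Data X)

theorem PfDeg_small {D : ℝ≥0∞} (hD : D ≠ ∞) {a ε : ℝ} (ha : 0 < a) (hε : 0 < ε) :
    ∀ᶠ c : ℝ in atTop, D * ee (-a * c) ≤ ENNReal.ofReal ε := by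
  have h := ENNReal.Tendsto.const_mul (a := D) (tendsto_ee_neg ha) (Or.inr hD)
  rw [mul_zero] at h
  exact ENNReal.tendsto_nhds_zero.1 h _ (ENNReal.ofReal_pos.2 hε)

theorem PfDeg_loc (h5 : d.LocS) (k : ℕ) (R0 ε : ℝ) (hε : 0 < ε) :
    ∀ᶠ c in atTop, ∀ u ∈ d.Gd R0, d.P 0 (cst c + u) (d.allLoc k)ᶜ ≤ ENNReal.ofReal ε := by
  obtain ⟨B, hB⟩ := h5 k
  have ha := d.a_pos
  have hD : (B : ℝ≥0∞) * ee (d.a * R0) * ENNReal.ofReal R0 ^ (d.a + 1) ≠ ∞ :=
    ENNReal.mul_ne_top (ENNReal.mul_ne_top ENNReal.coe_ne_top (ee_ne_top _))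
      (ENNReal.rpow_ne_top_of_nonneg (by linarith) ENNReal.ofReal_ne_top)
  filter_upwards [PfDeg_small hD ha hε] with c hc u hu
  refine (hB _).trans (le_trans ?_ hc)
  rw [d.V_cst_add]
  have e1 : ee (-d.a * (cst c + u) 0) ≤ ee (d.a * R0) * ee (-d.a * c) := by
    rw [← ee_add]
    refine ee_mono ?_
    have := (abs_le.1 hu.1).1
    simp only [ContinuousMap.add_apply, cst_apply]
    nlinarith
  calc _ ≤ B * (ee (d.a * R0) * ee (-d.a * c)) * ENNReal.ofReal R0 ^ (d.a + 1) := by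
        gcongr
        exact hu.2
    _ = _ := by ring

theorem PfDeg_pow {a b κ K p : ℝ} (ha : 0 ≤ a) (hb : 0 ≤ b) (h0 : 0 ≤ κ) (hK : κ ≤ K)
    (hp : 0 ≤ p) : |a - κ * b| ^ p ≤ a ^ p + K ^ p * b ^ p := by
  have hK0 : 0 ≤ K := h0.trans hK
  have h1 : 0 ≤ κ * b := mul_nonneg h0 hb
  have h2 : κ * b ≤ K * b := mul_le_mul_of_nonneg_right hK hb
  have h3 : 0 ≤ a ^ p := Real.rpow_nonneg ha _
  have h4 : 0 ≤ K ^ p * b ^ p := mul_nonneg (Real.rpow_nonneg hK0 _) (Real.rpow_nonneg hb _)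
  rcases le_total a (K * b) with h | h
  · have : |a - κ * b| ^ p ≤ (K * b) ^ p :=
      Real.rpow_le_rpow (abs_nonneg _) (abs_le.2 ⟨by linarith, by linarith⟩) hp
    rw [Real.mul_rpow hK0 hb] at this
    linarith
  · have : |a - κ * b| ^ p ≤ a ^ p :=
      Real.rpow_le_rpow (abs_nonneg _) (abs_le.2 ⟨by linarith, by linarith⟩) hp
    linarith

theorem PfDeg_mom {κ K : ℝ} (h0 : 0 ≤ κ) (hK : κ ≤ K) (c : ℝ) (g : Fn) :
    ∫⁻ x, ENNReal.ofReal (|(d.pi x - κ * d.mu x) * Real.exp (-(d.γ * c))| ^ d.p) ∂d.P 0 g ≤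
      ee (d.p * -(d.γ * c)) * (1 + ENNReal.ofReal (K ^ d.p)) * d.C *
        (ee (d.p * d.γ * g 0) * d.V g) := by
  have hp : 0 ≤ d.p := by linarith [d.one_lt]
  have hK0 : 0 ≤ K ^ d.p := Real.rpow_nonneg (h0.trans hK) _
  have m1 : Measurable fun x => ENNReal.ofReal (d.pi x ^ d.p) :=
    (d.pi_meas.pow_const _).ennreal_ofReal
  have m2 : Measurable fun x => ENNReal.ofReal (d.mu x ^ d.p) :=
    (d.mu_meas.pow_const _).ennreal_ofReal
  calc _ ≤ ∫⁻ x, ee (d.p * -(d.γ * c)) * (ENNReal.ofReal (d.pi x ^ d.p) +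
        ENNReal.ofReal (K ^ d.p) * ENNReal.ofReal (d.mu x ^ d.p)) ∂d.P 0 g := by
        refine lintegral_mono fun x => ?_
        rw [abs_mul, Real.mul_rpow (abs_nonneg _) (abs_nonneg _), abs_of_pos (Real.exp_pos _),
          ← Real.exp_mul, mul_comm (-(d.γ * c)), mul_comm,
          ENNReal.ofReal_mul (Real.exp_pos _).le, ← ENNReal.ofReal_mul hK0,
          ← ENNReal.ofReal_add (Real.rpow_nonneg (d.pi_nonneg x) _)
            (mul_nonneg hK0 (Real.rpow_nonneg (d.mu_nonneg x) _))]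
        exact mul_le_mul_right (ENNReal.ofReal_le_ofReal
          (PfDeg_pow (d.pi_nonneg x) (d.mu_nonneg x) h0 hK hp)) _
    _ = ee (d.p * -(d.γ * c)) * (∫⁻ x, ENNReal.ofReal (d.pi x ^ d.p) ∂d.P 0 g +
        ENNReal.ofReal (K ^ d.p) * ∫⁻ x, ENNReal.ofReal (d.mu x ^ d.p) ∂d.P 0 g) := by
        rw [lintegral_const_mul' _ _ (ee_ne_top _), lintegral_add_left m1,
          lintegral_const_mul _ m2]
    _ ≤ ee (d.p * -(d.γ * c)) * (d.C * ee (d.p * d.γ * g 0) * d.V g +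
        ENNReal.ofReal (K ^ d.p) * (d.C * ee (d.p * d.γ * g 0) * d.V g)) := by
        gcongr
        · exact d.K_pi g
        · exact d.K_mu g
    _ = _ := by ring

theorem PfDeg_four (k : ℕ) : (4 : ℝ≥0∞) ^ k = ee (2 * (k * Real.log 2)) := by
  have e : Real.exp (2 * (k * Real.log 2)) = 4 ^ k := by
    rw [show 2 * (k * Real.log 2) = k * (2 * Real.log 2) by ring, Real.exp_nat_mul,
      show 2 * Real.log 2 = Real.log 2 + Real.log 2 by ring, Real.exp_add,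
      Real.exp_log two_pos]
    norm_num
  rw [ee, e, ENNReal.ofReal_pow (by norm_num)]
  norm_num

/-- the sum of the moments of the children is small for large depth -/
theorem PfDeg_sum (K R0 τ ε : ℝ) (hτ : 0 < τ) (hε : 0 < ε) : ∃ k : ℕ, ∀ κ c : ℝ, 0 ≤ κ → κ ≤ K →
    ∀ u ∈ d.Gd R0, (ENNReal.ofReal τ)⁻¹ * ∑ j, ∫⁻ η, ∫⁻ x,
      ENNReal.ofReal (|(d.pi x - κ * d.mu x) * Real.exp (-(d.γ * c))| ^ d.p)
        ∂d.P 0 (d.kid k j (cst c + u + η)) ∂d.lay k ≤ ENNReal.ofReal ε := by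
  obtain ⟨B, hB⟩ := d.wt_kid (d.p * d.γ)
  have hs : 0 < d.p * d.γ := mul_pos (by linarith [d.one_lt]) d.γ_pos
  have hz : 0 < (d.p * d.γ * d.Q - (d.p * d.γ) ^ 2 / 2 - 2) * Real.log 2 :=
    mul_pos (by linarith [d.zp]) (Real.log_pos one_lt_two)
  have hE : (1 + ENNReal.ofReal (K ^ d.p)) * d.C ≠ ∞ :=
    ENNReal.mul_ne_top (ENNReal.add_ne_top.2 ⟨ENNReal.one_ne_top, ENNReal.ofReal_ne_top⟩)
      ENNReal.coe_ne_top
  have hD : (ENNReal.ofReal τ)⁻¹ * ((1 + ENNReal.ofReal (K ^ d.p)) * d.C) * B *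
      ee (d.p * d.γ * R0) * ENNReal.ofReal R0 ^ (|d.p * d.γ| + 1) ≠ ∞ :=
    ENNReal.mul_ne_top (ENNReal.mul_ne_top (ENNReal.mul_ne_top (ENNReal.mul_ne_top
      (ENNReal.inv_ne_top.2 (ENNReal.ofReal_pos.2 hτ).ne') hE) ENNReal.coe_ne_top) (ee_ne_top _))
      (ENNReal.rpow_ne_top_of_nonneg (by positivity) ENNReal.ofReal_ne_top)
  obtain ⟨k, hk⟩ := (tendsto_natCast_atTop_atTop.eventually (PfDeg_small hD hz hε)).exists
  refine ⟨k, fun κ c h0 hK u hu => le_trans ?_ hk⟩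
  have key : ∀ j : Ix k, ∫⁻ η, ∫⁻ x,
      ENNReal.ofReal (|(d.pi x - κ * d.mu x) * Real.exp (-(d.γ * c))| ^ d.p)
        ∂d.P 0 (d.kid k j (cst c + u + η)) ∂d.lay k ≤
      (1 + ENNReal.ofReal (K ^ d.p)) * d.C * B * ee (d.p * d.γ * R0) *
        ENNReal.ofReal R0 ^ (|d.p * d.γ| + 1) *
        ee (((d.p * d.γ) ^ 2 / 2 - d.p * d.γ * d.Q) * (k * Real.log 2)) := by
    intro j
    refine (lintegral_mono fun η => PfDeg_mom d h0 hK c _).trans ?_
    rw [lintegral_const_mul' _ _ (by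
      rw [mul_assoc]; exact ENNReal.mul_ne_top (ee_ne_top _) hE)]
    have e1 : ee (d.p * -(d.γ * c)) * ee (d.p * d.γ * (cst c + u) 0) ≤ ee (d.p * d.γ * R0) := by
      rw [← ee_add]
      refine ee_mono ?_
      have := (abs_le.1 hu.1).2
      simp only [ContinuousMap.add_apply, cst_apply]
      nlinarith
    have e2 : d.V (cst c + u) ^ (|d.p * d.γ| + 1) ≤ ENNReal.ofReal R0 ^ (|d.p * d.γ| + 1) := by
      rw [d.V_cst_add]
      exact ENNReal.rpow_le_rpow hu.2 (by positivity)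
    calc _ ≤ ee (d.p * -(d.γ * c)) * (1 + ENNReal.ofReal (K ^ d.p)) * d.C *
          (B * ee (d.p * d.γ * (cst c + u) 0) *
            ee (((d.p * d.γ) ^ 2 / 2 - d.p * d.γ * d.Q) * (k * Real.log 2)) *
            d.V (cst c + u) ^ (|d.p * d.γ| + 1)) := mul_le_mul_right (hB k j _) _
      _ = (1 + ENNReal.ofReal (K ^ d.p)) * d.C * B *
          (ee (d.p * -(d.γ * c)) * ee (d.p * d.γ * (cst c + u) 0)) *
          d.V (cst c + u) ^ (|d.p * d.γ| + 1) *
          ee (((d.p * d.γ) ^ 2 / 2 - d.p * d.γ * d.Q) * (k * Real.log 2)) := by ring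
      _ ≤ _ := by gcongr
  refine (mul_le_mul_right (Finset.sum_le_sum fun j _ => key j) _).trans (le_of_eq ?_)
  rw [sum_const_Ix', PfDeg_four,
    show -((d.p * d.γ * d.Q - (d.p * d.γ) ^ 2 / 2 - 2) * Real.log 2) * (k : ℝ) =
      2 * (k * Real.log 2) + ((d.p * d.γ) ^ 2 / 2 - d.p * d.γ * d.Q) * (k * Real.log 2) by ring,
    ee_add]
  ring

theorem PfDeg_tau {δ ε : ℝ} (hδ : 0 < δ) (hε : 0 < ε) :
    ∃ τ : ℝ, 0 < τ ∧ 16 * (√τ + 2 * τ) / δ ≤ ε := by
  obtain ⟨s, h0, h1, h2⟩ : ∃ s : ℝ, 0 < s ∧ s ≤ 1 / 2 ∧ s ≤ ε * δ / 32 :=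
    ⟨min (1 / 2) (ε * δ / 32), by positivity, min_le_left _ _, min_le_right _ _⟩
  refine ⟨s ^ 2, by positivity, ?_⟩
  rw [Real.sqrt_sq h0.le, div_le_iff₀ hδ]
  nlinarith

theorem deg_of (h1 : d.LLN) (h2 : d.Tight) (h3 : d.Kap) (h4 : d.KapB) (h5 : d.LocS) :
    d.Deg := by
  intro R0 η hη
  obtain ⟨K, hK⟩ := h4
  have hδ : 0 < η / 2 := by positivity
  have hε : 0 < η / 4 := by positivity
  obtain ⟨τ, hτ, hτ'⟩ := PfDeg_tau hδ hε
  obtain ⟨k, hk⟩ := PfDeg_sum d K R0 τ (η / 4) hτ hε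
  obtain ⟨R1, hR1⟩ := h2 k R0 (η / 4) hε
  filter_upwards [hK, h3 R1 (η / 2 / 4 ^ k) (by positivity), PfDeg_loc d h5 k R0 (η / 4) hε]
    with c hc hkap hloc u hu
  have hF : Measurable fun x => (d.pi x - d.kap c * d.mu x) * Real.exp (-(d.γ * c)) :=
    (d.pi_meas.sub (d.mu_meas.const_mul _)).mul_const _
  have hee : Real.exp (d.γ * c) * Real.exp (-(d.γ * c)) = 1 := by
    rw [← Real.exp_add, add_neg_cancel, Real.exp_zero]
  have hpos := Real.exp_pos (-(d.γ * c))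
  have e1 := h1 k (cst c + u) _ (η / 2) τ hF hδ hτ
  have e2 := hk (d.kap c) c (by linarith [hc.1]) hc.2 u hu
  have e3 : d.lay k {ξ | ∃ j, η / 2 / 4 ^ k <
      |∫ x, (d.pi x - d.kap c * d.mu x) * Real.exp (-(d.γ * c))
        ∂d.P 0 (d.kid k j (cst c + u + ξ))|} ≤ ENNReal.ofReal (η / 4) := by
    refine le_trans (measure_mono ?_) (hR1 u hu)
    rintro ξ ⟨j, hj⟩
    refine ⟨j, fun hG => absurd hj (not_lt.2 ?_)⟩
    rw [d.kid_cst_add, integral_mul_const, abs_mul, abs_of_pos hpos]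
    refine (mul_le_mul_of_nonneg_right (hkap _ hG) hpos.le).trans (le_of_eq ?_)
    rw [mul_assoc, hee, mul_one]
  have e4 : d.P 0 (cst c + u) {x | η * Real.exp (d.γ * c) < |d.pi x - d.kap c * d.mu x|} ≤
      d.P 0 (cst c + u) ((d.allLoc k)ᶜ ∪ {x | 2 * (η / 2) < |∑ j, (d.pi (d.ch k j x) -
        d.kap c * d.mu (d.ch k j x)) * Real.exp (-(d.γ * c))|}) := by
    refine measure_mono_ae ?_
    filter_upwards [d.sub k (cst c + u), d.mu_add k (cst c + u)] with x hs hm hx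
    by_cases hl : x ∈ d.allLoc k
    · refine Or.inr ?_
      have hx' : η * Real.exp (d.γ * c) < |d.pi x - d.kap c * d.mu x| := hx
      show 2 * (η / 2) < |_|
      rw [← Finset.sum_mul, Finset.sum_sub_distrib, ← Finset.mul_sum, ← hm, ← (hs hl.1 hl.2).2,
        abs_mul, abs_of_pos hpos]
      have := mul_lt_mul_of_pos_right hx' hpos
      rw [mul_assoc, hee] at this
      linarith
    · exact Or.inl hl
  refine e4.trans ((measure_union_le _ _).trans ?_)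
  calc _ ≤ ENNReal.ofReal (η / 4) + (ENNReal.ofReal (η / 4) + ENNReal.ofReal (η / 4) +
        ENNReal.ofReal (η / 4)) :=
        add_le_add (hloc u hu) (e1.trans (add_le_add (add_le_add
          (ENNReal.ofReal_le_ofReal hτ') e2) e3))
    _ = ENNReal.ofReal η := by
        rw [← ENNReal.ofReal_add hε.le hε.le, ← ENNReal.ofReal_add (by positivity) hε.le,
          ← ENNReal.ofReal_add hε.le (by positivity)]
        congr 1
        ring

theorem PfDeg_rf (h4 : d.RefT) {L : Measure (Fn × ℝ)} (hL : d.Adm L) (B : ℝ → Set X)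
    (h : ∀ R0 ε : ℝ, 0 < ε → ∀ᶠ c in atTop, ∀ u ∈ d.Gd R0,
      d.P 0 (cst c + u) (B c) ≤ ENNReal.ofReal ε) :
    Tendsto (fun c => d.rf L c (B c)) atTop (𝓝 0) := by
  rw [ENNReal.tendsto_nhds_zero]
  intro ε hε
  rcases eq_or_ne ε ∞ with rfl | hne
  · exact Eventually.of_forall fun _ => le_top
  have h0 : 0 < ε.toReal / 2 := half_pos (ENNReal.toReal_pos hε.ne' hne)
  obtain ⟨R0, hR⟩ := h4 L hL _ h0
  filter_upwards [h R0 _ h0] with c hc
  refine (hR R0 le_rfl c _ _ hc).trans (le_of_eq ?_)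
  rw [← ENNReal.ofReal_add h0.le h0.le, add_halves, ENNReal.ofReal_toReal hne]

theorem PfDeg_union {L : Measure (Fn × ℝ)} (hL : d.Adm L) (c : ℝ) {A B : Set X}
    (hA : MeasurableSet A) (hB : MeasurableSet B) :
    d.rf L c (A ∪ B) ≤ d.rf L c A + d.rf L c B := by
  rw [d.rf_eq hL c hA, d.rf_eq hL c hB, d.rf_eq hL c (hA.union hB)]
  exact measure_union_le _ _

theorem out_of (h1 : d.Nu) (h2 : d.Deg) (h3 : d.KapB) (h4 : d.RefT) (h5 : d.LocS) :
    d.Out := by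
  obtain ⟨A, hA, hN⟩ := h1
  obtain ⟨K, hK⟩ := h3
  refine ⟨A, fun c => max (1 / 2) (min (d.kap c) (max K (1 / 2))), max K (1 / 2), hA,
    fun c => ⟨le_max_left _ _, max_le (le_max_right _ _) (min_le_right _ _)⟩, fun L hL η hη => ?_⟩
  have t1 := PfDeg_rf d h4 hL (fun _ => (d.allLoc 0)ᶜ) fun R0 ε hε => PfDeg_loc d h5 0 R0 ε hε
  have t2 := hN L hL η hη
  have t3 := PfDeg_rf d h4 hL
    (fun c => {x | η * Real.exp (d.γ * c) < |d.pi x - d.kap c * d.mu x|}) fun R0 ε hε => by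
      filter_upwards [h2 R0 (min η ε) (lt_min hη hε)] with c hc u hu
      refine le_trans (measure_mono fun x hx => ?_)
        ((hc u hu).trans (ENNReal.ofReal_le_ofReal (min_le_right _ _)))
      exact lt_of_le_of_lt
        (mul_le_mul_of_nonneg_right (min_le_left _ _) (Real.exp_pos _).le) hx
  have t := (t1.add t2).add t3
  rw [add_zero, add_zero] at t
  refine tendsto_of_tendsto_of_tendsto_of_le_of_le' tendsto_const_nhds t
    (Eventually.of_forall fun _ => zero_le) ?_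
  filter_upwards [hK] with c hc
  have m0 : ∀ (q : ℂ) (r : ℝ), MeasurableSet {x | η < |d.nu q x - r|} := fun q r =>
    measurableSet_lt measurable_const ((d.nu_meas q).sub_const r).abs
  have m1 := (d.measurableSet_allLoc 0).compl
  have m2 : MeasurableSet {x | η < |d.nu 1 x - A c| ∨ η < |d.nu Complex.I x - A c| ∨
      η < |d.nu (1 + Complex.I) x - 2 * A c|} := (m0 _ _).union ((m0 _ _).union (m0 _ _))
  have m3 : MeasurableSet {x | η * Real.exp (d.γ * c) < |d.pi x - d.kap c * d.mu x|} :=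
    measurableSet_lt measurable_const (d.pi_meas.sub (d.mu_meas.const_mul _)).abs
  refine le_trans (d.rf_mono L c ?_) ((PfDeg_union d hL c (m1.union m2) m3).trans
    (add_le_add_left (PfDeg_union d hL c m1 m2) _))
  have e : max (1 / 2) (min (d.kap c) (max K (1 / 2))) = d.kap c := by
    rw [min_eq_left (hc.2.trans (le_max_left _ _)), max_eq_right hc.1]
  rintro x (hx | hx | hx | hx | hx)
  · exact Or.inl (Or.inl fun k => hx k.1)
  · exact Or.inl (Or.inr (Or.inl hx))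
  · exact Or.inl (Or.inr (Or.inr (Or.inl hx)))
  · exact Or.inl (Or.inr (Or.inr (Or.inr hx)))
  · refine Or.inr ?_
    simp only [e] at hx
    exact hx

end Pool.Agent.Lib.MP_0d9445_pr.HO
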