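import Pool.Agent.Lib.MP_0d9445_pr.HO.Basic

/-! Module HO: the degree law in the mean. -/

open MeasureTheory ProbabilityTheory Set Filter Topology
open scoped ENNReal NNReal

noncomputable section

namespace Pool.Agent.Lib.MP_0d9445_pr.HO

variable {X : Type} [MeasurableSpace X] (d : Data X)

private theorem pfKap_trunc (P : Measure X) {F : X → ℝ} (hF : Measurable F) (h0 : ∀ x, 0 ≤ F x)
    {T p M β : ℝ} (hT : 0 < T) (hp : 1 ≤ p) (hM : 0 ≤ M) (hβ : 0 ≤ β) (B : Set X)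
    (h1 : ∫⁻ x, ENNReal.ofReal (F x ^ p) ∂P ≤ ENNReal.ofReal M) (h2 : P B ≤ ENNReal.ofReal β) :
    ∫ x in B, F x ∂P ≤ T * β + M / T ^ (p - 1) := by
  have hT' : 0 < T ^ (p - 1) := Real.rpow_pos_of_pos hT _
  rw [integral_eq_lintegral_of_nonneg_ae (ae_of_all _ h0) hF.aestronglyMeasurable]
  refine ENNReal.toReal_le_of_le_ofReal (by positivity) ?_
  refine (setLIntegral_le_trunc P hF h0 hT hp B).trans ?_
  rw [ENNReal.ofReal_add (by positivity) (by positivity), ENNReal.ofReal_mul hT.le,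
    ENNReal.ofReal_div_of_pos hT']
  gcongr

private theorem pfKap_pow {E p : ℝ} (hE : 0 < E) : E ^ p = E * E ^ (p - 1) := by
  rw [Real.rpow_sub_one hE.ne']
  field_simp

private theorem pfKap_small {p K η : ℝ} (hp : 1 < p) (hK : 0 ≤ K) (hη : 0 < η) :
    ∃ β : ℝ, 0 < β ∧ ∀ (P : Measure X) (F : X → ℝ) (E : ℝ) (B : Set X), Measurable F →
      (∀ x, 0 ≤ F x) → 0 < E → ∫⁻ x, ENNReal.ofReal (F x ^ p) ∂P ≤ ENNReal.ofReal (K * E ^ p) →
      P B ≤ ENNReal.ofReal β → ∫ x in B, F x ∂P ≤ η * E := by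
  have hA : 0 < 2 * K / η + 1 := by positivity
  set M : ℝ := (2 * K / η + 1) ^ (p - 1)⁻¹ with hM
  have hM0 : 0 < M := Real.rpow_pos_of_pos hA _
  have hMp : M ^ (p - 1) = 2 * K / η + 1 := Real.rpow_inv_rpow hA.le (by linarith)
  refine ⟨η / (2 * M), by positivity, fun P F E B hF h0 hE h1 h2 => ?_⟩
  have hEp : 0 < E ^ (p - 1) := Real.rpow_pos_of_pos hE _
  have h3 := pfKap_trunc P hF h0 (T := M * E) (by positivity) hp.le
    (by positivity) (by positivity) B h1 h2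
  refine h3.trans ?_
  rw [Real.mul_rpow hM0.le hE.le, hMp, pfKap_pow hE]
  have e1 : M * E * (η / (2 * M)) = η / 2 * E := by field_simp
  have e2 : K * (E * E ^ (p - 1)) / ((2 * K / η + 1) * E ^ (p - 1)) =
      K / (2 * K / η + 1) * E := by field_simp
  have e3 : K / (2 * K / η + 1) ≤ η / 2 := by
    rw [div_le_iff₀ hA]
    have : η / 2 * (2 * K / η + 1) = K + η / 2 := by field_simp
    rw [this]
    linarith
  rw [e1, e2]
  nlinarith

private theorem pfKap_int (P : Measure X) [IsProbabilityMeasure P] {F : X → ℝ}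
    (hF : Measurable F) (h0 : ∀ x, 0 ≤ F x) {p K E : ℝ} (hp : 1 ≤ p) (hK : 0 ≤ K) (hE : 0 < E)
    (h1 : ∫⁻ x, ENNReal.ofReal (F x ^ p) ∂P ≤ ENNReal.ofReal (K * E ^ p)) :
    ∫ x, F x ∂P ≤ (1 + K) * E := by
  have hEp : 0 < E ^ (p - 1) := Real.rpow_pos_of_pos hE _
  have h3 := pfKap_trunc P hF h0 (T := E) (β := 1) hE hp (by positivity) zero_le_one univ h1
    (by simp)
  rw [Measure.restrict_univ, pfKap_pow hE] at h3
  refine h3.trans (le_of_eq ?_)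
  field_simp

private theorem pfKap_bound (B : ℝ≥0∞) (hB : B ≠ ∞) (s θ R0 : ℝ) (hθ : 0 ≤ θ) :
    ∃ K : ℝ, 0 ≤ K ∧ ∀ c, ∀ u ∈ d.Gd R0, B * ee (s * (cst c + u) 0) * d.V (cst c + u) ^ θ ≤
      ENNReal.ofReal (K * Real.exp (s * c)) := by
  refine ⟨B.toReal * Real.exp (|s| * |R0|) * |R0| ^ θ, by positivity, fun c u hu => ?_⟩
  have hR : 0 ≤ R0 := zero_le_one.trans (d.one_le_of_Gd hu)
  rw [abs_of_nonneg hR, d.V_cst_add]
  have h1 : s * (cst c + u) 0 ≤ |s| * R0 + s * c := by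
    have : s * u 0 ≤ |s| * R0 := by
      refine (le_abs_self _).trans ?_
      rw [abs_mul]
      exact mul_le_mul_of_nonneg_left hu.1 (abs_nonneg _)
    simp only [ContinuousMap.add_apply, cst_apply]
    linarith
  have h2 : d.V u ^ θ ≤ ENNReal.ofReal (R0 ^ θ) := by
    rw [← ENNReal.ofReal_rpow_of_nonneg hR hθ]
    exact ENNReal.rpow_le_rpow hu.2 hθ
  calc B * ee (s * (cst c + u) 0) * d.V u ^ θ
      ≤ B * ee (|s| * R0 + s * c) * ENNReal.ofReal (R0 ^ θ) := by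
        gcongr
        exact ee_mono h1
    _ = _ := by
        rw [ee, ← ENNReal.ofReal_toReal hB, ← ENNReal.ofReal_mul ENNReal.toReal_nonneg,
          ← ENNReal.ofReal_mul (by positivity), ENNReal.toReal_ofReal ENNReal.toReal_nonneg,
          Real.exp_add]
        congr 1
        ring

private theorem pfKap_exp (c : ℝ) : Real.exp (d.p * d.γ * c) = Real.exp (d.γ * c) ^ d.p := by
  rw [← Real.exp_mul]
  congr 1
  ring

private theorem pfKap_mom {F : X → ℝ}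
    (h : ∀ g, ∫⁻ x, ENNReal.ofReal (F x ^ d.p) ∂d.P 0 g ≤ d.C * ee (d.p * d.γ * g 0) * d.V g)
    (R0 : ℝ) : ∃ K : ℝ, 0 ≤ K ∧ ∀ c, ∀ u ∈ d.Gd R0,
      ∫⁻ x, ENNReal.ofReal (F x ^ d.p) ∂d.P 0 (cst c + u) ≤
        ENNReal.ofReal (K * Real.exp (d.γ * c) ^ d.p) := by
  obtain ⟨K, hK, h1⟩ := pfKap_bound d d.C ENNReal.coe_ne_top (d.p * d.γ) 1 R0 zero_le_one
  refine ⟨K, hK, fun c u hu => (h _).trans ?_⟩
  have := h1 c u hu
  rwa [ENNReal.rpow_one, pfKap_exp] at this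

private theorem pfKap_momch {F : X → ℝ} (hF : Measurable F)
    (h : ∀ g, ∫⁻ x, ENNReal.ofReal (F x ^ d.p) ∂d.P 0 g ≤ d.C * ee (d.p * d.γ * g 0) * d.V g)
    (m : ℕ) (R0 : ℝ) : ∃ K : ℝ, 0 ≤ K ∧ ∀ (j : Ix m) (c : ℝ), ∀ u ∈ d.Gd R0,
      ∫⁻ x, ENNReal.ofReal (F (d.ch m j x) ^ d.p) ∂d.P 0 (cst c + u) ≤
        ENNReal.ofReal (K * Real.exp (d.γ * c) ^ d.p) := by
  obtain ⟨B, hB⟩ := d.wt_kid (d.p * d.γ)
  obtain ⟨K, hK, h1⟩ := pfKap_bound d
    (d.C * B * ee (((d.p * d.γ) ^ 2 / 2 - d.p * d.γ * d.Q) * (m * Real.log 2)))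
    (ENNReal.mul_ne_top (ENNReal.mul_ne_top ENNReal.coe_ne_top ENNReal.coe_ne_top) (ee_ne_top _))
    (d.p * d.γ) (|d.p * d.γ| + 1) R0 (by positivity)
  refine ⟨K, hK, fun j c u hu => ?_⟩
  have h2 := h1 c u hu
  rw [pfKap_exp] at h2
  refine le_trans ?_ h2
  rw [d.lintegral_ch m j _ (F := fun x => ENNReal.ofReal (F x ^ d.p))
    (hF.pow_const _).ennreal_ofReal]
  calc _ ≤ ∫⁻ η, d.C * (ee (d.p * d.γ * d.kid m j (cst c + u + η) 0) *
        d.V (d.kid m j (cst c + u + η))) ∂d.lay m := by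
        refine lintegral_mono fun η => ?_
        rw [← mul_assoc]
        exact h _
    _ = d.C * ∫⁻ η, ee (d.p * d.γ * d.kid m j (cst c + u + η) 0) *
        d.V (d.kid m j (cst c + u + η)) ∂d.lay m :=
        lintegral_const_mul' _ _ ENNReal.coe_ne_top
    _ ≤ d.C * (B * ee (d.p * d.γ * (cst c + u) 0) *
        ee (((d.p * d.γ) ^ 2 / 2 - d.p * d.γ * d.Q) * (m * Real.log 2)) *
          d.V (cst c + u) ^ (|d.p * d.γ| + 1)) := by
        gcongr
        exact hB m j _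
    _ = _ := by ring

private theorem pfKap_ev (K : ℝ) {β : ℝ} (hβ : 0 < β) :
    ∀ᶠ c : ℝ in atTop, K * Real.exp (-d.a * c) ≤ β := by
  have h1 : Tendsto (fun c : ℝ => -d.a * c) atTop atBot :=
    tendsto_id.const_mul_atTop_of_neg (neg_lt_zero.mpr d.a_pos)
  have h2 := (Real.tendsto_exp_atBot.comp h1).const_mul K
  rw [mul_zero] at h2
  exact h2.eventually (ge_mem_nhds hβ)

private theorem pfKap_integrable (P : Measure X) [IsProbabilityMeasure P] {F : X → ℝ}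
    (hF : Measurable F) (h0 : ∀ x, 0 ≤ F x) {M : ℝ}
    (h : ∫⁻ x, ENNReal.ofReal (F x ^ d.p) ∂P ≤ ENNReal.ofReal M) : Integrable F P :=
  integrable_of_rpow P hF h0 d.one_lt.le (ne_top_of_le_ne_top ENNReal.ofReal_ne_top h)

private theorem pfKap_mu_int (c : ℝ) : Integrable d.mu (d.P 0 (cst c)) := by
  obtain ⟨K, -, h⟩ := pfKap_mom d d.K_mu 1
  have := h c 0 (d.zero_mem_Gd le_rfl)
  rw [add_zero] at this
  exact pfKap_integrable d _ d.mu_meas d.mu_nonneg this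

private theorem pfKap_mu_low (c : ℝ) :
    d.c0 * Real.exp (d.γ * c) ≤ ∫ x, d.mu x ∂d.P 0 (cst c) := by
  have h := d.mu_low c
  rw [← ofReal_integral_eq_lintegral_ofReal (pfKap_mu_int d c) (ae_of_all _ d.mu_nonneg), ee,
    ← ENNReal.ofReal_mul d.c0_pos.le] at h
  exact (ENNReal.ofReal_le_ofReal_iff (integral_nonneg d.mu_nonneg)).mp h

private theorem pfKap_cst {F : X → ℝ} (hF : Measurable F) (h0 : ∀ x, 0 ≤ F x) (m : ℕ) (j : Ix m)
    (c : ℝ) : ∫ x, F (d.ch m j x) ∂d.P 0 (cst c) = ∫ x, F (d.ch m 0 x) ∂d.P 0 (cst c) := by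
  rw [integral_eq_lintegral_of_nonneg_ae (ae_of_all _ fun x => h0 _)
      (hF.comp (d.ch_meas m j)).aestronglyMeasurable,
    integral_eq_lintegral_of_nonneg_ae (ae_of_all _ fun x => h0 _)
      (hF.comp (d.ch_meas m 0)).aestronglyMeasurable,
    d.lintegral_ch_cst m j c (F := fun x => ENNReal.ofReal (F x)) hF.ennreal_ofReal]

private theorem pfKap_mu_add (m : ℕ) (R0 c : ℝ) {u : Fn} (hu : u ∈ d.Gd R0) :
    ∫ x, d.mu x ∂d.P 0 (cst c + u) = ∑ j, ∫ x, d.mu (d.ch m j x) ∂d.P 0 (cst c + u) := by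
  obtain ⟨K, -, h⟩ := pfKap_momch d d.mu_meas d.K_mu m R0
  rw [integral_congr_ae (d.mu_add m _)]
  exact integral_finsetSum _ fun j _ => pfKap_integrable d _ (d.mu_meas.comp (d.ch_meas m j))
    (fun x => d.mu_nonneg _) (h j c u hu)

theorem kapB : d.KapB := by
  obtain ⟨K, hK, h1⟩ := pfKap_mom d d.K_pi 1
  obtain ⟨K2, -, h2⟩ := pfKap_bound d d.C ENNReal.coe_ne_top (-d.a) 1 1 zero_le_one
  obtain ⟨β, hβ, h3⟩ := pfKap_small (X := X) d.one_lt (K := 2 * d.C) (η := d.c0 / 2)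
    (by positivity) (half_pos d.c0_pos)
  refine ⟨(1 + K) / d.c0, ?_⟩
  filter_upwards [pfKap_ev d K2 hβ, eventually_ge_atTop (0 : ℝ)] with c hc hc0
  have hE : 0 < Real.exp (d.γ * c) := Real.exp_pos _
  have hc0' := d.c0_pos
  have a1 := h1 c 0 (d.zero_mem_Gd le_rfl)
  have a2 := h2 c 0 (d.zero_mem_Gd le_rfl)
  rw [add_zero] at a1
  rw [add_zero, ENNReal.rpow_one] at a2
  have a3 : ∫⁻ x, ENNReal.ofReal (d.N x ^ d.p) ∂d.P 0 (cst c) ≤
      ENNReal.ofReal (2 * d.C * Real.exp (d.γ * c) ^ d.p) := by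
    refine (d.K_N c).trans ?_
    have h4 : (1 : ℝ≥0∞) ≤ ee (d.p * d.γ * c) := by
      rw [← ee_zero]
      exact ee_mono (mul_nonneg (mul_nonneg (zero_le_one.trans d.one_lt.le) d.γ_pos.le) hc0)
    calc (d.C : ℝ≥0∞) * (1 + ee (d.p * d.γ * c))
        ≤ d.C * (ee (d.p * d.γ * c) + ee (d.p * d.γ * c)) := by gcongr
      _ = _ := by
        rw [← pfKap_exp, ee, ← ENNReal.ofReal_add (Real.exp_pos _).le (Real.exp_pos _).le,
          ← ENNReal.ofReal_coe_nnreal, ← ENNReal.ofReal_mul (NNReal.coe_nonneg d.C)]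
        congr 1
        ring
  have ipi := pfKap_integrable d _ d.pi_meas d.pi_nonneg a1
  have iN := pfKap_integrable d _ d.N_meas d.N_nonneg a3
  have b1 := pfKap_int _ d.pi_meas d.pi_nonneg d.one_lt.le hK hE a1
  have b2 := pfKap_mu_low d c
  have b3 : ∫ x in d.Locᶜ, d.N x ∂d.P 0 (cst c) ≤ d.c0 / 2 * Real.exp (d.γ * c) :=
    h3 _ _ _ _ d.N_meas d.N_nonneg hE a3
      (((d.K_loc _).trans a2).trans (ENNReal.ofReal_le_ofReal hc))
  have b4 : ∫ x, d.mu x ∂d.P 0 (cst c) ≤ ∫ x, d.N x ∂d.P 0 (cst c) := by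
    have h := d.mu_le_N c
    rw [← ofReal_integral_eq_lintegral_ofReal (pfKap_mu_int d c) (ae_of_all _ d.mu_nonneg),
      ← ofReal_integral_eq_lintegral_ofReal iN (ae_of_all _ d.N_nonneg)] at h
    exact (ENNReal.ofReal_le_ofReal_iff (integral_nonneg d.N_nonneg)).mp h
  have b5 : ∫ x in d.Loc, d.N x ∂d.P 0 (cst c) ≤ ∫ x, d.pi x ∂d.P 0 (cst c) := by
    refine le_trans ?_ (setIntegral_le_integral (s := d.Loc) ipi (ae_of_all _ d.pi_nonneg))
    exact setIntegral_mono_on_ae iN.integrableOn ipi.integrableOn d.Loc_meas (d.N_le _)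
  have b6 := integral_add_compl d.Loc_meas iN
  have hmu : 0 < ∫ x, d.mu x ∂d.P 0 (cst c) := lt_of_lt_of_le (by positivity) b2
  unfold Data.kap
  constructor
  · rw [le_div_iff₀ hmu]
    linarith
  · rw [div_le_div_iff₀ hmu hc0']
    calc (∫ x, d.pi x ∂d.P 0 (cst c)) * d.c0 ≤ (1 + K) * Real.exp (d.γ * c) * d.c0 := by gcongr
      _ = (1 + K) * (d.c0 * Real.exp (d.γ * c)) := by ring
      _ ≤ _ := by gcongr

theorem piAdd_of (h : d.LocS) : d.PiAdd := by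
  intro m R0 η hη
  obtain ⟨B, hB⟩ := h m
  obtain ⟨K1, hK1, h1⟩ := pfKap_mom d d.K_pi R0
  obtain ⟨K2, hK2, h2⟩ := pfKap_momch d d.pi_meas d.K_pi m R0
  obtain ⟨K3, -, h3⟩ := pfKap_bound d B ENNReal.coe_ne_top (-d.a) (d.a + 1) R0
    (by linarith [d.a_pos])
  obtain ⟨β1, hβ1, s1⟩ := pfKap_small (X := X) d.one_lt hK1 hη
  obtain ⟨β2, hβ2, s2⟩ := pfKap_small (X := X) d.one_lt hK2 (η := η / 4 ^ m) (by positivity)
  filter_upwards [pfKap_ev d K3 hβ1, pfKap_ev d K3 hβ2] with c hc1 hc2 u hu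
  have hE : 0 < Real.exp (d.γ * c) := Real.exp_pos _
  have hA := d.measurableSet_allLoc m
  have a0 := (hB _).trans (h3 c u hu)
  have i1 := pfKap_integrable d _ d.pi_meas d.pi_nonneg (h1 c u hu)
  have i2 : ∀ j, Integrable (fun x => d.pi (d.ch m j x)) (d.P 0 (cst c + u)) := fun j =>
    pfKap_integrable d _ (d.pi_meas.comp (d.ch_meas m j)) (fun x => d.pi_nonneg _) (h2 j c u hu)
  have b1 := s1 _ _ _ _ d.pi_meas d.pi_nonneg hE (h1 c u hu)
    (a0.trans (ENNReal.ofReal_le_ofReal hc1))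
  have b2 : ∑ j, ∫ x in (d.allLoc m)ᶜ, d.pi (d.ch m j x) ∂d.P 0 (cst c + u) ≤
      η * Real.exp (d.γ * c) := by
    refine (Finset.sum_le_sum fun j _ => s2 _ (fun x => d.pi (d.ch m j x)) _ _
      (d.pi_meas.comp (d.ch_meas m j)) (fun x => d.pi_nonneg _) hE (h2 j c u hu)
      (a0.trans (ENNReal.ofReal_le_ofReal hc2))).trans (le_of_eq ?_)
    rw [sum_const_Ix]
    field_simp
  have b3 : 0 ≤ ∫ x in (d.allLoc m)ᶜ, d.pi x ∂d.P 0 (cst c + u) := integral_nonneg d.pi_nonneg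
  have b4 : 0 ≤ ∑ j, ∫ x in (d.allLoc m)ᶜ, d.pi (d.ch m j x) ∂d.P 0 (cst c + u) :=
    Finset.sum_nonneg fun j _ => integral_nonneg fun x => d.pi_nonneg _
  have b5 : ∫ x in d.allLoc m, d.pi x ∂d.P 0 (cst c + u) =
      ∑ j, ∫ x in d.allLoc m, d.pi (d.ch m j x) ∂d.P 0 (cst c + u) := by
    rw [← integral_finsetSum _ fun j _ => (i2 j).integrableOn]
    refine setIntegral_congr_ae hA ?_
    filter_upwards [d.sub m (cst c + u)] with x hx hxA
    exact (hx hxA.1 hxA.2).2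
  have b6 := integral_add_compl hA i1
  have b7 : ∑ j, ∫ x, d.pi (d.ch m j x) ∂d.P 0 (cst c + u) =
      ∑ j, ∫ x in d.allLoc m, d.pi (d.ch m j x) ∂d.P 0 (cst c + u) +
        ∑ j, ∫ x in (d.allLoc m)ᶜ, d.pi (d.ch m j x) ∂d.P 0 (cst c + u) := by
    rw [← Finset.sum_add_distrib]
    exact Finset.sum_congr rfl fun j _ => (integral_add_compl hA (i2 j)).symm
  rw [abs_le]
  constructor <;> linarith

private theorem pfKap_sum {m : ℕ} {f w : Ix m → ℝ} {a δ : ℝ}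
    (h : ∀ j, |f j - w j * a| ≤ δ / 4 ^ m) : |∑ j, f j - (∑ j, w j) * a| ≤ δ := by
  rw [Finset.sum_mul, ← Finset.sum_sub_distrib]
  refine (Finset.abs_sum_le_sum_abs _ _).trans ((Finset.sum_le_sum fun j _ => h j).trans
    (le_of_eq ?_))
  rw [sum_const_Ix]
  field_simp

theorem kap_of (h1 : d.CMg) (h2 : d.PiAdd) (h3 : d.KapB) : d.Kap := by
  intro R0 η hη
  obtain ⟨K, hK⟩ := h3
  set W : ℝ := Real.exp (d.γ * (2 * R0)) with hW
  have hW0 : 0 < W := Real.exp_pos _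
  set ε : ℝ := η / (2 * (1 + |K|)) with hε
  set η1 : ℝ := η / (2 * (1 + W)) with hη1
  have hε0 : 0 < ε := by positivity
  have hη10 : 0 < η1 := by positivity
  obtain ⟨m, hm⟩ := h1 R0 ε hε0
  obtain ⟨K1, -, m1⟩ := pfKap_mom d d.K_pi R0
  obtain ⟨K2, -, m2⟩ := pfKap_mom d d.K_mu R0
  filter_upwards [hK, h2 m R0 η1 hη10, h2 m 1 η1 hη10] with c hc p1 p2 u hu
  have hE : 0 < Real.exp (d.γ * c) := Real.exp_pos _
  have i1 := pfKap_integrable d _ d.pi_meas d.pi_nonneg (m1 c u hu)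
  have i2 := pfKap_integrable d _ d.mu_meas d.mu_nonneg (m2 c u hu)
  rw [integral_sub i1 (i2.const_mul _), integral_const_mul]
  have a1 := p1 u hu
  have a2 := pfKap_sum fun j => hm m le_rfl j c u hu d.pi d.pi_meas d.pi_nonneg d.K_pi
  have a3 := pfKap_sum fun j => hm m le_rfl j c u hu d.mu d.mu_meas d.mu_nonneg d.K_mu
  rw [← pfKap_mu_add d m R0 c hu] at a3
  have a4 := pfKap_mu_add d m 1 c (d.zero_mem_Gd le_rfl)
  have a5 := p2 0 (d.zero_mem_Gd le_rfl)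
  rw [add_zero] at a4 a5
  simp only [pfKap_cst d d.mu_meas d.mu_nonneg m _ c, sum_const_Ix] at a4
  simp only [pfKap_cst d d.pi_meas d.pi_nonneg m _ c, sum_const_Ix] at a5
  have hmu : 0 < ∫ x, d.mu x ∂d.P 0 (cst c) :=
    lt_of_lt_of_le (mul_pos d.c0_pos hE) (pfKap_mu_low d c)
  have a6 : d.kap c * ∫ x, d.mu x ∂d.P 0 (cst c) = ∫ x, d.pi x ∂d.P 0 (cst c) :=
    div_mul_cancel₀ _ hmu.ne'
  rw [a4] at a6
  set w : ℝ := ∑ j, Real.exp (d.γ * u (cor m j)) with hw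
  have hw0 : 0 ≤ w := Finset.sum_nonneg fun j _ => (Real.exp_pos _).le
  have hw1 : w ≤ 4 ^ m * W := by
    rw [← sum_const_Ix]
    refine Finset.sum_le_sum fun j _ => Real.exp_le_exp.mpr ?_
    exact mul_le_mul_of_nonneg_left ((le_abs_self _).trans (d.abs_cor_le hu m j)) d.γ_pos.le
  set E := Real.exp (d.γ * c)
  set κ := d.kap c
  set api := ∫ x, d.pi (d.ch m 0 x) ∂d.P 0 (cst c)
  set amu := ∫ x, d.mu (d.ch m 0 x) ∂d.P 0 (cst c)
  set Ipi := ∫ x, d.pi x ∂d.P 0 (cst c + u)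
  set Imu := ∫ x, d.mu x ∂d.P 0 (cst c + u)
  set S := ∑ j, ∫ x, d.pi (d.ch m j x) ∂d.P 0 (cst c + u)
  have h4 : (0 : ℝ) < 4 ^ m := by positivity
  have b1 : |w * (api - κ * amu)| ≤ W * (η1 * E) := by
    have e : 4 ^ m * |api - κ * amu| ≤ η1 * E := by
      rw [← a6, abs_sub_comm] at a5
      refine le_trans (le_of_eq ?_) a5
      rw [← abs_of_pos h4, ← abs_mul, abs_of_pos h4]
      congr 1
      ring
    rw [abs_mul, abs_of_nonneg hw0]
    calc w * |api - κ * amu| ≤ 4 ^ m * W * |api - κ * amu| := by gcongr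
      _ = W * (4 ^ m * |api - κ * amu|) := by ring
      _ ≤ _ := by gcongr
  have b2 : |κ * (Imu - w * amu)| ≤ |K| * (ε * E) := by
    rw [abs_mul]
    refine mul_le_mul ?_ a3 (abs_nonneg _) (abs_nonneg _)
    rw [abs_of_nonneg (by linarith [hc.1])]
    exact hc.2.trans (le_abs_self _)
  have e1 : Ipi - κ * Imu =
      (Ipi - S) + (S - w * api) + w * (api - κ * amu) - κ * (Imu - w * amu) := by ring
  have e2 : η1 * E + ε * E + W * (η1 * E) + |K| * (ε * E) = η * E := by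
    rw [hε, hη1]
    field_simp
    ring
  rw [e1, ← e2]
  refine (abs_sub _ _).trans (add_le_add ((abs_add_le _ _).trans (add_le_add
    ((abs_add_le _ _).trans (add_le_add a1 a2)) b1)) b2)

end Pool.Agent.Lib.MP_0d9445_pr.HO
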