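import Pool.Agent.Lib.MP_0d9445_pr.HO.Basic

/-! Module HO: law of large numbers over the children. -/

open MeasureTheory ProbabilityTheory Set Filter Topology
open scoped ENNReal NNReal

noncomputable section

namespace Pool.Agent.Lib.MP_0d9445_pr.HO

variable {X : Type} [MeasurableSpace X] (d : Data X)

/-- the residue class of a child -/
def PfLLN_cls (k : ℕ) (j : Ix k) : Fin 4 × Fin 4 :=
  (⟨(j.1 : ℕ) % 4, Nat.mod_lt _ (by norm_num)⟩, ⟨(j.2 : ℕ) % 4, Nat.mod_lt _ (by norm_num)⟩)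

theorem PfLLN_far {k : ℕ} {i j : Ix k} (h : PfLLN_cls k i = PfLLN_cls k j) (hij : i ≠ j) :
    Far i j := by
  have h1 : (i.1 : ℕ) % 4 = (j.1 : ℕ) % 4 := congrArg (fun c => (c.1 : ℕ)) h
  have h2 : (i.2 : ℕ) % 4 = (j.2 : ℕ) % 4 := congrArg (fun c => (c.2 : ℕ)) h
  have h3 : ¬((i.1 : ℕ) = j.1 ∧ (i.2 : ℕ) = j.2) := fun h =>
    hij (Prod.ext (Fin.ext h.1) (Fin.ext h.2))
  unfold Far
  omega

theorem PfLLN_fix (h : FL) (k : ℕ) (g : Fn) {F : X → ℝ} {δ τ : ℝ} (hF : Measurable F)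
    (hδ : 0 < δ) (hτ : 0 < τ)
    (h1 : ∑ j, ∫⁻ x, ENNReal.ofReal (|F x| ^ d.p) ∂d.P 0 (d.kid k j g) ≤ ENNReal.ofReal τ)
    (h2 : ∀ j, |∫ x, F x ∂d.P 0 (d.kid k j g)| ≤ δ / 4 ^ k) :
    d.P k g {x | 2 * δ < |∑ j, F (d.ch k j x)|} ≤ ENNReal.ofReal (16 * (√τ + 2 * τ) / δ) := by
  have hY : ∀ j, Measurable fun x => F (d.ch k j x) := fun j => hF.comp (d.ch_meas k j)
  set Z : Ix k → X → ℝ := fun j x => F (d.ch k j x) - ∫ y, F (d.ch k j y) ∂d.P k g with hZ
  have hZm : ∀ s : Finset (Ix k), Measurable fun x => ENNReal.ofReal |∑ j ∈ s, Z j x| := fun s =>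
    (Finset.measurable_sum _ fun j _ => (hY j).sub_const _).abs.ennreal_ofReal
  have hm : |∑ j, ∫ y, F (d.ch k j y) ∂d.P k g| ≤ δ := by
    refine (Finset.abs_sum_le_sum_abs _ _).trans ((Finset.sum_le_sum (g := fun _ => δ / 4 ^ k)
      fun j _ => ?_).trans_eq ?_)
    · rw [d.integral_ch_level k j g hF]
      exact h2 j
    · rw [sum_const_Ix]
      field_simp
  have hsub : {x | 2 * δ < |∑ j, F (d.ch k j x)|} ⊆
      {x | ENNReal.ofReal δ ≤ ENNReal.ofReal |∑ j, Z j x|} := by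
    intro x (hx : 2 * δ < _)
    refine ENNReal.ofReal_le_ofReal ?_
    rw [hZ, Finset.sum_sub_distrib]
    have := abs_sub_abs_le_abs_sub (∑ j, F (d.ch k j x)) (∑ j, ∫ y, F (d.ch k j y) ∂d.P k g)
    linarith
  have hcl : ∀ c : Fin 4 × Fin 4,
      ∫⁻ x, ENNReal.ofReal |∑ j with PfLLN_cls k j = c, Z j x| ∂d.P k g ≤
        ENNReal.ofReal (√τ + 2 * τ) := by
    intro c
    refine h X (d.P k g) (Ix k) _ (fun j x => F (d.ch k j x)) d.p τ d.one_lt.le d.le_two hτ.le hY
      (fun i hi j hj hij => ?_) ((Finset.sum_le_sum_of_subset (Finset.subset_univ _)).trans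
        (le_of_eq_of_le (Finset.sum_congr rfl fun j _ => ?_) h1))
    · have hi' := (Finset.mem_filter.1 (Finset.mem_coe.1 hi)).2
      have hj' := (Finset.mem_filter.1 (Finset.mem_coe.1 hj)).2
      exact (d.ind k i j g (PfLLN_far (hi'.trans hj'.symm) hij)).comp hF hF
    · exact d.lintegral_ch_level k j g (F := fun x => ENNReal.ofReal (|F x| ^ d.p))
        (hF.abs.pow_const _).ennreal_ofReal
  have hint : ∫⁻ x, ENNReal.ofReal |∑ j, Z j x| ∂d.P k g ≤
      ENNReal.ofReal (16 * (√τ + 2 * τ)) := by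
    calc _ ≤ ∫⁻ x, ∑ c : Fin 4 × Fin 4, ENNReal.ofReal |∑ j with PfLLN_cls k j = c, Z j x|
          ∂d.P k g := by
          refine lintegral_mono fun x => ?_
          rw [← ENNReal.ofReal_sum_of_nonneg fun _ _ => abs_nonneg _,
            ← Finset.sum_fiberwise Finset.univ (PfLLN_cls k) fun j => Z j x]
          exact ENNReal.ofReal_le_ofReal (Finset.abs_sum_le_sum_abs _ _)
      _ = ∑ c : Fin 4 × Fin 4, ∫⁻ x, ENNReal.ofReal |∑ j with PfLLN_cls k j = c, Z j x|
          ∂d.P k g := lintegral_finsetSum _ fun c _ => hZm _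
      _ ≤ ∑ _c : Fin 4 × Fin 4, ENNReal.ofReal (√τ + 2 * τ) := Finset.sum_le_sum fun c _ => hcl c
      _ = _ := by
          rw [← ENNReal.ofReal_sum_of_nonneg fun _ _ => by positivity]
          congr 1
          simp
          ring
  refine (measure_mono hsub).trans ((meas_ge_le_lintegral_div (hZm _).aemeasurable
    (ENNReal.ofReal_pos.2 hδ).ne' ENNReal.ofReal_ne_top).trans ?_)
  rw [ENNReal.ofReal_div_of_pos hδ]
  gcongr

theorem lln_of (h : FL) : d.LLN := by
  intro k g F δ τ hF hδ hτ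
  have hB : MeasurableSet {x | 2 * δ < |∑ j, F (d.ch k j x)|} :=
    measurableSet_lt measurable_const
      (Finset.measurable_sum _ fun j _ => hF.comp (d.ch_meas k j)).abs
  set E := {η | ∃ j, δ / 4 ^ k < |∫ x, F x ∂d.P 0 (d.kid k j (g + η))|} with hE
  have hEm : MeasurableSet E := by
    rw [hE, ofPred_exists]
    exact MeasurableSet.iUnion fun j => measurableSet_lt measurable_const
      ((d.measurable_integral_P hF).comp (d.measurable_kid_add k j g)).abs
  have hS : ∀ j, Measurable fun η =>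
      ∫⁻ x, ENNReal.ofReal (|F x| ^ d.p) ∂d.P 0 (d.kid k j (g + η)) := fun j =>
    (d.measurable_lintegral_P (hF.abs.pow_const _).ennreal_ofReal).comp
      (d.measurable_kid_add k j g)
  have hτ0 : ENNReal.ofReal τ ≠ 0 := (ENNReal.ofReal_pos.2 hτ).ne'
  rw [d.measure_tower k g hB]
  calc _ ≤ ∫⁻ η, (ENNReal.ofReal (16 * (√τ + 2 * τ) / δ) + (ENNReal.ofReal τ)⁻¹ *
          ∑ j, ∫⁻ x, ENNReal.ofReal (|F x| ^ d.p) ∂d.P 0 (d.kid k j (g + η))) +
          E.indicator 1 η ∂d.lay k := by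
        refine lintegral_mono fun η => ?_
        by_cases h2 : η ∈ E
        · rw [indicator_of_mem h2]
          exact prob_le_one.trans le_add_self
        rcases le_total (∑ j, ∫⁻ x, ENNReal.ofReal (|F x| ^ d.p) ∂d.P 0 (d.kid k j (g + η)))
          (ENNReal.ofReal τ) with h1 | h1
        · exact (PfLLN_fix d h k (g + η) hF hδ hτ h1 fun j =>
            not_lt.1 fun hj => h2 ⟨j, hj⟩).trans (le_self_add.trans le_self_add)
        · refine prob_le_one.trans (le_trans ?_ (le_add_self.trans le_self_add))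
          rw [← ENNReal.inv_mul_cancel hτ0 ENNReal.ofReal_ne_top]
          gcongr
    _ = _ := by
        rw [lintegral_add_right _ (measurable_one.indicator hEm), lintegral_indicator_one hEm,
          lintegral_add_left measurable_const, lintegral_const, measure_univ, mul_one,
          lintegral_const_mul _ (Finset.measurable_sum _ fun j _ => hS j),
          lintegral_finsetSum _ fun j _ => hS j]

end Pool.Agent.Lib.MP_0d9445_pr.HO
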