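import Pool.Agent.Lib.MP_0d9445_pr.HO.Basic

/-! Module HO: concentration of the truncated average. -/

open MeasureTheory ProbabilityTheory Set Filter Topology
open scoped ENNReal NNReal

noncomputable section

namespace Pool.Agent.Lib.MP_0d9445_pr.HO

variable {X : Type} [MeasurableSpace X] (d : Data X)

private theorem PfMean_tau {ε δ : ℝ} (hε : 0 < ε) (hδ : 0 < δ) :
    ∃ τ : ℝ, 0 < τ ∧ 16 * (√τ + 2 * τ) / δ ≤ ε := by
  set s := min 1 (ε * δ / 48) with hs
  have h0 : 0 < s := lt_min one_pos (by positivity)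
  have h1 : s ≤ 1 := min_le_left _ _
  have h2 : s ≤ ε * δ / 48 := min_le_right _ _
  refine ⟨s ^ 2, by positivity, ?_⟩
  rw [Real.sqrt_sq h0.le, div_le_iff₀ hδ]
  nlinarith

private theorem PfMean_k {T p ε : ℝ} (hT : 0 < T) (hp : 1 < p) (hε : 0 < ε) :
    ∃ k : ℕ, 4 ^ k * (T / 4 ^ k) ^ p ≤ ε := by
  have h4 : (4 : ℝ) < 4 ^ p := by
    conv_lhs => rw [← Real.rpow_one 4]
    exact Real.rpow_lt_rpow_of_exponent_lt (by norm_num) hp
  have h0 : (0 : ℝ) < 4 ^ p := by positivity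
  have h1 : Tendsto (fun k : ℕ => T ^ p * (4 / 4 ^ p : ℝ) ^ k) atTop (𝓝 (T ^ p * 0)) :=
    (tendsto_pow_atTop_nhds_zero_of_lt_one (by positivity)
      ((div_lt_one h0).2 h4)).const_mul _
  rw [mul_zero] at h1
  obtain ⟨k, hk⟩ := (h1.eventually (ge_mem_nhds hε)).exists
  refine ⟨k, le_of_eq_of_le ?_ hk⟩
  rw [Real.div_rpow hT.le (by positivity), div_pow, ← Real.rpow_pow_comm (by norm_num)]
  ring

private theorem PfMean_av_abs {k : ℕ} {a : Ix k → ℝ} {A δ : ℝ} (h : ∀ j, |a j - A| ≤ δ) :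
    |(∑ j, a j) / 4 ^ k - A| ≤ δ := by
  have h4 : (0 : ℝ) < 4 ^ k := by positivity
  have e : (∑ j, a j) / 4 ^ k - A = (∑ j, (a j - A)) / 4 ^ k := by
    rw [Finset.sum_sub_distrib, sum_const_Ix]; field_simp
  rw [e, abs_div, abs_of_pos h4, div_le_iff₀ h4]
  refine (Finset.abs_sum_le_sum_abs _ _).trans ?_
  refine (Finset.sum_le_sum fun j _ => h j).trans ?_
  rw [sum_const_Ix, mul_comm]

private theorem PfMean_av_sub {k : ℕ} {a b : Ix k → ℝ} {δ : ℝ} (h : ∀ j, |a j - b j| ≤ δ) :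
    |(∑ j, a j) / 4 ^ k - (∑ j, b j) / 4 ^ k| ≤ δ := by
  have h1 := PfMean_av_abs (k := k) (a := fun j => a j - b j) (A := 0) (δ := δ)
    (fun j => by simpa using h j)
  rwa [sub_zero, Finset.sum_sub_distrib, sub_div] at h1

private theorem PfMean_int (P : Measure X) [IsProbabilityMeasure P] {F : X → ℝ} {T : ℝ}
    (hF : Measurable F) (h : ∀ x, 0 ≤ F x ∧ F x ≤ T) : Integrable F P :=
  (integrable_const T).mono' hF.aestronglyMeasurable
    (ae_of_all _ fun x => by rw [Real.norm_eq_abs, abs_of_nonneg (h x).1]; exact (h x).2)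

theorem mean_of (h1 : d.LLN) (h2 : d.Tight) (h3 : d.CM0) : d.Mean := by
  intro T R0 ε hT hε
  have hδ : 0 < ε / 2 := by positivity
  have h3ε : 0 < ε / 3 := by positivity
  obtain ⟨τ, hτ, hτ1⟩ := PfMean_tau h3ε hδ
  obtain ⟨k, hk⟩ := PfMean_k hT d.one_lt (mul_pos hτ h3ε)
  obtain ⟨R1, hR1⟩ := h2 k R0 (ε / 3) h3ε
  obtain ⟨m0, hm0⟩ := h3 R1 (ε / 2 / T) (by positivity)
  refine ⟨k, m0, fun m hm q c u hu => ?_⟩
  have h4 : (0 : ℝ) < 4 ^ k := by positivity
  set G : X → ℝ := fun y => min (d.nu q y) T with hG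
  have hGm : Measurable G := (d.nu_meas q).min measurable_const
  have hGb : ∀ y, 0 ≤ G y ∧ G y ≤ T := fun y => ⟨le_min (d.nu_nonneg q y) hT.le, min_le_right _ _⟩
  set A := d.Am q T m c with hA
  have hAe : A = ∫ x, G (d.ch m 0 x) ∂d.P 0 (cst c) := rfl
  have hA0 : 0 ≤ A := by rw [hAe]; exact integral_nonneg fun x => (hGb _).1
  have hAT : A ≤ T := by
    rw [hAe]
    have := integral_mono (μ := d.P 0 (cst c))
      (PfMean_int _ (hGm.comp (d.ch_meas m 0)) fun x => hGb _) (integrable_const T)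
      fun x => (hGb (d.ch m 0 x)).2
    simpa using this
  set F : X → ℝ := fun y => (d.av m G y - A) / 4 ^ k with hF
  have hFm : Measurable F := ((d.measurable_av m hGm).sub measurable_const).div_const _
  have hFb : ∀ y, |F y| ≤ T / 4 ^ k := fun y => by
    rw [hF, abs_div, abs_of_pos h4]
    refine div_le_div_of_nonneg_right (PfMean_av_abs fun i => ?_) h4.le
    rw [abs_le]
    constructor <;> linarith [(hGb (d.ch m i y)).1, (hGb (d.ch m i y)).2]
  have hset : {x | ε < |d.av k (d.av m G) x - A|} =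
      {x | 2 * (ε / 2) < |∑ j, F (d.ch k j x)|} := by
    ext x
    have e : ∑ j, F (d.ch k j x) = d.av k (d.av m G) x - A := by
      simp only [hF]
      rw [← Finset.sum_div, Finset.sum_sub_distrib, sum_const_Ix, Data.av]
      field_simp
    simp only [mem_ofPred_eq, e, show 2 * (ε / 2) = ε by ring]
  rw [hset]
  refine (h1 k (cst c + u) F (ε / 2) τ hFm hδ hτ).trans ?_
  have b1 : ENNReal.ofReal (16 * (√τ + 2 * τ) / (ε / 2)) ≤ ENNReal.ofReal (ε / 3) :=
    ENNReal.ofReal_le_ofReal hτ1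
  have b2 : (ENNReal.ofReal τ)⁻¹ * ∑ j, ∫⁻ η, ∫⁻ x, ENNReal.ofReal (|F x| ^ d.p)
      ∂d.P 0 (d.kid k j (cst c + u + η)) ∂d.lay k ≤ ENNReal.ofReal (ε / 3) := by
    have c1 : ∀ j : Ix k, ∫⁻ η, ∫⁻ x, ENNReal.ofReal (|F x| ^ d.p)
        ∂d.P 0 (d.kid k j (cst c + u + η)) ∂d.lay k ≤ ENNReal.ofReal ((T / 4 ^ k) ^ d.p) := by
      intro j
      have c2 : ∀ η, ∫⁻ x, ENNReal.ofReal (|F x| ^ d.p) ∂d.P 0 (d.kid k j (cst c + u + η)) ≤
          ENNReal.ofReal ((T / 4 ^ k) ^ d.p) := fun η => by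
        refine (lintegral_mono fun x => ENNReal.ofReal_le_ofReal
          (Real.rpow_le_rpow (abs_nonneg _) (hFb x) (by linarith [d.one_lt]))).trans ?_
        simp
      refine (lintegral_mono c2).trans ?_
      simp
    have c3 : ∑ j, ∫⁻ η, ∫⁻ x, ENNReal.ofReal (|F x| ^ d.p)
        ∂d.P 0 (d.kid k j (cst c + u + η)) ∂d.lay k ≤ ENNReal.ofReal τ * ENNReal.ofReal (ε / 3) := by
      refine (Finset.sum_le_sum fun j _ => c1 j).trans ?_
      rw [← ENNReal.ofReal_sum_of_nonneg fun j _ => by positivity, sum_const_Ix,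
        ← ENNReal.ofReal_mul hτ.le]
      exact ENNReal.ofReal_le_ofReal hk
    refine (mul_le_mul_right c3 _).trans ?_
    rw [← mul_assoc, ENNReal.inv_mul_cancel (ENNReal.ofReal_pos.2 hτ).ne' ENNReal.ofReal_ne_top,
      one_mul]
  have b3 : d.lay k {η | ∃ j, ε / 2 / 4 ^ k <
      |∫ x, F x ∂d.P 0 (d.kid k j (cst c + u + η))|} ≤ ENNReal.ofReal (ε / 3) := by
    refine (measure_mono ?_).trans (hR1 u hu)
    rintro η ⟨j, hj⟩
    refine ⟨j, fun hgd => absurd hj (not_lt.2 ?_)⟩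
    rw [d.kid_cst_add]
    set v := d.kid k j (u + η) with hv
    have hi : ∀ i : Ix m, Integrable (fun x => G (d.ch m i x)) (d.P 0 (cst c + v)) := fun i =>
      PfMean_int _ (hGm.comp (d.ch_meas m i)) fun x => hGb _
    have e : ∫ x, F x ∂d.P 0 (cst c + v) =
        ((∑ i, ∫ x, G (d.ch m i x) ∂d.P 0 (cst c + v)) / 4 ^ m - A) / 4 ^ k := by
      simp only [hF, Data.av]
      rw [integral_div, integral_sub ((integrable_finsetSum _ fun i _ => hi i).div_const _)
        (integrable_const A), integral_div, integral_finsetSum _ fun i _ => hi i]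
      simp
    rw [e, abs_div, abs_of_pos h4]
    refine div_le_div_of_nonneg_right (PfMean_av_abs fun i => ?_) h4.le
    have := hm0 m hm i c T v hgd G hGm hGb
    rwa [div_mul_cancel₀ _ hT.ne'] at this
  calc _ ≤ ENNReal.ofReal (ε / 3) + ENNReal.ofReal (ε / 3) + ENNReal.ofReal (ε / 3) :=
        add_le_add (add_le_add b1 b2) b3
    _ = ENNReal.ofReal ε := by
        rw [← ENNReal.ofReal_add h3ε.le h3ε.le, ← ENNReal.ofReal_add (by positivity) h3ε.le]
        congr 1; ring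

private theorem PfMean_one (h4 : d.Defect) (h5 : d.Child) {L : Measure (Fn × ℝ)} (hL : d.Adm L)
    {ε T : ℝ} (hε : 0 < ε) {k m : ℕ} {q : ℂ} (hq : ‖q‖ ≤ 2)
    (hcut : ∀ c, d.rf L c {x | ε / 8 < |d.av k (d.av m (d.nu q)) x -
      d.av k (d.av m fun y => min (d.nu q y) T) x|} ≤ ENNReal.ofReal (ε / 4))
    (hmean : ∀ c, d.rf L c {x | ε / 8 < |d.av k (d.av m fun y => min (d.nu q y) T) x -
      d.Am q T m c|} ≤ ENNReal.ofReal (ε / 4)) :
    ∀ᶠ c in atTop, d.rf L c {x | ε < |d.nu q x - d.Am q T m c|} ≤ ENNReal.ofReal ε := by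
  have h4ε : 0 < ε / 4 := by positivity
  have hpos : 0 < ENNReal.ofReal (ε / 4) := ENNReal.ofReal_pos.2 h4ε
  have hn := d.nu_meas q
  have hG : Measurable fun y => min (d.nu q y) T := hn.min measurable_const
  set B : Set X := {x | ε / 4 < |d.nu q x - d.av m (d.nu q) x|} with hB
  have hBm : MeasurableSet B :=
    measurableSet_lt measurable_const (hn.sub (d.measurable_av m hn)).abs
  have t1 := h4 k q (ε / 4) hq h4ε L hL
  have t2 : Tendsto (fun c => ∑ j : Ix k, d.rf L c (d.ch k j ⁻¹' B)) atTop (𝓝 0) := by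
    have : Tendsto (fun c => ∑ j : Ix k, d.rf L c (d.ch k j ⁻¹' B)) atTop
        (𝓝 (∑ _j : Ix k, (0 : ℝ≥0∞))) := by
      refine tendsto_finsetSum _ fun j _ => ?_
      obtain ⟨L', hL', e⟩ := h5 L hL k j
      simp only [fun c => e c B hBm]
      exact h4 m q (ε / 4) hq h4ε L' hL'
    simpa using this
  filter_upwards [t1.eventually (ge_mem_nhds hpos), t2.eventually (ge_mem_nhds hpos)] with c c1 c2
  have c3 := hcut c
  have c4 := hmean c
  set A1 : Set X := {x | ε / 4 < |d.nu q x - d.av k (d.nu q) x|} with hA1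
  set A3 : Set X := {x | ε / 8 < |d.av k (d.av m (d.nu q)) x -
      d.av k (d.av m fun y => min (d.nu q y) T) x|} with hA3
  set A4 : Set X := {x | ε / 8 < |d.av k (d.av m fun y => min (d.nu q y) T) x -
      d.Am q T m c|} with hA4
  have m1 : MeasurableSet A1 :=
    measurableSet_lt measurable_const (hn.sub (d.measurable_av k hn)).abs
  have m2 : ∀ j : Ix k, MeasurableSet (d.ch k j ⁻¹' B) := fun j => d.ch_meas k j hBm
  have m3 : MeasurableSet A3 := measurableSet_lt measurable_const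
    ((d.measurable_av k (d.measurable_av m hn)).sub (d.measurable_av k (d.measurable_av m hG))).abs
  have m4 : MeasurableSet A4 := measurableSet_lt measurable_const
    ((d.measurable_av k (d.measurable_av m hG)).sub measurable_const).abs
  have m0 : MeasurableSet {x | ε < |d.nu q x - d.Am q T m c|} :=
    measurableSet_lt measurable_const (hn.sub measurable_const).abs
  have hsub : {x | ε < |d.nu q x - d.Am q T m c|} ⊆
      A1 ∪ (⋃ j : Ix k, d.ch k j ⁻¹' B) ∪ A3 ∪ A4 := by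
    intro x hx
    by_contra hc
    simp only [mem_union, mem_iUnion, not_or, not_exists, hA1, hA3, hA4, hB, mem_preimage,
      mem_ofPred_eq, not_lt] at hc
    obtain ⟨⟨⟨a1, a2⟩, a3⟩, a4⟩ := hc
    have a5 : |d.av k (d.nu q) x - d.av k (d.av m (d.nu q)) x| ≤ ε / 4 := PfMean_av_sub a2
    rw [mem_ofPred_eq, lt_abs] at hx
    rw [abs_le] at a1 a3 a4 a5
    rcases hx with hx | hx <;> linarith [a1.1, a1.2, a3.1, a3.2, a4.1, a4.2, a5.1, a5.2]
  rw [d.rf_eq hL c m1] at c1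
  rw [d.rf_eq hL c m3] at c3
  rw [d.rf_eq hL c m4] at c4
  simp only [fun j => d.rf_eq hL c (m2 j)] at c2
  rw [d.rf_eq hL c m0]
  have c5 : d.rfM L c (⋃ j : Ix k, d.ch k j ⁻¹' B) ≤ ENNReal.ofReal (ε / 4) :=
    (measure_iUnion_fintype_le _ _).trans c2
  calc _ ≤ d.rfM L c (A1 ∪ (⋃ j : Ix k, d.ch k j ⁻¹' B) ∪ A3 ∪ A4) := measure_mono hsub
    _ ≤ d.rfM L c A1 + d.rfM L c (⋃ j : Ix k, d.ch k j ⁻¹' B) + d.rfM L c A3 + d.rfM L c A4 :=
        (measure_union_le _ _).trans (add_le_add ((measure_union_le _ _).trans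
          (add_le_add (measure_union_le _ _) le_rfl)) le_rfl)
    _ ≤ ENNReal.ofReal (ε / 4) + ENNReal.ofReal (ε / 4) + ENNReal.ofReal (ε / 4) +
          ENNReal.ofReal (ε / 4) := add_le_add (add_le_add (add_le_add c1 c5) c3) c4
    _ = ENNReal.ofReal ε := by
        rw [← ENNReal.ofReal_add h4ε.le h4ε.le, ← ENNReal.ofReal_add (by positivity) h4ε.le,
          ← ENNReal.ofReal_add (by positivity) h4ε.le]
        congr 1; ring

theorem near_of (h1 : d.RefT) (h2 : d.Cut) (h3 : d.Mean) (h4 : d.Defect) (h5 : d.Child) :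
    d.Near := by
  intro L L' hL hL' ε hε
  have h8 : 0 < ε / 8 := by positivity
  obtain ⟨R, hR⟩ := h1 L hL (ε / 8) h8
  obtain ⟨R', hR'⟩ := h1 L' hL' (ε / 8) h8
  obtain ⟨T, hT, hcut⟩ := h2 (max R R') (ε / 8) h8
  obtain ⟨k, m, hmean⟩ := h3 T (max R R') (ε / 8) hT h8
  have e : ENNReal.ofReal (ε / 8) + ENNReal.ofReal (ε / 8) = ENNReal.ofReal (ε / 4) := by
    rw [← ENNReal.ofReal_add h8.le h8.le]; congr 1; ring
  refine ⟨T, m, hT, fun q hq => Eventually.and ?_ ?_⟩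
  · exact PfMean_one d h4 h5 hL hε (k := k) hq
      (fun c => (hR _ (le_max_left _ _) c _ _ (hcut q k m c hq)).trans e.le)
      (fun c => (hR _ (le_max_left _ _) c _ _ (hmean m le_rfl q c)).trans e.le)
  · exact PfMean_one d h4 h5 hL' hε (k := k) hq
      (fun c => (hR' _ (le_max_right _ _) c _ _ (hcut q k m c hq)).trans e.le)
      (fun c => (hR' _ (le_max_right _ _) c _ _ (hmean m le_rfl q c)).trans e.le)

end Pool.Agent.Lib.MP_0d9445_pr.HO
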