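import Pool.Agent.Lib.MP_0d9445_pr.HO.Basic

/-! Module HO: isotropy and concentration of the energy. -/

open MeasureTheory ProbabilityTheory Set Filter Topology
open scoped ENNReal NNReal

noncomputable section

namespace Pool.Agent.Lib.MP_0d9445_pr.HO

variable {X : Type} [MeasurableSpace X] (d : Data X)

/-- the law of the corner child is invariant under the quarter turn -/
theorem pfNu_rot (m : ℕ) (c : ℝ) :
    ((d.P 0 (cst c)).map (d.ch m 0)).map d.rot = (d.P 0 (cst c)).map (d.ch m 0) := by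
  ext B hB
  have hΦ : Measurable fun g : Fn => d.P 0 (cst c + g) B :=
    (d.measurable_P B hB).comp (measurable_const.add measurable_id)
  rw [Measure.map_apply d.rot_meas hB, Measure.map_apply (d.ch_meas m 0) (d.rot_meas hB),
    Measure.map_apply (d.ch_meas m 0) hB, d.measure_ch m 0 _ (d.rot_meas hB),
    d.measure_ch m 0 _ hB]
  have e1 : ∀ η : Fn, d.P 0 (d.kid m 0 (cst c + η)) (d.rot ⁻¹' B) =
      d.P 0 (cst c + rotF (res d.Q m 0 η)) B := fun η => by
    rw [← Measure.map_apply d.rot_meas hB, d.rot_map, Data.kid, res_cst_add, rotF_cst_add,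
      cor_zero]
  have e2 : ∀ η : Fn, d.P 0 (d.kid m 0 (cst c + η)) B = d.P 0 (cst c + res d.Q m 0 η) B :=
    fun η => by rw [Data.kid, res_cst_add, cor_zero]
  simp only [e1, e2]
  rw [← lintegral_map (f := fun g => d.P 0 (cst c + rotF g) B) (hΦ.comp measurable_rotF)
      (measurable_res d.Q m 0),
    ← lintegral_map (f := fun g => d.P 0 (cst c + g) B) hΦ measurable_rotF, d.lay_rot,
    lintegral_map hΦ (measurable_res d.Q m 0)]

theorem pfNu_ae (m : ℕ) (c : ℝ) (q : ℂ) :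
    ∀ᵐ x ∂(d.P 0 (cst c)).map (d.ch m 0),
      x ∈ d.Loc → d.rot x ∈ d.Loc → d.nu q (d.rot x) = d.nu (Complex.I * q) x := by
  have hE : MeasurableSet {x | ¬ (x ∈ d.Loc → d.rot x ∈ d.Loc →
      d.nu q (d.rot x) = d.nu (Complex.I * q) x)} := by
    have e : {x | ¬ (x ∈ d.Loc → d.rot x ∈ d.Loc → d.nu q (d.rot x) = d.nu (Complex.I * q) x)} =
        d.Loc ∩ d.rot ⁻¹' d.Loc ∩ {x | d.nu q (d.rot x) = d.nu (Complex.I * q) x}ᶜ := by
      ext x
      simp only [mem_ofPred_eq, mem_inter_iff, mem_preimage, mem_compl_iff]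
      tauto
    rw [e]
    exact (d.Loc_meas.inter (d.rot_meas d.Loc_meas)).inter
      (measurableSet_eq_fun ((d.nu_meas q).comp d.rot_meas) (d.nu_meas _)).compl
  rw [ae_iff, Measure.map_apply (d.ch_meas m 0) hE, d.measure_ch m 0 _ hE]
  refine lintegral_eq_zero_of_ae_eq_zero (ae_of_all _ fun η => ?_)
  exact ae_iff.1 ((d.nu_rot _).mono fun x hx h1 h2 => hx h1 h2 q)

theorem pfNu_bound (q : ℂ) {T : ℝ} (hT : 0 < T) (m : ℕ) (c : ℝ) :
    |d.Am q T m c - d.Am (Complex.I * q) T m c| ≤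
      2 * T * (d.P 0 (cst c) (d.allLoc m)ᶜ).toReal := by
  set ν : Measure X := (d.P 0 (cst c)).map (d.ch m 0) with hν
  have : IsProbabilityMeasure ν := Measure.isProbabilityMeasure_map (d.ch_meas m 0).aemeasurable
  have hm : ∀ q : ℂ, Measurable fun x => min (d.nu q x) T := fun q =>
    (d.nu_meas q).min measurable_const
  have hA : ∀ q : ℂ, d.Am q T m c = ∫ x, min (d.nu q x) T ∂ν := fun q => by
    rw [hν, integral_map (d.ch_meas m 0).aemeasurable (hm q).aestronglyMeasurable]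
    rfl
  have hA' : d.Am q T m c = ∫ x, min (d.nu q (d.rot x)) T ∂ν := by
    rw [hA, ← integral_map (f := fun x => min (d.nu q x) T) d.rot_meas.aemeasurable
      (hm q).aestronglyMeasurable, hν, pfNu_rot]
  have hb : ∀ (q : ℂ) x, 0 ≤ min (d.nu q x) T ∧ min (d.nu q x) T ≤ T := fun q x =>
    ⟨le_min (d.nu_nonneg q x) hT.le, min_le_right _ _⟩
  have hi : ∀ (q : ℂ) (f : X → X), Measurable f → Integrable (fun x => min (d.nu q (f x)) T) ν :=
    fun q f hf => Integrable.of_bound ((hm q).comp hf).aestronglyMeasurable T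
      (ae_of_all _ fun x => by
        rw [Real.norm_eq_abs, abs_of_nonneg (hb q _).1]; exact (hb q _).2)
  set S : Set X := d.Locᶜ ∪ d.rot ⁻¹' d.Locᶜ with hS
  have hSm : MeasurableSet S := d.Loc_meas.compl.union (d.rot_meas d.Loc_meas.compl)
  have h1 : |d.Am q T m c - d.Am (Complex.I * q) T m c| ≤ ν.real S * T := by
    rw [hA', hA (Complex.I * q), ← integral_sub (hi q _ d.rot_meas) (hi _ (fun x => x) measurable_id),
      ← Real.norm_eq_abs, ← smul_eq_mul (ν.real S) T, ← integral_indicator_const T hSm]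
    refine norm_integral_le_of_norm_le ((integrable_const T).indicator hSm) ?_
    filter_upwards [pfNu_ae d m c q] with x hx
    by_cases hxS : x ∈ S
    · rw [indicator_of_mem hxS, Real.norm_eq_abs, abs_le]
      have a1 := hb q (d.rot x)
      have a2 := hb (Complex.I * q) x
      constructor <;> linarith [a1.1, a1.2, a2.1, a2.2]
    · rw [indicator_of_notMem hxS]
      simp only [hS, mem_union, mem_compl_iff, mem_preimage, not_or, not_not] at hxS
      simp [hx hxS.1 hxS.2]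
  have h2 : ν.real (d.rot ⁻¹' d.Locᶜ) = ν.real d.Locᶜ := by
    rw [Measure.real, Measure.real, ← Measure.map_apply d.rot_meas d.Loc_meas.compl, hν, pfNu_rot]
  have h3 : ν.real d.Locᶜ ≤ (d.P 0 (cst c) (d.allLoc m)ᶜ).toReal := by
    rw [Measure.real, hν, Measure.map_apply (d.ch_meas m 0) d.Loc_meas.compl]
    exact ENNReal.toReal_mono (measure_ne_top _ _)
      (measure_mono fun x hx hx' => hx (hx'.2 0))
  have h4 : ν.real S ≤ ν.real d.Locᶜ + ν.real (d.rot ⁻¹' d.Locᶜ) := measureReal_union_le _ _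
  nlinarith

theorem iso_of (h : d.LocS) : d.Iso := by
  intro q T m hT
  obtain ⟨B, hB⟩ := h m
  have h0 : Tendsto (fun c : ℝ => (B : ℝ≥0∞) * ee (-d.a * c)) atTop (𝓝 0) := by
    simpa using ENNReal.Tendsto.const_mul (tendsto_ee_neg d.a_pos) (Or.inr ENNReal.coe_ne_top)
  have h1 : Tendsto (fun c : ℝ => d.P 0 (cst c) (d.allLoc m)ᶜ) atTop (𝓝 0) :=
    tendsto_of_tendsto_of_tendsto_of_le_of_le tendsto_const_nhds h0 (fun _ => zero_le)
      fun c => by simpa using hB (cst c)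
  have h2 : Tendsto (fun c : ℝ => 2 * T * (d.P 0 (cst c) (d.allLoc m)ᶜ).toReal) atTop (𝓝 0) := by
    simpa using ((ENNReal.tendsto_toReal ENNReal.zero_ne_top).comp h1).const_mul (2 * T)
  exact squeeze_zero_norm (fun c => pfNu_bound d q hT m c) h2

/-- the median is close to every centre of concentration -/
theorem pfNu_median (μ : Measure X) [IsProbabilityMeasure μ] {f : X → ℝ}
    {a ε : ℝ} (h : μ {x | ε < |f x - a|} < 1 / 2) :
    |sInf {t | 1 / 2 ≤ μ {x | f x ≤ t}} - a| ≤ ε := by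
  have hlow : ∀ t ∈ {t | 1 / 2 ≤ μ {x | f x ≤ t}}, a - ε ≤ t := by
    intro t ht
    by_contra hc
    refine absurd (ht.trans (measure_mono fun x hx => ?_)) (not_le.2 h)
    have h1 : f x ≤ t := hx
    exact lt_of_lt_of_le (by linarith [not_le.1 hc]) (neg_le_abs (f x - a))
  have hmem : a + ε ∈ {t | 1 / 2 ≤ μ {x | f x ≤ t}} := by
    by_contra hc
    have h1 : μ {x | f x ≤ a + ε} < 1 / 2 := not_le.1 hc
    have h2 : μ univ ≤ μ {x | f x ≤ a + ε} + μ {x | ε < |f x - a|} := by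
      refine le_trans (measure_mono fun x _ => ?_) (measure_union_le _ _)
      rcases le_or_gt (f x) (a + ε) with h3 | h3
      · exact Or.inl h3
      · exact Or.inr (lt_of_lt_of_le (by linarith) (le_abs_self (f x - a)))
    rw [measure_univ] at h2
    have h3 := ENNReal.add_lt_add h1 h
    rw [ENNReal.add_halves] at h3
    exact absurd h2 (not_le.2 h3)
  have h1 := csInf_le ⟨a - ε, hlow⟩ hmem
  have h2 := le_csInf ⟨_, hmem⟩ hlow
  rw [abs_le]
  constructor <;> linarith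

theorem nu_of (h1 : d.Near) (h2 : d.Iso) : d.Nu := by
  have hmk : Measurable fun g : Fn => (g, (0 : ℝ)) := measurable_id.prodMk measurable_const
  set L0 : Measure (Fn × ℝ) := d.Ginf.map fun g => (g, (0 : ℝ)) with hL0
  have hA0 : d.Adm L0 := ⟨Measure.isProbabilityMeasure_map hmk.aemeasurable, by
    rw [hL0, Measure.map_map measurable_fst hmk]
    exact Measure.map_id⟩
  set A0 : ℝ → ℝ := fun c => sInf {t | 1 / 2 ≤ d.rfM L0 c {x | d.nu 1 x ≤ t}} with hA0d
  have hpos : ∀ c, 0 ≤ A0 c := fun c => Real.sInf_nonneg fun t ht => by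
    by_contra hc
    have e : {x | d.nu 1 x ≤ t} = ∅ := eq_empty_of_forall_notMem fun x hx =>
      hc ((d.nu_nonneg 1 x).trans hx)
    simp [e] at ht
  refine ⟨fun c => A0 c + Real.exp (-c), fun c => add_pos_of_nonneg_of_pos (hpos c)
    (Real.exp_pos _), fun L hL η hη => ?_⟩
  rw [ENNReal.tendsto_nhds_zero]
  intro δ hδ
  obtain ⟨ε, hε, hε1, hε2, hε3⟩ : ∃ ε : ℝ, 0 < ε ∧ ε ≤ 1 / 10 ∧ 10 * ε ≤ η ∧
      ENNReal.ofReal (3 * ε) ≤ δ := by
    obtain ⟨r, hr0, hr, hr'⟩ := ENNReal.lt_iff_exists_real_btwn.1 hδ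
    have hr1 : 0 < r := ENNReal.ofReal_pos.1 hr
    refine ⟨min (1 / 10) (min (η / 10) (r / 3)), by positivity, min_le_left _ _, ?_,
      le_trans (ENNReal.ofReal_le_ofReal ?_) hr'.le⟩
    · have := (min_le_right (1 / 10 : ℝ) _).trans (min_le_left (η / 10) (r / 3))
      linarith
    · have := (min_le_right (1 / 10 : ℝ) _).trans (min_le_right (η / 10) (r / 3))
      linarith
  obtain ⟨T, m, hT, hN⟩ := h1 L L0 hL hA0 ε hε
  have n1 : ‖(1 : ℂ)‖ ≤ 2 := by simp
  have n2 : ‖Complex.I‖ ≤ 2 := by simp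
  have n3 : ‖(1 : ℂ) + Complex.I‖ ≤ 2 := (norm_add_le _ _).trans (by simp; norm_num)
  have n4 : ‖(1 : ℂ) - Complex.I‖ ≤ 2 := (norm_sub_le _ _).trans (by simp; norm_num)
  have i1 := Metric.tendsto_nhds.1 (h2 1 T m hT) ε hε
  have i2 := Metric.tendsto_nhds.1 (h2 (1 - Complex.I) T m hT) ε hε
  have i3 := Metric.tendsto_nhds.1 Real.tendsto_exp_neg_atTop_nhds_zero ε hε
  have eI : Complex.I * (1 - Complex.I) = 1 + Complex.I := by
    rw [mul_sub, Complex.I_mul_I]; ring
  rw [mul_one] at i1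
  rw [eI] at i2
  filter_upwards [hN 1 n1, hN _ n2, hN _ n3, hN _ n4, i1, i2, i3] with c b1 b2 b3 b4 j1 j2 j3
  rw [Real.dist_eq, sub_zero] at j1 j2 j3
  set E : ℂ → Set X := fun q => {x | ε < |d.nu q x - d.Am q T m c|} with hE
  have hEm : ∀ q, MeasurableSet (E q) := fun q =>
    measurableSet_lt measurable_const ((d.nu_meas q).sub measurable_const).abs
  have := d.rfM_prob hA0 c
  have := d.rfM_prob hL c
  have c1 : d.rfM L0 c (E 1) ≤ ENNReal.ofReal ε := d.rf_eq hA0 c (hEm _) ▸ b1.2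
  have c2 : d.rfM L0 c (E Complex.I) ≤ ENNReal.ofReal ε := d.rf_eq hA0 c (hEm _) ▸ b2.2
  have c3 : d.rfM L0 c (E (1 + Complex.I)) ≤ ENNReal.ofReal ε := d.rf_eq hA0 c (hEm _) ▸ b3.2
  have c4 : d.rfM L0 c (E (1 - Complex.I)) ≤ ENNReal.ofReal ε := d.rf_eq hA0 c (hEm _) ▸ b4.2
  have hmed : |A0 c - d.Am 1 T m c| ≤ ε := by
    refine pfNu_median (d.rfM L0 c) (c1.trans_lt ?_)
    rw [show (1 / 2 : ℝ≥0∞) = ENNReal.ofReal (1 / 2) by
      rw [ENNReal.ofReal_div_of_pos two_pos]; simp]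
    exact (ENNReal.ofReal_lt_ofReal_iff one_half_pos).2 (by linarith)
  have hpara := d.ae_rfM L0 c (E := fun x => d.nu (1 + Complex.I) x + d.nu (1 - Complex.I) x =
      2 * d.nu 1 x + 2 * d.nu Complex.I x)
    (measurableSet_eq_fun ((d.nu_meas _).add (d.nu_meas _))
      (((d.nu_meas _).const_mul 2).add ((d.nu_meas _).const_mul 2))) d.para
  obtain ⟨x, hx, hxp⟩ : ∃ x, x ∉ E 1 ∪ E Complex.I ∪ E (1 + Complex.I) ∪ E (1 - Complex.I) ∧
      d.nu (1 + Complex.I) x + d.nu (1 - Complex.I) x = 2 * d.nu 1 x + 2 * d.nu Complex.I x := by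
    by_contra hc
    have k1 : d.rfM L0 c univ ≤
        d.rfM L0 c (E 1 ∪ E Complex.I ∪ E (1 + Complex.I) ∪ E (1 - Complex.I)) := by
      refine measure_mono_ae (hpara.mono fun x hx _ => ?_)
      by_contra hx'
      exact hc ⟨x, hx', hx⟩
    have k2 : d.rfM L0 c (E 1 ∪ E Complex.I ∪ E (1 + Complex.I) ∪ E (1 - Complex.I)) ≤
        ENNReal.ofReal (ε + ε + ε + ε) := by
      rw [ENNReal.ofReal_add (by positivity) hε.le, ENNReal.ofReal_add (by positivity) hε.le,
        ENNReal.ofReal_add hε.le hε.le]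
      refine (measure_union_le _ _).trans (add_le_add ?_ c4)
      refine (measure_union_le _ _).trans (add_le_add ?_ c3)
      exact (measure_union_le _ _).trans (add_le_add c1 c2)
    rw [measure_univ] at k1
    have k3 := ENNReal.one_le_ofReal.1 (k1.trans k2)
    linarith
  simp only [hE, mem_union, mem_ofPred_eq, not_or, not_lt] at hx
  obtain ⟨⟨⟨x1, x2⟩, x3⟩, x4⟩ := hx
  rw [abs_le] at x1 x2 x3 x4 hmed
  rw [abs_lt] at j1 j2 j3
  have hsub : {x | η < |d.nu 1 x - (A0 c + Real.exp (-c))| ∨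
      η < |d.nu Complex.I x - (A0 c + Real.exp (-c))| ∨
      η < |d.nu (1 + Complex.I) x - 2 * (A0 c + Real.exp (-c))|} ⊆
      E 1 ∪ E Complex.I ∪ E (1 + Complex.I) := by
    intro y hy
    by_contra hc
    simp only [hE, mem_union, mem_ofPred_eq, not_or, not_lt] at hc
    obtain ⟨⟨y1, y2⟩, y3⟩ := hc
    rw [abs_le] at y1 y2 y3
    rcases hy with hy | hy | hy <;> refine absurd hy (not_lt.2 (abs_le.2 ⟨?_, ?_⟩)) <;>
      linarith [x1.1, x1.2, x2.1, x2.2, x3.1, x3.2, x4.1, x4.2, y1.1, y1.2, y2.1, y2.2, y3.1,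
        y3.2, hmed.1, hmed.2, j1.1, j1.2, j2.1, j2.2, j3.1, j3.2]
  refine (d.rf_mono L c hsub).trans (le_trans ?_ hε3)
  rw [d.rf_eq hL c (((hEm _).union (hEm _)).union (hEm _)), show 3 * ε = ε + ε + ε by ring,
    ENNReal.ofReal_add (by positivity) hε.le, ENNReal.ofReal_add hε.le hε.le]
  refine (measure_union_le _ _).trans (add_le_add ?_ (d.rf_eq hL c (hEm _) ▸ b3.1))
  exact (measure_union_le _ _).trans
    (add_le_add (d.rf_eq hL c (hEm _) ▸ b1.1) (d.rf_eq hL c (hEm _) ▸ b2.1))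

end Pool.Agent.Lib.MP_0d9445_pr.HO
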