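import Pool.Agent.Lib.MP_0d9445_pr.HO.Basic

/-! Module HO: the reference law. -/

open MeasureTheory ProbabilityTheory Set Filter Topology
open scoped ENNReal NNReal

noncomputable section

namespace Pool.Agent.Lib.MP_0d9445_pr.HO

theorem PfRef_pdf_le (x : ℝ) : gaussianPDF 0 1 x ≤ 1 := by
  rw [gaussianPDF, ENNReal.ofReal_le_one, gaussianPDFReal]
  have h1 : (1 : ℝ) ≤ √(2 * Real.pi * ((1 : ℝ≥0) : ℝ)) := by
    rw [Real.one_le_sqrt]
    have := Real.pi_gt_three
    simp only [NNReal.coe_one, mul_one]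
    linarith
  have h2 : Real.exp (-(x - 0) ^ 2 / (2 * ((1 : ℝ≥0) : ℝ))) ≤ 1 := by
    rw [Real.exp_le_one_iff]
    simp only [NNReal.coe_one, mul_one]
    nlinarith [sq_nonneg (x - 0)]
  exact mul_le_one₀ (inv_le_one_of_one_le₀ h1) (Real.exp_pos _).le h2

theorem PfRef_pdf_tendsto (t y : ℝ) :
    Tendsto (fun c : ℝ => gaussianPDF 0 1 (t - (y + c))) atTop (𝓝 0) := by
  have h0 : Tendsto (fun c : ℝ => c + (y - t)) atTop atTop := tendsto_atTop_add_const_right _ _ tendsto_id
  have h1 : Tendsto (fun c : ℝ => (c + (y - t)) ^ 2 / 2) atTop atTop :=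
    ((tendsto_pow_atTop two_ne_zero).comp h0).atTop_div_const two_pos
  have h2 := (Real.tendsto_exp_neg_atTop_nhds_zero.comp h1).const_mul
    (√(2 * Real.pi * ((1 : ℝ≥0) : ℝ)))⁻¹
  have h3 := ENNReal.tendsto_ofReal h2
  rw [mul_zero, ENNReal.ofReal_zero] at h3
  refine h3.congr fun c => ?_
  rw [gaussianPDF, gaussianPDFReal]
  congr 2
  simp only [Function.comp_apply, NNReal.coe_one, mul_one]
  congr 1
  ring

theorem PfRef_shift {H : ℝ → ℝ≥0∞} (hH : Measurable H) (y : ℝ) :
    ∫⁻ s, H (s + y) ∂gaussianReal 0 1 = ∫⁻ t, gaussianPDF 0 1 (t - y) * H t := by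
  rw [gaussianReal_of_var_ne_zero 0 one_ne_zero, lintegral_withDensity_eq_lintegral_mul _
    (measurable_gaussianPDF 0 1) (g := fun s => H (s + y)) (hH.comp (measurable_add_const y)),
    ← lintegral_add_right_eq_self (fun t => gaussianPDF 0 1 (t - y) * H t) y]
  simp only [Pi.mul_apply, add_sub_cancel_right]

variable {X : Type} [MeasurableSpace X] (d : Data X)

theorem avg : d.Avg := by
  intro B hB hfin L hL
  have hP := hL.1
  set H : Fn × ℝ → ℝ≥0∞ := fun z => (Ioi (0 : ℝ)).indicator 1 z.2 * d.P 0 (z.1 + cst z.2) B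
    with hHdef
  have hH : Measurable H :=
    ((measurable_one.indicator measurableSet_Ioi).comp measurable_snd).mul
      ((d.measurable_P B hB).comp (measurable_fst.add (measurable_cst.comp measurable_snd)))
  have hH1 : Measurable fun z : (Fn × ℝ) × ℝ => H (z.1.1, z.2) :=
    hH.comp (measurable_fst.fst.prodMk measurable_snd)
  have hS : ∀ c : ℝ, MeasurableSet {z : (Fn × ℝ) × ℝ | z.2 + (z.1.2 + c) ≤ 0} := fun c =>
    measurableSet_le (measurable_snd.add (measurable_fst.snd.add_const c)) measurable_const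
  have hI : ∀ c : ℝ, Measurable ({z : (Fn × ℝ) × ℝ | z.2 + (z.1.2 + c) ≤ 0}.indicator
      (1 : (Fn × ℝ) × ℝ → ℝ≥0∞)) := fun c => measurable_one.indicator (hS c)
  have hF : ∀ c : ℝ, Measurable fun z : (Fn × ℝ) × ℝ =>
      gaussianPDF 0 1 (z.2 - (z.1.2 + c)) * H (z.1.1, z.2) := fun c =>
    ((measurable_gaussianPDF 0 1).comp (measurable_snd.sub (measurable_fst.snd.add_const c))).mul
      hH1
  have hA : Tendsto (fun c : ℝ => ∫⁻ z, {z : (Fn × ℝ) × ℝ | z.2 + (z.1.2 + c) ≤ 0}.indicator 1 z
      ∂L.prod (gaussianReal 0 1)) atTop (𝓝 0) := by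
    have h := tendsto_lintegral_filter_of_dominated_convergence (μ := L.prod (gaussianReal 0 1))
      (l := atTop) (F := fun c : ℝ => {z : (Fn × ℝ) × ℝ | z.2 + (z.1.2 + c) ≤ 0}.indicator 1)
      (f := fun _ => 0) (fun _ => 1) (Eventually.of_forall hI)
      (Eventually.of_forall fun c => ae_of_all _ fun z => indicator_le_self' (by simp) z)
      (by simp) (ae_of_all _ fun z => by
        refine tendsto_const_nhds.congr' ?_
        filter_upwards [eventually_gt_atTop (-z.2 - z.1.2)] with c hc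
        rw [indicator_of_notMem]
        simp only [mem_ofPred_eq, not_le]
        linarith)
    simpa only [lintegral_zero] using h
  have hfin' : ∫⁻ z : (Fn × ℝ) × ℝ, H (z.1.1, z.2) ∂L.prod volume ≠ ∞ := by
    rw [lintegral_prod_symm _ hH1.aemeasurable]
    have e : ∀ t : ℝ, ∫⁻ w : Fn × ℝ, H (w.1, t) ∂L =
        (Ioi (0 : ℝ)).indicator (fun t => ∫⁻ g, d.P 0 (g + cst t) B ∂d.Ginf) t := fun t => by
      rw [← lintegral_map (f := fun g => H (g, t)) (hH.comp (measurable_id.prodMk measurable_const))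
        measurable_fst, hL.2]
      by_cases ht : t ∈ Ioi (0 : ℝ)
      · simp only [hHdef, indicator_of_mem ht, Pi.one_apply, one_mul]
      · simp only [hHdef, indicator_of_notMem ht, zero_mul, lintegral_zero]
    simp only [e]
    rwa [lintegral_indicator measurableSet_Ioi]
  have hB' : Tendsto (fun c : ℝ => ∫⁻ z : (Fn × ℝ) × ℝ,
      gaussianPDF 0 1 (z.2 - (z.1.2 + c)) * H (z.1.1, z.2) ∂L.prod volume) atTop (𝓝 0) := by
    have h := tendsto_lintegral_filter_of_dominated_convergence (μ := L.prod volume)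
      (l := atTop) (F := fun (c : ℝ) (z : (Fn × ℝ) × ℝ) =>
        gaussianPDF 0 1 (z.2 - (z.1.2 + c)) * H (z.1.1, z.2))
      (f := fun _ => 0) (fun z => H (z.1.1, z.2)) (Eventually.of_forall hF)
      (Eventually.of_forall fun c => ae_of_all _ fun z =>
        mul_le_of_le_one_left' (PfRef_pdf_le _))
      hfin' (ae_of_all _ fun z => by
        have hne : H (z.1.1, z.2) ≠ ∞ := by
          refine ENNReal.mul_ne_top ?_ (measure_ne_top _ _)
          exact ne_top_of_le_ne_top ENNReal.one_ne_top (indicator_le_self' (by simp) _)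
        have := ENNReal.Tendsto.mul_const (PfRef_pdf_tendsto z.2 z.1.2) (Or.inr hne)
        rwa [zero_mul] at this)
    simpa only [lintegral_zero] using h
  have hsum := hA.add hB'
  rw [add_zero] at hsum
  refine tendsto_of_tendsto_of_tendsto_of_le_of_le tendsto_const_nhds hsum (fun _ => zero_le)
    fun c => ?_
  dsimp only
  rw [lintegral_prod _ (hI c).aemeasurable, lintegral_prod _ (hF c).aemeasurable,
    ← lintegral_add_left (hI c).lintegral_prod_right']
  refine lintegral_mono fun w => ?_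
  dsimp only
  rw [← PfRef_shift (H := fun t => H (w.1, t)) (hH.comp (measurable_const.prodMk measurable_id)),
    ← lintegral_add_left (f := fun s => {z : (Fn × ℝ) × ℝ | z.2 + (z.1.2 + c) ≤ 0}.indicator 1 (w, s))
      ((hI c).comp (measurable_const.prodMk measurable_id))]
  refine lintegral_mono fun s => ?_
  dsimp only
  by_cases hs : s + (w.2 + c) ≤ 0
  · rw [indicator_of_mem (show (w, s) ∈ {z : (Fn × ℝ) × ℝ | z.2 + (z.1.2 + c) ≤ 0} from hs)]
    exact prob_le_one.trans le_self_add
  · have e : cst c + (w.1 + cst (w.2 + s)) = w.1 + cst (s + (w.2 + c)) := by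
      ext z; simp; ring
    rw [e]
    refine le_trans (le_of_eq ?_) le_add_self
    simp only [hHdef, indicator_of_mem (show s + (w.2 + c) ∈ Ioi (0 : ℝ) from not_le.1 hs),
      Pi.one_apply, one_mul]

theorem child : d.Child := by
  intro L hL k j
  have hP := hL.1
  set Φ : (Fn × ℝ) × Fn → Fn × ℝ := fun z => (shp k (cor k j) (z.1.1 + z.2),
    z.1.2 + ((z.1.1 + z.2) (cor k j) - k * d.Q * Real.log 2)) with hΦdef
  have hadd : Measurable fun z : (Fn × ℝ) × Fn => z.1.1 + z.2 :=
    measurable_fst.fst.add measurable_snd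
  have hΦ : Measurable Φ := ((measurable_shp _ _).comp hadd).prodMk
    (measurable_fst.snd.add (((measurable_ev _).comp hadd).sub_const _))
  refine ⟨(L.prod (d.lay k)).map Φ, ⟨Measure.isProbabilityMeasure_map hΦ.aemeasurable, ?_⟩, ?_⟩
  · have hψ : Measurable fun w : Fn × Fn => shp k (cor k j) (w.1 + w.2) :=
      (measurable_shp _ _).comp (measurable_fst.add measurable_snd)
    have e : Prod.fst ∘ Φ = (fun w : Fn × Fn => shp k (cor k j) (w.1 + w.2)) ∘
        Prod.map Prod.fst id := rfl
    rw [Measure.map_map measurable_fst hΦ, e,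
      ← Measure.map_map hψ (measurable_fst.prodMap measurable_id),
      ← Measure.map_prod_map _ _ measurable_fst measurable_id, Measure.map_id, hL.2, d.shape]
  · intro c B hB
    have hq : Measurable fun w : (Fn × ℝ) × ℝ =>
        d.P 0 (cst c + (w.1.1 + cst (w.1.2 + w.2))) B :=
      (d.measurable_P B hB).comp (Data.measurable_rf_arg c)
    have hG : Measurable fun w : Fn × ℝ =>
        ∫⁻ s, d.P 0 (cst c + (w.1 + cst (w.2 + s))) B ∂gaussianReal 0 1 :=
      hq.lintegral_prod_right'
    rw [Data.rf, Data.rf, lintegral_map hG hΦ, lintegral_prod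
      (fun z => ∫⁻ s, d.P 0 (cst c + ((Φ z).1 + cst ((Φ z).2 + s))) B ∂gaussianReal 0 1)
      (hG.comp hΦ).aemeasurable]
    refine lintegral_congr fun w => ?_
    rw [lintegral_lintegral_swap
      (f := fun η s => d.P 0 (cst c + ((Φ (w, η)).1 + cst ((Φ (w, η)).2 + s))) B)
      (hq.comp ((hΦ.comp (measurable_const.prodMk measurable_fst)).prodMk
        measurable_snd)).aemeasurable]
    refine lintegral_congr fun s => ?_
    rw [d.measure_ch k j _ hB]
    refine lintegral_congr fun η => ?_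
    congr 2
    ext z
    simp [Data.kid, hΦdef]
    ring

theorem refT : d.RefT := by
  intro L hL ε hε
  have hP := hL.1
  have hu : Measurable fun z : (Fn × ℝ) × ℝ => z.1.1 + cst (z.1.2 + z.2) :=
    measurable_fst.fst.add (measurable_cst.comp (measurable_fst.snd.add measurable_snd))
  set S : ℕ → Set ((Fn × ℝ) × ℝ) := fun n => {z | z.1.1 + cst (z.1.2 + z.2) ∉ d.Gd n} with hSdef
  have hS : ∀ n, MeasurableSet (S n) := fun n => hu (d.measurableSet_Gd n).compl
  have hanti : Antitone S := fun n m h z hz hz' => hz (d.Gd_mono (by exact_mod_cast h) hz')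
  have hV0 : ∀ᵐ g ∂d.Ginf, d.V g < ∞ := by
    refine ae_lt_top d.V_meas ?_
    simpa only [ENNReal.rpow_one] using d.V_Ginf 1
  have hV1 : ∀ᵐ w ∂L, d.V w.1 < ∞ := by
    rw [← hL.2] at hV0
    exact ae_of_ae_map measurable_fst.aemeasurable hV0
  have hV2 : ∀ᵐ z ∂L.prod (gaussianReal 0 1), d.V z.1.1 < ∞ :=
    Measure.quasiMeasurePreserving_fst.ae hV1
  have hnull : L.prod (gaussianReal 0 1) (⋂ n, S n) = 0 := by
    refine measure_eq_zero_iff_ae_notMem.2 ?_
    filter_upwards [hV2] with z hz hmem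
    obtain ⟨n, hn⟩ := exists_nat_ge
      (max |(z.1.1 + cst (z.1.2 + z.2)) 0| (d.V z.1.1).toReal)
    refine mem_iInter.1 hmem n ⟨(le_max_left _ _).trans hn, ?_⟩
    rw [d.V_cst, ← ENNReal.ofReal_toReal hz.ne]
    exact ENNReal.ofReal_le_ofReal ((le_max_right _ _).trans hn)
  have hlim := tendsto_measure_iInter_atTop (μ := L.prod (gaussianReal 0 1))
    (fun n => (hS n).nullMeasurableSet) hanti ⟨0, measure_ne_top _ _⟩
  rw [hnull] at hlim
  obtain ⟨n, hn⟩ := (ENNReal.tendsto_nhds_zero.1 hlim _ (ENNReal.ofReal_pos.2 hε)).exists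
  refine ⟨n, fun R1 hR c B δ hδ => ?_⟩
  have hI : Measurable fun z => δ + (S n).indicator (1 : (Fn × ℝ) × ℝ → ℝ≥0∞) z :=
    measurable_const.add (measurable_one.indicator (hS n))
  calc d.rf L c B ≤ ∫⁻ w, ∫⁻ s, (δ + (S n).indicator 1 (w, s)) ∂gaussianReal 0 1 ∂L := by
        refine lintegral_mono fun w => lintegral_mono fun s => ?_
        dsimp only
        by_cases hs : (w, s) ∈ S n
        · rw [indicator_of_mem hs]
          exact prob_le_one.trans le_add_self
        · exact (hδ _ (d.Gd_mono hR (not_not.1 hs))).trans le_self_add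
    _ = δ + L.prod (gaussianReal 0 1) (S n) := by
        rw [← lintegral_prod _ hI.aemeasurable, lintegral_add_left measurable_const,
          lintegral_indicator_one (hS n), lintegral_const, measure_univ, mul_one]
    _ ≤ _ := by
        gcongr
        exact hn

end Pool.Agent.Lib.MP_0d9445_pr.HO
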