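import Pool.Agent.Lib.MP_0d9445_pr.HO.Basic

/-! Module HO: tightness, localisation, moments, truncation. -/

open MeasureTheory ProbabilityTheory Set Filter Topology
open scoped ENNReal NNReal

noncomputable section

namespace Pool.Agent.Lib.MP_0d9445_pr.HO

variable {X : Type} [MeasurableSpace X] (d : Data X)

private theorem pfTight_div {M : ℝ≥0∞} (hM : M ≠ ∞) {ε : ℝ} (hε : 0 < ε) :
    ∃ R : ℝ, 0 < R ∧ M / ENNReal.ofReal R ≤ ENNReal.ofReal ε := by
  have h0 : 0 ≤ M.toReal / ε := div_nonneg ENNReal.toReal_nonneg hε.le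
  refine ⟨M.toReal / ε + 1, by linarith, ENNReal.div_le_of_le_mul ?_⟩
  rw [← ENNReal.ofReal_mul hε.le]
  conv_lhs => rw [← ENNReal.ofReal_toReal hM]
  refine ENNReal.ofReal_le_ofReal ?_
  rw [mul_add, mul_div_cancel₀ _ hε.ne']
  linarith

private theorem pfTight_one_le (t : ℝ) : 1 ≤ ee t + ee (-t) := by
  rcases le_total 0 t with h | h
  · exact le_add_right (by simpa using ee_mono h)
  · exact le_add_left (by simpa using ee_mono (neg_nonneg.2 h))

private theorem pfTight_out {R : ℝ} {g : Fn} (h : g ∉ d.Gd R) :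
    ENNReal.ofReal R ≤ ee (1 * g 0) * d.V g + ee (-1 * g 0) * d.V g := by
  rw [← add_mul, one_mul, neg_one_mul]
  simp only [Data.Gd, mem_ofPred_eq, not_and_or, not_le] at h
  rcases h with h | h
  · calc ENNReal.ofReal R ≤ ENNReal.ofReal |g 0| := ENNReal.ofReal_le_ofReal h.le
      _ ≤ ee (g 0) + ee (-g 0) := ofReal_abs_le_ee _
      _ ≤ _ := le_mul_of_one_le_right' (d.one_le_V g)
  · exact h.le.trans (le_mul_of_one_le_left' (pfTight_one_le _))

private theorem pfTight_wt (s : ℝ) (hs : |s| = 1) (k : ℕ) (R0 : ℝ) :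
    ∃ M : ℝ≥0∞, M ≠ ∞ ∧ ∀ u ∈ d.Gd R0, ∀ j : Ix k,
      ∫⁻ η, ee (s * d.kid k j (u + η) 0) * d.V (d.kid k j (u + η)) ∂d.lay k ≤ M := by
  obtain ⟨B, hB⟩ := d.wt_kid s
  refine ⟨B * ee R0 * ee ((s ^ 2 / 2 - s * d.Q) * (k * Real.log 2)) *
    ENNReal.ofReal R0 ^ (|s| + 1), ?_, fun u hu j => (hB k j u).trans ?_⟩
  · exact ENNReal.mul_ne_top (ENNReal.mul_ne_top (ENNReal.mul_ne_top ENNReal.coe_ne_top
      (ee_ne_top _)) (ee_ne_top _))
      (ENNReal.rpow_ne_top_of_nonneg (by positivity) ENNReal.ofReal_ne_top)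
  · have h1 : ee (s * u 0) ≤ ee R0 := ee_mono <| (le_abs_self _).trans <| by
      rw [abs_mul, hs, one_mul]; exact hu.1
    gcongr
    exact hu.2

private theorem pfTight_meas (s : ℝ) (k : ℕ) (j : Ix k) (u : Fn) :
    Measurable fun η => ee (s * d.kid k j (u + η) 0) * d.V (d.kid k j (u + η)) :=
  (measurable_ee.comp (((measurable_ev 0).comp (d.measurable_kid_add k j u)).const_mul s)).mul
    (d.V_meas.comp (d.measurable_kid_add k j u))

theorem tight : d.Tight := by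
  intro k R0 ε hε
  obtain ⟨M1, h1, H1⟩ := pfTight_wt d 1 abs_one k R0
  obtain ⟨M2, h2, H2⟩ := pfTight_wt d (-1) (by simp) k R0
  obtain ⟨R, hR, HR⟩ := pfTight_div (M := 4 ^ k * (M1 + M2))
    (ENNReal.mul_ne_top (ENNReal.pow_ne_top (by simp)) (ENNReal.add_ne_top.2 ⟨h1, h2⟩)) hε
  refine ⟨R, fun u hu => le_trans ?_ HR⟩
  rw [ofPred_exists]
  refine (measure_iUnion_fintype_le _ _).trans ?_
  rw [mul_div_assoc, ← sum_const_Ix']
  refine Finset.sum_le_sum fun j _ => ?_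
  refine (measure_mono fun η hη => pfTight_out d hη).trans ?_
  refine (meas_ge_le_lintegral_div ((pfTight_meas d 1 k j u).add
    (pfTight_meas d (-1) k j u)).aemeasurable (by simpa using hR) ENNReal.ofReal_ne_top).trans ?_
  simp only [Pi.add_apply]
  rw [lintegral_add_left (pfTight_meas d 1 k j u)]
  gcongr
  exacts [H1 u hu j, H2 u hu j]

theorem locS : d.LocS := by
  intro k
  obtain ⟨B, hB⟩ := d.wt_kid (-d.a)
  have ha := d.a_pos
  rw [abs_neg, abs_of_pos ha] at hB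
  set E := ee (((-d.a) ^ 2 / 2 - -d.a * d.Q) * (k * Real.log 2)) with hE
  have hfin : (d.C + 4 ^ k * (d.C * B * E) : ℝ≥0∞) ≠ ∞ :=
    ENNReal.add_ne_top.2 ⟨ENNReal.coe_ne_top, ENNReal.mul_ne_top (ENNReal.pow_ne_top (by simp))
      (ENNReal.mul_ne_top (ENNReal.mul_ne_top ENNReal.coe_ne_top ENNReal.coe_ne_top)
        (ee_ne_top _))⟩
  refine ⟨(d.C + 4 ^ k * (d.C * B * E) : ℝ≥0∞).toNNReal, fun g => ?_⟩
  rw [ENNReal.coe_toNNReal hfin]
  have hs : (d.allLoc k)ᶜ ⊆ d.Locᶜ ∪ ⋃ j, d.ch k j ⁻¹' d.Locᶜ := by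
    intro x hx
    simp only [Data.allLoc, mem_compl_iff, mem_ofPred_eq, not_and_or, not_forall] at hx
    simpa using hx
  have hV : d.V g ≤ d.V g ^ (d.a + 1) := by
    conv_lhs => rw [← ENNReal.rpow_one (d.V g)]
    exact ENNReal.rpow_le_rpow_of_exponent_le (d.one_le_V g) (by linarith)
  have hj : ∀ j : Ix k, d.P 0 g (d.ch k j ⁻¹' d.Locᶜ) ≤
      d.C * B * E * ee (-d.a * g 0) * d.V g ^ (d.a + 1) := fun j => by
    rw [d.measure_ch k j g d.Loc_meas.compl]
    calc _ ≤ ∫⁻ η, d.C * (ee (-d.a * d.kid k j (g + η) 0) * d.V (d.kid k j (g + η))) ∂d.lay k :=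
          lintegral_mono fun η => by rw [← mul_assoc]; exact d.K_loc _
      _ ≤ d.C * (B * ee (-d.a * g 0) * E * d.V g ^ (d.a + 1)) := by
          rw [lintegral_const_mul' _ _ ENNReal.coe_ne_top]
          gcongr
          exact hB k j g
      _ = _ := by ring
  calc _ ≤ d.P 0 g d.Locᶜ + ∑ j, d.P 0 g (d.ch k j ⁻¹' d.Locᶜ) :=
        (measure_mono hs).trans ((measure_union_le _ _).trans
          (add_le_add le_rfl (measure_iUnion_fintype_le _ _)))
    _ ≤ d.C * ee (-d.a * g 0) * d.V g ^ (d.a + 1) +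
        ∑ _j : Ix k, d.C * B * E * ee (-d.a * g 0) * d.V g ^ (d.a + 1) :=
        add_le_add ((d.K_loc g).trans (by gcongr)) (Finset.sum_le_sum fun j _ => hj j)
    _ = _ := by rw [sum_const_Ix']; ring

private theorem pfTight_step {B M : ℝ≥0} {F : X → ℝ≥0∞} (hF : Measurable F)
    (hB : ∀ (k : ℕ) (j : Ix k) (g : Fn), ∫⁻ η, d.V (d.kid k j (g + η)) ∂d.lay k ≤ B * d.V g)
    (h : ∀ g, ∫⁻ x, F x ∂d.P 0 g ≤ M * d.V g) (k : ℕ) (j : Ix k) (g : Fn) :
    ∫⁻ x, F (d.ch k j x) ∂d.P 0 g ≤ (M * B : ℝ≥0) * d.V g := by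
  rw [d.lintegral_ch k j g hF]
  refine (lintegral_mono fun η => h _).trans ?_
  rw [lintegral_const_mul' _ _ ENNReal.coe_ne_top, ENNReal.coe_mul, mul_assoc]
  gcongr
  exact hB k j g

theorem mom : d.Mom := by
  obtain ⟨B, hB⟩ := d.wt_kid 0
  simp only [zero_mul, ee_zero, one_mul, mul_one, abs_zero, zero_add, ENNReal.rpow_one, ne_eq,
    OfNat.ofNat_ne_zero, not_false_eq_true, zero_pow, zero_div, sub_zero] at hB
  refine ⟨d.C * B * B, fun q k m j i g hq => ?_⟩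
  have hF : Measurable fun x => ENNReal.ofReal (d.nu q x ^ 2) :=
    ((d.nu_meas q).pow_const 2).ennreal_ofReal
  exact pfTight_step d (F := fun x => ENNReal.ofReal (d.nu q (d.ch m i x) ^ 2))
    (hF.comp (d.ch_meas m i)) hB
    (pfTight_step d hF hB (fun g => d.K_nu g q hq) m i) k j g

private theorem pfTight_av (μ : Measure X) {φ : X → X} (hφ : Measurable φ) (m : ℕ) {F : X → ℝ}
    (hF : Measurable F) (h0 : ∀ x, 0 ≤ F x) {M : ℝ≥0∞}
    (h : ∀ i, ∫⁻ x, ENNReal.ofReal (F (d.ch m i (φ x))) ∂μ ≤ M) :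
    ∫⁻ x, ENNReal.ofReal (d.av m F (φ x)) ∂μ ≤ M := by
  have e : ∀ x, ENNReal.ofReal (d.av m F (φ x)) =
      (∑ i, ENNReal.ofReal (F (d.ch m i (φ x)))) * (4 ^ m)⁻¹ := fun x => by
    rw [Data.av, ENNReal.ofReal_div_of_pos (by positivity),
      ENNReal.ofReal_sum_of_nonneg fun i _ => h0 _, ENNReal.ofReal_pow (by norm_num),
      div_eq_mul_inv]
    simp
  have hm : ∀ i, Measurable fun x => ENNReal.ofReal (F (d.ch m i (φ x))) := fun i =>
    (hF.comp ((d.ch_meas m i).comp hφ)).ennreal_ofReal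
  simp only [e]
  rw [lintegral_mul_const _ (Finset.measurable_sum _ fun i _ => hm i),
    lintegral_finsetSum _ fun i _ => hm i, ← div_eq_mul_inv]
  refine ENNReal.div_le_of_le_mul' ?_
  rw [← sum_const_Ix']
  exact Finset.sum_le_sum fun i _ => h i

private theorem pfTight_av_nonneg (m : ℕ) {F : X → ℝ} (h0 : ∀ x, 0 ≤ F x) (x : X) :
    0 ≤ d.av m F x := div_nonneg (Finset.sum_nonneg fun _ _ => h0 _) (by positivity)

private theorem pfTight_av_sub (m : ℕ) {F G H : X → ℝ} {T : ℝ}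
    (h : ∀ x, |F x - G x| * T ≤ H x) (hT : 0 ≤ T) (x : X) :
    |d.av m F x - d.av m G x| * T ≤ d.av m H x := by
  simp only [Data.av]
  rw [← sub_div, ← Finset.sum_sub_distrib, abs_div, abs_of_pos (by positivity : (0 : ℝ) < 4 ^ m),
    div_mul_eq_mul_div]
  gcongr
  refine (mul_le_mul_of_nonneg_right (Finset.abs_sum_le_sum_abs _ _) hT).trans ?_
  rw [Finset.sum_mul]
  exact Finset.sum_le_sum fun i _ => h _

theorem cut_of (h : d.Mom) : d.Cut := by
  intro R0 ε hε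
  obtain ⟨B, hB⟩ := h
  obtain ⟨R, hR, HR⟩ := pfTight_div (M := B * ENNReal.ofReal R0)
    (ENNReal.mul_ne_top ENNReal.coe_ne_top ENNReal.ofReal_ne_top) hε
  have hT : 0 < R / ε := div_pos hR hε
  refine ⟨R / ε, hT, fun q k m c hq u hu => le_trans ?_ HR⟩
  have hF : Measurable fun x => d.nu q x ^ 2 := (d.nu_meas q).pow_const 2
  have h0 : ∀ x, 0 ≤ d.nu q x ^ 2 := fun x => sq_nonneg _
  have h1 : ∀ x, |d.nu q x - min (d.nu q x) (R / ε)| * (R / ε) ≤ d.nu q x ^ 2 := fun x => by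
    rcases le_total (d.nu q x) (R / ε) with h | h
    · rw [min_eq_left h]; simpa using h0 x
    · rw [min_eq_right h, abs_of_nonneg (sub_nonneg.2 h)]; nlinarith
  have h2 := pfTight_av_sub d k (pfTight_av_sub d m h1 hT.le) hT.le
  have h3 : ∫⁻ x, ENNReal.ofReal (d.av k (d.av m fun y => d.nu q y ^ 2) x) ∂d.P 0 (cst c + u) ≤
      B * ENNReal.ofReal R0 := by
    refine pfTight_av d _ measurable_id k (d.measurable_av m hF) (pfTight_av_nonneg d m h0)
      fun j => pfTight_av d _ (d.ch_meas k j) m hF h0 fun i => (hB q k m j i _ hq).trans ?_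
    rw [d.V_cst_add]
    gcongr
    exact hu.2
  calc _ ≤ d.P 0 (cst c + u) {x | ENNReal.ofReal R ≤
        ENNReal.ofReal (d.av k (d.av m fun y => d.nu q y ^ 2) x)} := by
        refine measure_mono fun x hx => ENNReal.ofReal_le_ofReal (le_trans ?_ (h2 x))
        have h4 := mul_le_mul_of_nonneg_right (le_of_lt hx) hT.le
        rwa [mul_div_cancel₀ _ hε.ne'] at h4
    _ ≤ _ := (meas_ge_le_lintegral_div (d.measurable_av k
          (d.measurable_av m hF)).ennreal_ofReal.aemeasurable (by simpa using hR)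
          ENNReal.ofReal_ne_top).trans (by gcongr)

end Pool.Agent.Lib.MP_0d9445_pr.HO
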