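import Pool.Agent.Lib.MP_0d9445_pr.HO.PfFL
import Pool.Agent.Lib.MP_0d9445_pr.HO.PfLLN
import Pool.Agent.Lib.MP_0d9445_pr.HO.PfTight
import Pool.Agent.Lib.MP_0d9445_pr.HO.PfRef
import Pool.Agent.Lib.MP_0d9445_pr.HO.PfDefect
import Pool.Agent.Lib.MP_0d9445_pr.HO.PfCM
import Pool.Agent.Lib.MP_0d9445_pr.HO.PfMean
import Pool.Agent.Lib.MP_0d9445_pr.HO.PfNu
import Pool.Agent.Lib.MP_0d9445_pr.HO.PfKap
import Pool.Agent.Lib.MP_0d9445_pr.HO.PfDeg

/-! Module HO: the abstract theorem. -/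

namespace Pool.Agent.Lib.MP_0d9445_pr.HO

theorem Data.out {X : Type} [MeasurableSpace X] (d : Data X) : d.Out :=
  have hl := lln_of d fl
  out_of d
    (nu_of d (near_of d (refT d) (cut_of d (mom d)) (mean_of d hl (tight d) (cm0 d))
      (defect_of d (avg d) (locS d)) (child d)) (iso_of d (locS d)))
    (deg_of d hl (tight d) (kap_of d (cmg d) (piAdd_of d (locS d)) (kapB d)) (kapB d) (locS d))
    (kapB d) (refT d) (locS d)

end Pool.Agent.Lib.MP_0d9445_pr.HO
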