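import Pool.Agent.Lib.MP_0d9445_pr.HO.InstLay
import Pool.Agent.Lib.MP_0d9445_pr.HO.Loc
import Pool.Agent.Lib.MP_0d9445_pr.EN.Cov
import Pool.Agent.Lib.MP_0d9445_pr.PPP.Moments

/-! Module HO, instance: the fields of `Data` about the point kernels. -/

open MeasureTheory ProbabilityTheory Set Filter Topology
open scoped ENNReal NNReal

noncomputable section

namespace Pool.Agent.Lib.MP_0d9445_pr.HO

open PPP (pts ppp)
open CR (oo ex ctr sc osq csq)
open EN hiding XL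

variable {M : Model}

theorem In.img {a b : ℂ} (h : Sim a) {A : Set ℂ} (hA : In a b A) : (img a b W0).o ⊆ A :=
  fun z hz => mul_div_add h.ne b z ▸ hA _ ((h.mem_img' W0 z).2 hz)

theorem pxMeas : PXmeas := fun k j _ _ h => (sim_dy k j).measurable_pullX_hat W0 h

theorem pxLaw : PXlaw := fun γ k j _ _ _ _ h he hF =>
  (sim_dy k j).lintegral_pt2K γ 0 (h.img (sim_dy k j)) he (measurable_of_GGhat hF)
    (dep_of_GGhat hF)

theorem mem_W0 {z : ℂ} : z ∈ W0.o ↔ (-1 < z.re ∧ z.re < 2) ∧ -1 < z.im ∧ z.im < 2 := by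
  simp only [W0, y0, ctr, osq, sc_zero, mem_ofPred_eq, abs_lt, Int.cast_zero]
  constructor <;> rintro ⟨⟨h1, h2⟩, h3, h4⟩ <;> refine ⟨⟨?_, ?_⟩, ?_, ?_⟩ <;> linarith

theorem ch_re (k : ℕ) (j : Ix k) (z : ℂ) :
    (dy k 0 * z + cor k j).re = sc k * (z.re + (j.1 : ℕ)) ∧
      (dy k 0 * z + cor k j).im = sc k * (z.im + (j.2 : ℕ)) := by
  rw [cor, div_eq_inv_mul, ← sc_coe, dy_zero, ← mul_add, Complex.re_ofReal_mul,
    Complex.im_ofReal_mul]
  simp

theorem in_cor (k : ℕ) (j : Ix k) : In (dy k 0) (cor k j) W0.o := fun z hz => by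
  have hs := sc_pos k
  have h1 : sc k * 2 ^ k = 1 := by simp [sc]
  have h2 : sc k ≤ 1 := pow_le_one₀ (by norm_num) (by norm_num)
  have key : ∀ (t : ℝ) (i : Fin (2 ^ k)), -1 < t ∧ t < 2 →
      -1 < sc k * (t + (i : ℕ)) ∧ sc k * (t + (i : ℕ)) < 2 := fun t i ht => by
    have h3 : ((i : ℕ) : ℝ) + 1 ≤ 2 ^ k := by exact_mod_cast i.2
    have h4 : (0 : ℝ) ≤ (i : ℕ) := Nat.cast_nonneg _
    constructor <;> nlinarith [ht.1, ht.2]
  rw [mem_W0] at hz ⊢
  rw [(ch_re k j z).1, (ch_re k j z).2]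
  exact ⟨key _ _ hz.1, key _ _ hz.2⟩

theorem in_rot : In (dy 0 1) 1 W0.o := fun z hz => by
  rw [mem_W0] at hz ⊢
  have : dy 0 1 = Complex.I := by simp [dy]
  simp only [this, Complex.add_re, Complex.I_mul_re, Complex.one_re, Complex.add_im,
    Complex.I_mul_im, Complex.one_im, add_zero]
  exact ⟨⟨by linarith [hz.2.2], by linarith [hz.2.1]⟩, hz.1⟩

theorem far_le {k : ℕ} {i j : Ix k} (h : Far i j) :
    ∀ x ∈ (img (dy k 0) (cor k i) W0).o, ∀ y ∈ (img (dy k 0) (cor k j) W0).o,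
      (2 : ℝ) ^ (-(k : ℤ)) / 2 ≤ ‖x - y‖ := by
  intro x hx y hy
  have hs := sim_dy k 0
  have h0 := sc_pos k
  have hx' := mem_W0.1 ((hs.mem_img' W0 x).2 hx)
  have hy' := mem_W0.1 ((hs.mem_img' W0 y).2 hy)
  have ex := ch_re k i ((x - cor k i) / dy k 0)
  have ey := ch_re k j ((y - cor k j) / dy k 0)
  rw [mul_div_add hs.ne] at ex ey
  have r1 := abs_le.1 (Complex.abs_re_le_norm (x - y))
  have r2 := abs_le.1 (Complex.abs_im_le_norm (x - y))
  rw [Complex.sub_re, ex.1, ey.1] at r1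
  rw [Complex.sub_im, ex.2, ey.2] at r2
  rw [← sc_eq]
  rcases h with h | h | h | h <;> have h' := (Nat.cast_le (α := ℝ)).2 h <;> push_cast at h'
  · nlinarith [r1.1, hx'.1.2, hy'.1.1]
  · nlinarith [r1.2, hx'.1.1, hy'.1.2]
  · nlinarith [r2.1, hx'.2.2, hy'.2.1]
  · nlinarith [r2.2, hx'.2.1, hy'.2.2]

theorem ptF (h0 : M.E0) (h1 : M.E1m) (h2 : M.E2) (h6 : M.E6) : PtF M := by
  refine ⟨fun W k g F hF => ?_, fun k j b W g F h hF => ?_, in_cor, in_rot, fun k i j g h => ?_⟩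
  · simpa only [zero_add] using tower_hat_m h1 0 W 0 k g hF
  · simpa only [zero_add] using cov_hat h0 h6 0 0 k j b g (h.img (sim_dy k j))
      (measurable_of_GGhat hF) (dep_of_GGhat hF)
  · exact indep_of_indep_of_le_right (indep_of_indep_of_le_left
      (indep_hat_Phat h0 h2 0 W0 k g (far_le h))
      (pxMeas k 0 _ _ fun z hz => ((sim_dy k 0).mem_img W0 z).2 hz).comap_le)
      (pxMeas k 0 _ _ fun z hz => ((sim_dy k 0).mem_img W0 z).2 hz).comap_le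

/-! ### Cameron-Martin -/

theorem le_ex (t : ℝ≥0∞) : t ≤ ex t := by
  induction t with
  | top => exact CR.Wt_ex_top.ge
  | coe t =>
    rw [← ENNReal.ofReal_coe_nnreal, CR.ex_ofReal t.coe_nonneg]
    exact ENNReal.ofReal_le_ofReal (by linarith [Real.add_one_le_exp (t : ℝ)])

theorem lip_of_VV {Θ R0 : ℝ} (hΘ : 96 ≤ Θ) {u : Fn} (h0 : |u 0| ≤ R0)
    (hu : VV Θ u ≤ ENNReal.ofReal R0) (k : ℕ) (j : Ix k) : |u (cor k j)| ≤ 2 * |R0| ∧
      LipschitzOnWith (2 * |R0|).toNNReal u (csq (cor k j) 1) := by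
  have hR : 0 ≤ R0 := (abs_nonneg _).trans h0
  rw [abs_of_nonneg hR]
  constructor
  · have := (ENNReal.ofReal_le_ofReal_iff hR).1 ((VV_osc hΘ k j u).trans hu)
    linarith [Real.add_one_le_exp |u (cor k j) - u 0|, abs_sub_abs_le_abs_sub (u (cor k j)) (u 0)]
  · have h1 : CR.lip u (Metric.ball y0 48) ≤ (2 * R0).toNNReal := by
      have e : oo 0 y0 u = CR.lip u (Metric.ball y0 48) := by
        rw [oo, sc_zero, ENNReal.ofReal_one, one_mul, mul_one]
      refine e.ge.trans (le_trans ?_ (((le_ex _).trans hu).trans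
        (ENNReal.ofReal_le_ofReal (by linarith))))
      exact le_mul_of_one_le_left' (ENNReal.one_le_ofReal.2 (by linarith))
    refine (CR.lipschitzOnWith_of_lip_le h1).mono fun z hz => mem_ball_iff_norm.2 ?_
    have h2 := in_cor k j 0 (mem_W0.2 (by norm_num))
    rw [mul_zero, zero_add] at h2
    have h3 : ‖cor k j - y0‖ ≤ 2 * (3 / 2) := norm_le_of_csq (osq_subset_csq _ _ h2)
    linarith [norm_le_of_csq hz, norm_sub_le_norm_sub_add_norm_sub z (cor k j) y0]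

theorem ptCM (h0 : M.E0) (h6 : M.E6) (h8 : M.E8) {Θ p : ℝ} (hΘ : 96 ≤ Θ) (hp : 1 < p) :
    PtCM M Θ p := by
  intro s R0 ε hε
  obtain ⟨m₀, hm⟩ := E8_hat h0 h8 p s (2 * |R0|) ε hp (by positivity) hε
  refine ⟨m₀, fun m h j c u F E k1 k2 hF hE => ?_⟩
  have hs := sim_dy m 0
  have hloc : Measurable[GGhat (osq (cor m j) (3 * sc m))] fun x : Xi => F (chX m j x) := by
    refine hF.comp (pxMeas m 0 _ _ fun z hz => ?_)
    have h3 : z ∈ osq 0 3 := by
      rw [mem_W0] at hz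
      simp only [osq, mem_ofPred_eq, abs_lt, Complex.zero_re, Complex.zero_im]
      refine ⟨⟨?_, ?_⟩, ?_, ?_⟩ <;> linarith [hz.1.1, hz.1.2, hz.2.1, hz.2.2]
    have := (hs.mem_img (b := cor m j) (0, 3) z).2 h3
    rwa [img, mul_zero, zero_add, dy_zero, norm_sc, mul_comm (sc m), ← dy_zero] at this
  have e : errX M 0 W0 p s ε m (cor m j) (cst c) (fun x => F (chX m j x)) = E := by
    rw [hE, errX, ENNReal.ofReal_mul hε.le, ee, Real.rpow_def_of_pos two_pos]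
    congr 2
    · congr 2
      ring
    · refine lintegral_congr fun η => ?_
      have := cov_hat h0 h6 0 0 m 0 (cor m j) (cst c + η) ((in_cor m j).img hs)
        (measurable_of_GGhat (hF.pow_const p)) (dep_of_GGhat (hF.pow_const p))
      rw [zero_add, ← res_eq] at this
      rw [← this, ee, neg_mul]
      rfl
  rw [← e]
  exact hm m h 0 W0 _ (cst c) u (lip_of_VV hΘ k1 k2 m j).1 (lip_of_VV hΘ k1 k2 m j).2 _ hloc

/-! ### mass and number of points of the unit box -/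

theorem mem_S0 {z : ℂ} : z ∈ S0 ↔ 0 ≤ z.re ∧ z.re < 1 ∧ 0 ≤ z.im ∧ z.im < 1 := by
  simp [S0, Walk.box]

theorem mem_osq_y0 {z : ℂ} {r : ℝ} :
    z ∈ osq y0 r ↔ |z.re - 1 / 2| < r ∧ |z.im - 1 / 2| < r := by
  simp [osq, y0, ctr, sc_zero]

theorem S0_subset : S0 ⊆ osq y0 1 := fun z hz => by
  rw [mem_S0] at hz
  rw [mem_osq_y0, abs_lt, abs_lt]
  refine ⟨⟨?_, ?_⟩, ?_, ?_⟩ <;> linarith [hz.1, hz.2.1, hz.2.2.1, hz.2.2.2]

theorem measurable_mS : Measurable fun c : Cf => c.2 S0 :=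
  (Measure.measurable_coe measurableSet_S0).comp measurable_snd

theorem lintegral_fst (L : ℝ) (W : Sq) (n : ℤ) (g : Fn) {F : Cf → ℝ≥0∞} (hF : Measurable F) :
    ∫⁻ x, F x.1 ∂M.Phat L W n g = ∫⁻ c, F c ∂M.Pk n g := by
  rw [lintegral_Phat _ _ _ _ _ (F := fun x => F x.1) (hF.comp measurable_fst)]
  simp

theorem moment_S0 (hw : M.EW) (h6 : M.E6) {p Θ : ℝ} (hp : 0 < p) (h4 : M.E4 p)
    (hΘ : 96 * (p * M.γ) ≤ Θ) : ∃ C : ℝ≥0, ∀ g : Fn,
      ∫⁻ c, c.2 S0 ^ p ∂M.Pk 0 g ≤ C * ee (p * M.γ * g 0) * VV Θ g := by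
  obtain ⟨C, hC⟩ := moment_Pk hw h6 hp h4 (ρ := 1) (by norm_num)
  have hγ := mul_pos hp M.γ_pos
  refine ⟨C, fun g => ?_⟩
  have h := hC 0 y0 g
  rw [sc_zero, one_mul, Nat.cast_zero] at h
  rw [mul_assoc]
  refine (lintegral_mono fun c => ENNReal.rpow_le_rpow (measure_mono S0_subset) hp.le).trans
    (h.trans (mul_le_mul_right (wt_le_VV _ _ (by nlinarith) ?_ g) _))
  rw [abs_of_pos hγ]
  linarith

theorem K_mu (hw : M.EW) (h6 : M.E6) {p Θ : ℝ} (hp : 0 < p) (h4 : M.E4 p)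
    (hΘ : 96 * (p * M.γ) ≤ Θ) : ∃ C : ℝ≥0, ∀ g : Fn,
      ∫⁻ x, ENNReal.ofReal (muX x ^ p) ∂M.Phat 0 W0 0 g ≤ C * ee (p * M.γ * g 0) * VV Θ g := by
  obtain ⟨C, hC⟩ := moment_S0 hw h6 hp h4 hΘ
  refine ⟨C, fun g => le_trans ?_ (hC g)⟩
  rw [← lintegral_fst 0 W0 0 g (measurable_mS.pow_const p)]
  refine lintegral_mono fun x => ?_
  rw [muX, ← ENNReal.ofReal_rpow_of_nonneg ENNReal.toReal_nonneg hp.le]
  exact ENNReal.rpow_le_rpow ENNReal.ofReal_toReal_le hp.le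

theorem NX_eq (x : Xi) : NX x = ((pts x.2.1 ∩ S0).ncard : ℝ) := by
  rw [NX, ← ncard_coe_finset]
  congr 2
  ext z
  rw [Finset.mem_coe, Walk.FC.mem_pts, fc0, Y0,
    LQ.Met.mem_lfc ((PPP.pts_finite _).inter_of_left _)]
  exact ⟨fun h => ⟨h.1.1, h.2⟩, fun h => ⟨⟨h.1, S0_subset_W0 h.2⟩, h.2⟩⟩

theorem measurable_nc : Measurable fun x : Tup => ((pts x ∩ S0).ncard : ℝ≥0∞) :=
  measurable_from_top.comp (PPP.meas_ncard measurableSet_S0)

theorem lintegral_nc (n : ℤ) (g : Fn) {φ : ℝ≥0∞ → ℝ≥0∞} (hφ : Measurable φ) :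
    ∫⁻ x, φ (pts x.2.1 ∩ S0).ncard ∂M.Phat 0 W0 n g =
      ∫⁻ c, ∫⁻ x, φ (pts x ∩ S0).ncard ∂ppp (inten 1 W0 c) ∂M.Pk n g := by
  rw [lintegral_Phat _ _ _ _ _ (F := fun x => φ (pts x.2.1 ∩ S0).ncard)
    ((hφ.comp measurable_nc).comp measurable_snd.fst)]
  refine lintegral_congr fun c => ?_
  rw [pt2K_apply, lintegral_pp2_fst _ _ (f := fun x => φ (pts x ∩ S0).ncard)
    (hφ.comp measurable_nc), mul_zero, neg_zero, Real.exp_zero]

theorem lintegral_nc_rpow (m : Measure ℂ) [IsFiniteMeasure m] {p : ℝ} (h1 : 1 ≤ p) (h2 : p ≤ 2) :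
    ∫⁻ x, ((pts x ∩ S0).ncard : ℝ≥0∞) ^ p ∂ppp m ≤ 2 * (1 + m S0 ^ p) := by
  have hp : 0 < p := one_pos.trans_le h1
  have e : ∀ t : ℝ≥0∞, (t ^ p) ^ (2 / p) = t ^ 2 := fun t => by
    rw [← ENNReal.rpow_mul, mul_div_cancel₀ _ hp.ne', ENNReal.rpow_two]
  have k : (∫⁻ x, ((pts x ∩ S0).ncard : ℝ≥0∞) ^ p ∂ppp m) ^ (2 / p) ≤
      ∫⁻ x, (((pts x ∩ S0).ncard : ℝ≥0∞) ^ p) ^ (2 / p) ∂ppp m := by
    rcases h2.eq_or_lt with rfl | h
    · simp
    · exact lintegral_rpow_le _ (measurable_nc.pow_const p) ((one_lt_div hp).2 h)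
  simp only [e] at k
  have k2 : m S0 + m S0 ^ 2 ≤ ((1 + m S0) ^ p) ^ (2 / p) := by
    rw [e, add_sq, one_pow, mul_one, two_mul, add_assoc, add_assoc, add_comm 1]
    exact le_add_right le_add_self
  refine ((ENNReal.rpow_le_rpow_iff (by positivity)).1
    ((k.trans (PPP.lintegral_sq_le m measurableSet_S0)).trans k2)).trans
    ((ENNReal.rpow_add_le_mul_rpow_add_rpow _ _ h1).trans ?_)
  rw [ENNReal.one_rpow]
  refine mul_le_mul_left ?_ _
  exact (ENNReal.rpow_le_rpow_of_exponent_le one_le_two (by linarith : p - 1 ≤ 1)).trans_eq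
    (ENNReal.rpow_one _)

theorem K_N (hw : M.EW) (h6 : M.E6) {p : ℝ} (h1 : 1 ≤ p) (h2 : p ≤ 2) (h4 : M.E4 p) :
    ∃ C : ℝ≥0, ∀ c : ℝ, ∫⁻ x, ENNReal.ofReal (NX x ^ p) ∂M.Phat 0 W0 0 (cst c) ≤
      C * (1 + ee (p * M.γ * c)) := by
  have hp : 0 < p := one_pos.trans_le h1
  obtain ⟨C, hC⟩ := moment_S0 hw h6 hp h4 le_rfl
  refine ⟨2 * (1 + C), fun c => ?_⟩
  have h := hC (cst c)
  rw [← zero_add (cst c), VV_cst, VV_zero, mul_one, zero_add, cst_apply] at h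
  simp only [NX_eq, ← ENNReal.ofReal_rpow_of_nonneg (Nat.cast_nonneg _) hp.le,
    ENNReal.ofReal_natCast]
  rw [lintegral_nc 0 _ (φ := fun t => t ^ p) (measurable_id.pow_const p)]
  refine (lintegral_mono (g := fun e : Cf => 2 * (1 + e.2 S0 ^ p)) fun e =>
    (lintegral_nc_rpow _ h1 h2).trans ?_).trans ?_
  · have := inten_apply_le (a := 1) W0 e S0
    rw [ENNReal.ofReal_one, one_mul] at this
    exact mul_le_mul_right (add_le_add_right (ENNReal.rpow_le_rpow this hp.le) 1) 2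
  · rw [lintegral_const_mul' _ _ ENNReal.ofNat_ne_top, lintegral_add_left measurable_const,
      lintegral_const, measure_univ, mul_one]
    push_cast
    rw [mul_assoc]
    refine mul_le_mul_right ((add_le_add_right h 1).trans ?_) _
    rw [add_mul, one_mul, mul_add]
    exact add_le_add le_self_add le_add_self

theorem lintegral_muX (h0 : M.E0) (n : ℤ) (g : Fn) :
    ∫⁻ x, ENNReal.ofReal (muX x) ∂M.Phat 0 W0 n g = ∫⁻ ω, (M.cf n g ω).2 S0 ∂M.P := by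
  rw [← lintegral_map measurable_mS (M.measurable_cf n g), ← M.Pk_eq]
  exact (lintegral_fst 0 W0 n g measurable_mS.ennreal_toReal.ennreal_ofReal).trans
    (lintegral_congr_ae ((ae_fin h0 n g W0).mono fun c hc =>
      ENNReal.ofReal_toReal ((measure_mono S0_subset_W0).trans_lt hc).ne))

theorem mu_low (h0 : M.E0) (hw : M.EW) (h4 : M.E4m) : ∃ c0 : ℝ, 0 < c0 ∧ ∀ c : ℝ,
    ENNReal.ofReal c0 * ee (M.γ * c) ≤ ∫⁻ x, ENNReal.ofReal (muX x) ∂M.Phat 0 W0 0 (cst c) := by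
  obtain ⟨c₀, hc, h⟩ := h4
  have v1 : volume S0 ≠ ∞ := ((measure_mono (S0_subset.trans (osq_subset_csq _ _))).trans_lt
    (isCompact_csq _ _).measure_lt_top).ne
  have v0 : volume S0 ≠ 0 := by
    refine (((isOpen_osq y0 (1 / 2)).measure_pos volume ⟨y0, by simp [osq]⟩).trans_le
      (measure_mono fun z hz => ?_)).ne'
    rw [mem_osq_y0, abs_lt, abs_lt] at hz
    exact mem_S0.2 ⟨by linarith [hz.1.1], by linarith [hz.1.2], by linarith [hz.2.1],
      by linarith [hz.2.2]⟩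
  have v2 : c₀ * volume S0 ≠ ∞ := ENNReal.mul_ne_top ENNReal.coe_ne_top v1
  refine ⟨_, ENNReal.toReal_pos (mul_ne_zero (ENNReal.coe_ne_zero.2 hc.ne') v0) v2, fun c => ?_⟩
  rw [ENNReal.ofReal_toReal v2, lintegral_muX h0, ← h S0 measurableSet_S0,
    ← lintegral_mul_const' _ _ (ee_ne_top _)]
  refine lintegral_mono_ae ((hw 0 0 (cst c)).mono fun ω k => le_of_eq ?_)
  rw [k.2, cf_zero, withDensity_apply _ measurableSet_S0]
  simp only [cst_apply, ContinuousMap.zero_apply, sub_zero, setLIntegral_const]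
  exact mul_comm _ _

theorem mu_le_N (h0 : M.E0) (n : ℤ) (g : Fn) :
    ∫⁻ x, ENNReal.ofReal (muX x) ∂M.Phat 0 W0 n g ≤
      ∫⁻ x, ENNReal.ofReal (NX x) ∂M.Phat 0 W0 n g := by
  simp only [NX_eq, ENNReal.ofReal_natCast]
  rw [lintegral_muX h0, lintegral_nc n g (φ := fun t => t) measurable_id, M.Pk_eq]
  refine le_trans (lintegral_mono_ae ((h0 n g).mono fun ω k => ?_))
    (le_of_eq (lintegral_map (f := fun c => ∫⁻ x, ((pts x ∩ S0).ncard : ℝ≥0∞) ∂ptK 1 W0 c)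
      measurable_nc.lintegral_kernel (M.measurable_cf n g)).symm)
  have e : inten 1 W0 (M.cf n g ω) = (M.cf n g ω).2.restrict W0.o := by
    rw [inten, if_pos (lt_top_of_locFin k.2.1 W0), ENNReal.ofReal_one, one_smul]
  have : NullSingletonClass (inten 1 W0 (M.cf n g ω)) := ⟨fun z => by
    rw [e]
    exact le_antisymm ((Measure.restrict_le_self _).trans_eq (k.2.2.2 z)) zero_le⟩
  refine le_of_eq_of_le ?_ (PPP.lintegral_ncard (inten 1 W0 (M.cf n g ω)) measurableSet_S0).ge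
  rw [e, Measure.restrict_apply measurableSet_S0, inter_eq_left.2 S0_subset_W0]

/-! ### almost sure properties -/

theorem ae_null (hw : M.EW) (h4 : M.E4m) (g : Fn) {N : Set ℂ} (hN : MeasurableSet N)
    (h : volume N = 0) : ∀ᵐ ω ∂M.P, (M.cf 0 g ω).2 N = 0 := by
  obtain ⟨c₀, -, k⟩ := h4
  have k1 := k N hN
  rw [h, mul_zero] at k1
  filter_upwards [(lintegral_eq_zero_iff (f := fun ω => M.μ (M.H 0 ω) N)
    ((Measure.measurable_coe hN).comp (M.hμ.meas.comp (M.meas_H 0)))).1 k1, hw 0 0 g] with ω k2 k3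
  rw [k3.2, cf_zero]
  exact withDensity_absolutelyContinuous _ _ k2

/-- A measurable property holds almost surely as soon as it follows from regularity of the
configuration and from the points lying in the window and outside a Lebesgue null set. -/
theorem ae_Phat_off (h0 : M.E0) (hw : M.EW) (h4 : M.E4m) (L : ℝ) (W : Sq) (g : Fn) {N : Set ℂ}
    (hN : MeasurableSet N) (h : volume N = 0) {q : Xi → Prop} (hq : MeasurableSet {x | q x})
    (H : ∀ x : Xi, IsGood x.1 → IsLocallyFiniteMeasure x.1.2 → x.1.2.IsOpenPosMeasure →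
      (∀ z, x.1.2 {z} = 0) → x.1.2 N = 0 → pts x.2.1 ⊆ W.o \ N → pts x.2.2 ⊆ W.o \ N → q x) :
    ∀ᵐ x ∂M.Phat L W 0 g, q x := by
  have hW := (measurableSet_o W).diff hN
  have hq' : MeasurableSet {x | ¬ q x} := hq.compl
  rw [ae_iff, Phat_apply, Measure.compProd_apply hq', M.Pk_eq,
    lintegral_map (Kernel.measurable_kernel_prodMk_left hq') (M.measurable_cf 0 g)]
  refine (lintegral_congr_ae ?_).trans lintegral_zero
  filter_upwards [h0 0 g, ae_null hw h4 g hN h] with ω k k'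
  have key : ∀ a : ℝ, ∀ᵐ x ∂ppp (inten a W (M.cf 0 g ω)), pts x ⊆ W.o \ N := fun a => by
    refine PPP.ae_pts_subset _ hW ?_
    rw [inten, if_pos (lt_top_of_locFin k.2.1 W), Measure.smul_apply,
      Measure.restrict_apply hW.compl, measure_mono_null (fun z hz => ?_) k', smul_zero]
    by_contra hz'
    exact hz.1 ⟨hz.2, hz'⟩
  rw [pt2K_apply]
  refine ae_iff.1 ?_
  filter_upwards [Measure.quasiMeasurePreserving_fst.ae (key _),
    Measure.quasiMeasurePreserving_snd.ae (key _)] with z k1 k2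
  exact H (M.cf 0 g ω, z) k.1 k.2.1 k.2.2.1 k.2.2.2 k' k1 k2

theorem volume_frontier_S0 : volume (frontier S0) = 0 := by
  refine Convex.addHaar_frontier volume ?_
  rw [show S0 = Complex.reLm ⁻¹' Ico 0 1 ∩ Complex.imLm ⁻¹' Ico 0 1 from
    Set.ext fun z => by simp [mem_S0, and_assoc]]
  exact ((convex_Ico 0 1).linear_preimage _).inter ((convex_Ico 0 1).linear_preimage _)

end Pool.Agent.Lib.MP_0d9445_pr.HO
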