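import Pool.Agent.Lib.MP_0d9445_pr.HO.InstDom
import Pool.Agent.Lib.MP_0d9445_pr.HO.InstPt
import Pool.Agent.Lib.MP_0d9445_pr.HO.All
import Pool.Agent.Lib.MP_0d9445_pr.EN.All

/-! Module HO: the abstract data of a model and the output in terms of the model. -/

open MeasureTheory ProbabilityTheory Set Filter Topology LQ.Met
open scoped ENNReal NNReal

noncomputable section

namespace Pool.Agent.Lib.MP_0d9445_pr.HO

open PPP CR Cell EN

/-- a closed condition holds almost surely for all parameters at once -/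
theorem ae_forall_le {X : Type*} [MeasurableSpace X] {μ : Measure X} {f g : ℂ → X → ℝ}
    {E : X → Prop} (hf : ∀ x, E x → Continuous fun q => f q x)
    (hg : ∀ x, E x → Continuous fun q => g q x) (h : ∀ q, ∀ᵐ x ∂μ, E x → f q x ≤ g q x) :
    ∀ᵐ x ∂μ, E x → ∀ q, f q x ≤ g q x := by
  obtain ⟨D, hc, hD⟩ := TopologicalSpace.exists_countable_dense ℂ
  filter_upwards [(ae_ball_iff hc).2 fun q _ => h q] with x hx hE q
  exact hD.induction (P := fun q => f q x ≤ g q x) (fun q hq => hx q hq hE)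
    (isClosed_le (hf x hE) (hg x hE)) q

variable {M : Model} {p Θ : ℝ}

theorem ae_PL_good (h0 : M.E0) (g : Fn) {E : EN.XL W0.o → Prop} (hE : MeasurableSet {x | E x})
    (h : ∀ x : Xi, IsGood x.1 → E (toXL _ x)) : ∀ᵐ x ∂(PL M 0 W0 0 g), E x :=
  ae_PL 0 W0 0 g hE (ae_Phat_good h0 W0 0 g (measurable_toXL _ hE) h)

theorem ae_frontier (h0 : M.E0) (hw : M.EW) (h4 : M.E4m) (g : Fn) {E : Xi → Prop}
    (hE : MeasurableSet {x | E x})
    (h : ∀ x : Xi, IsGood x.1 → Disjoint (pts x.2.1) (frontier S0) → E x) :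
    ∀ᵐ x ∂(M.Phat 0 W0 0 g), E x :=
  ae_Phat_off h0 hw h4 0 W0 g isClosed_frontier.measurableSet volume_frontier_S0 hE
    fun x hg _ _ _ _ k _ => h x hg (disjoint_left.2 fun _ hz => (k hz).2)

/-- the abstract data of a model -/
theorem exists_data (F : M.All) :
    ∃ (d : ℕ) (D : Data (EN.XL W0.o)), 7 ≤ d ∧ D.γ = M.γ ∧ D.Ginf = M.Ginf ∧
      D.P 0 = PL M 0 W0 0 ∧ D.Loc = LocX M.ξ d ∧ D.nu = nuX M.ξ d ∧ D.pi = piX M.ξ d ∧
      D.mu = muX ∧ D.lay = M.lay 0 ∧ ∃ Θ : ℝ, 0 ≤ Θ ∧ D.V = VV Θ := by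
  obtain ⟨p, h⟩ := F.base
  have hm := measLoc
  have hx := pxMeas
  obtain ⟨d1, d2, d3, d4, d5, d6, d7, d8, d9⟩ := det
  obtain ⟨d, Θ₀, C, h7, hK⟩ := exists_K h hm ⟨d7, d8⟩
  obtain ⟨p1, p2, p3, p4, p5⟩ := ptF F.e0 F.e1m F.e2 F.e6
  have hp0 : 0 < p := zero_lt_one.trans h.one_lt
  have hσ : 0 < p * M.γ := mul_pos hp0 M.γ_pos
  set Θ := max (max Θ₀ 96) (96 * (p * M.γ)) with hΘ
  have t1 : Θ₀ ≤ Θ := (le_max_left _ _).trans (le_max_left _ _)
  have t2 : 96 ≤ Θ := (le_max_right _ _).trans (le_max_left _ _)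
  obtain ⟨C1, hmu⟩ := K_mu F.ew F.e6 hp0 h.e4 (le_max_right _ _ : _ ≤ Θ)
  obtain ⟨C2, hN⟩ := K_N F.ew F.e6 h.one_lt.le h.le_two h.e4
  obtain ⟨c0, hc0, hlow⟩ := mu_low F.e0 F.ew F.e4m
  obtain ⟨l1, l2, l3, l4, l5, l6, l7, l8, l9, l10, l11, l12, l13, l14, l15⟩ :=
    layF M (M.casc h 0 le_rfl W0) (fun _ => rfl) t2
  have hL : MeasurableSet (α := EN.XL W0.o) (LocX M.ξ d) := measurableSet_LocX h h7
  have pL : Measurable fun x : EN.XL W0.o => x ∈ LocX M.ξ d := measurableSet_setOfPred.1 hL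
  have mch : ∀ k j, Measurable (α := EN.XL W0.o) (β := EN.XL W0.o) (chX k j) := fun k j =>
    hx k 0 (cor k j) _ (p3 k j)
  have mrot : Measurable (α := EN.XL W0.o) (β := EN.XL W0.o) rotX := hx 0 1 1 _ p4
  have mnu : ∀ q, Measurable (α := EN.XL W0.o) (nuX M.ξ d q) := fun q => (hm.1 q).indicator hL
  have mpi : Measurable (α := EN.XL W0.o) (piX M.ξ d) := hm.2.1.indicator hL
  have mmu : Measurable (α := EN.XL W0.o) muX := hm.2.2.1
  have mN : Measurable (α := EN.XL W0.o) NX := hm.2.2.2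
  have gch : ∀ k j (x : Xi), IsGood x.1 → IsGood (chX k j x).1 := fun k j x hg =>
    d9 _ _ _ (sim_dy k 0).ne hg
  have grot : ∀ x : Xi, IsGood x.1 → IsGood (rotX x).1 := fun x hg => d9 _ _ _ (sim_dy 0 1).ne hg
  have cnu : ∀ x : Xi, Continuous fun q => nuX M.ξ d q x := fun x => by
    by_cases hx : x ∈ LocX M.ξ d
    · simpa only [nuX, indicator_of_mem hx] using d6 x
    · simpa only [nuX, indicator_of_notMem hx] using continuous_const
  have cov : ∀ (k : ℤ) (j : ℕ) (b : ℂ) (g : Fn) (hI : In (dy k j) b W0.o),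
      (PL M 0 W0 k g).map (chL W0 (dy k j) b) =
        PL M 0 W0 0 (MP_0d9445_pr.res M.Q (dy k j) b g) := fun k j b g hI => by
    have hmeas : Measurable (chL W0 (dy k j) b) := hx k j b _ hI
    refine Measure.ext_of_lintegral _ fun F hF => ?_
    rw [lintegral_map hF hmeas, lintegral_PL _ _ _ _
      (F := fun x => F (chL W0 (dy k j) b x)) (hF.comp hmeas), lintegral_PL _ _ _ _ hF]
    exact p2 k j b W0 g F hI hF
  refine ⟨d, {
    γ := M.γ
    Q := M.Q
    p := p
    a := 1
    c0 := c0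
    C := C + (C1 + C2)
    γ_pos := M.γ_pos
    one_lt := h.one_lt
    le_two := h.le_two
    a_pos := one_pos
    c0_pos := hc0
    zγ := (M.casc h 0 le_rfl W0).zγ
    zp := (M.casc h 0 le_rfl W0).zσ
    P := fun k => PL M 0 W0 k
    lay := M.lay 0
    Ginf := M.Ginf
    P_markov := fun _ => inferInstance
    lay_prob := l1
    Ginf_prob := l2
    V := VV Θ
    ch := chX
    rot := rotX
    Loc := LocX M.ξ d
    nu := nuX M.ξ d
    pi := piX M.ξ d
    mu := muX
    N := NX
    V_meas := l9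
    ch_meas := mch
    rot_meas := mrot
    Loc_meas := hL
    nu_meas := mnu
    pi_meas := mpi
    mu_meas := mmu
    N_meas := mN
    nu_nonneg := fun q => indicator_nonneg fun x _ => d7 q x
    pi_nonneg := indicator_nonneg fun x _ => d8 x
    mu_nonneg := fun _ => ENNReal.toReal_nonneg
    N_nonneg := fun _ => Nat.cast_nonneg _
    tower := fun k g F hF => ?_
    cov := fun k j g => ?_
    ind := fun k i j g hij => ?_
    lay_tr := fun k j => l5 k _
    lay_rot := l6
    rot_map := fun g => ?_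
    shape := fun k j => l7 k _
    Ginf_zero := l8
    one_le_V := l10
    V_cst := l11
    V_zero := l12
    V_osc := l13
    V_Ginf := l14
    V_lay := l15
    cm := fun s _ R0 ε hε => ?_
    sub := fun k g => ?_
    mu_add := fun k g => ?_
    para := fun g => ae_of_all _ fun x => ?_
    nu_rot := fun g => ?_
    N_le := fun g => ?_
    K_loc := fun g => ?_
    K_nu := fun g q hq => ?_
    K_pi := fun g => ?_
    K_mu := fun g => ?_
    K_N := fun c => ?_
    mu_low := fun c => ?_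
    mu_le_N := fun c => ?_ }, h7, rfl, rfl, rfl, rfl, rfl, rfl, rfl, rfl, Θ,
      le_trans (by norm_num) t2, rfl⟩
  · simp only [lintegral_PL _ _ _ _ hF]
    exact p1 W0 k g _ (hF.comp (measurable_toXL _))
  · rw [l3]
    exact cov k 0 _ g (p3 k j)
  · exact ind_PL F.e0 F.e2 0 k g (sim_dy k 0) (sim_dy k 0) ((p3 k i).img (sim_dy k 0))
      ((p3 k j).img (sim_dy k 0)) (far_le hij)
  · rw [l4]
    exact cov 0 1 1 g p4
  · obtain ⟨m0, hm0⟩ := ptCM F.e0 F.e6 F.e8 t2 h.one_lt s R0 ε hε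
    refine ⟨m0, fun m hm j c u F E h1 h2 hF hE => ?_⟩
    have hF' : Measurable fun x : EN.XL W0.o => F (chX m j x) := hF.comp (mch m j)
    simp only [Nat.cast_zero, lintegral_PL _ _ _ _ hF', lintegral_PL _ _ _ _ (hF.pow_const p)]
      at hE ⊢
    exact hm0 m hm j c u F E h1 h2 hF hE
  · have mE : Measurable fun x : EN.XL W0.o => x ∈ LocX M.ξ d ∧ ∀ j, chX k j x ∈ LocX M.ξ d :=
      pL.and (Measurable.forall fun j => pL.comp (mch k j))
    have key : ∀ x : Xi, IsGood x.1 → (x ∈ LocX M.ξ d ∧ ∀ j, chX k j x ∈ LocX M.ξ d) →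
        (∀ q, nuX M.ξ d q x ≤ (∑ j, nuX M.ξ d q (chX k j x)) / 4 ^ k) ∧
          piX M.ξ d x = ∑ j, piX M.ξ d (chX k j x) := fun x hg hE => by
      simp only [nuX, piX, indicator_of_mem hE.1, indicator_of_mem (hE.2 _)]
      exact d1 x k hg (shield_of_good h7 hE.1 hg) fun j =>
        shield_of_good h7 (hE.2 j) (gch k j x hg)
    have a1 := ae_forall_le (μ := PL M 0 W0 0 g) (f := fun q x => nuX M.ξ d q x)
      (g := fun q x => (∑ j, nuX M.ξ d q (chX k j x)) / 4 ^ k)
      (E := fun x => x ∈ LocX M.ξ d ∧ ∀ j, chX k j x ∈ LocX M.ξ d) (fun x _ => cnu x)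
      (fun x _ => (continuous_finsetSum _ fun j _ => cnu _).div_const _) fun q =>
        ae_PL_good h.e0 g (measurableSet_setOfPred.2 (mE.imp (measurableSet_setOfPred.1 (measurableSet_le (mnu q)
            ((Finset.measurable_sum _ fun j _ => (mnu q).comp (mch k j)).div_const _)))))
          fun x hg hE => (key x hg hE).1 q
    have a2 := ae_PL_good h.e0 g (E := fun x => (x ∈ LocX M.ξ d ∧ ∀ j, chX k j x ∈ LocX M.ξ d) →
        piX M.ξ d x = ∑ j, piX M.ξ d (chX k j x))
      (measurableSet_setOfPred.2 (mE.imp (measurableSet_setOfPred.1 (measurableSet_eq_fun mpi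
          (Finset.measurable_sum _ fun j _ => mpi.comp (mch k j)))))) fun x hg hE => (key x hg hE).2
    filter_upwards [a1, a2] with x h1 h2 e1 e2
    exact ⟨h1 ⟨e1, e2⟩, h2 ⟨e1, e2⟩⟩
  · have mE : MeasurableSet {x : EN.XL W0.o | muX x = ∑ j, muX (chX k j x)} :=
      measurableSet_eq_fun mmu (Finset.measurable_sum _ fun j _ => mmu.comp (mch k j))
    exact ae_PL 0 W0 0 g mE
      (ae_Phat M W0 0 g (measurable_toXL _ mE) ((h.e0 0 g).mono fun ω hω => ae_of_all _ fun y =>
        d4 (_, y) k ((measure_mono S0_subset_W0).trans_lt (lt_top_of_locFin hω.2.1 W0)).ne))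
  · revert x
    intro (x : Xi)
    by_cases hx : x ∈ LocX M.ξ d
    · simpa only [nuX, indicator_of_mem hx] using d5 x
    · simp [nuX, indicator_of_notMem hx]
  · have mE : Measurable fun x : EN.XL W0.o => x ∈ LocX M.ξ d ∧ rotX x ∈ LocX M.ξ d :=
      pL.and (pL.comp mrot)
    have a0 : ∀ q, ∀ᵐ x ∂(PL M 0 W0 0 g), (x ∈ LocX M.ξ d ∧ rotX x ∈ LocX M.ξ d) →
        nuX M.ξ d q (rotX x) = nuX M.ξ d (Complex.I * q) x := fun q => by
      have mq : MeasurableSet {x : EN.XL W0.o | (x ∈ LocX M.ξ d ∧ rotX x ∈ LocX M.ξ d) →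
          nuX M.ξ d q (rotX x) = nuX M.ξ d (Complex.I * q) x} :=
        measurableSet_setOfPred.2 (mE.imp
          (measurableSet_setOfPred.1 (measurableSet_eq_fun ((mnu q).comp mrot) (mnu _))))
      refine ae_PL 0 W0 0 g mq (ae_frontier F.e0 F.ew F.e4m g (measurable_toXL _ mq)
        fun x hg hD hE => ?_)
      have e1 : x ∈ LocX M.ξ d := hE.1
      have e2 : rotX x ∈ LocX M.ξ d := hE.2
      show nuX M.ξ d q (rotX x) = nuX M.ξ d (Complex.I * q) x
      simp only [nuX, indicator_of_mem e1, indicator_of_mem e2]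
      exact d2 x hg (shield_of_good h7 e1 hg) (shield_of_good h7 e2 (grot x hg)) hD q
    have c2 : ∀ x : Xi, Continuous fun q => nuX M.ξ d (Complex.I * q) x := fun x =>
      (cnu x).comp (continuous_const.mul continuous_id)
    filter_upwards [ae_forall_le (fun x _ => cnu (rotX x)) (fun x _ => c2 x)
      (fun q => (a0 q).mono fun x hx hE => (hx hE).le),
      ae_forall_le (fun x _ => c2 x) (fun x _ => cnu (rotX x))
      (fun q => (a0 q).mono fun x hx hE => (hx hE).ge)] with x h1 h2 e1 e2 q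
    exact le_antisymm (h1 ⟨e1, e2⟩ q) (h2 ⟨e1, e2⟩ q)
  · refine ae_PL_good h.e0 g (measurableSet_setOfPred.2 (pL.imp
      (measurableSet_setOfPred.1 (measurableSet_le mN mpi)))) fun x hg hE => ?_
    exact (d3 x hg (shield_of_good h7 hE hg)).trans_eq (indicator_of_mem hE pi0).symm
  · refine ((PL_set 0 W0 0 g hL.compl).trans_le (hK Θ t1 g).1).trans ?_
    gcongr
    exact le_self_add
  · rw [Nat.cast_zero, lintegral_PL _ _ _ _ ((mnu q).pow_const 2).ennreal_ofReal]
    refine ((hK Θ t1 g).2.1 q hq).trans ?_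
    gcongr
    exact le_self_add
  · rw [Nat.cast_zero, lintegral_PL _ _ _ _ (mpi.pow_const p).ennreal_ofReal]
    refine (hK Θ t1 g).2.2.trans ?_
    gcongr
    exact le_self_add
  · rw [Nat.cast_zero, lintegral_PL _ _ _ _ (mmu.pow_const p).ennreal_ofReal]
    refine (hmu g).trans ?_
    gcongr
    exact le_self_add.trans le_add_self
  · rw [Nat.cast_zero, lintegral_PL _ _ _ _ (mN.pow_const p).ennreal_ofReal]
    refine (hN c).trans ?_
    gcongr
    exact le_add_self.trans le_add_self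
  · rw [Nat.cast_zero, lintegral_PL _ _ _ _ mmu.ennreal_ofReal]
    exact hlow c
  · rw [Nat.cast_zero, lintegral_PL _ _ _ _ mmu.ennreal_ofReal,
      lintegral_PL _ _ _ _ mN.ennreal_ofReal]
    exact mu_le_N F.e0 0 _

theorem meas_scale (ξ γ t : ℝ) : Measurable (scale ξ γ t) :=
  ((continuous_const_smul _).measurable.comp measurable_fst).prodMk
    (Measure.measurable_of_measurable_coe _ fun _ hS =>
      ((Measure.measurable_coe hS).comp measurable_snd).const_mul _)

/-- the law of shape and height of the coarse field seen from a box of depth `n` -/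
def boxLaw (M : Model) (n : ℕ) (b : ℂ) : Measure (Fn × ℝ) :=
  (M.Ginf.prod (M.lay 0 n)).map fun w =>
    (shp n b (w.1 + w.2), (w.1 + w.2) b - n * M.Q * Real.log 2)

theorem measurable_box (Q : ℝ) (n : ℕ) (b : ℂ) : Measurable fun w : Fn × Fn =>
    (shp n b (w.1 + w.2), (w.1 + w.2) b - n * Q * Real.log 2) :=
  ((measurable_shp n b).comp measurable_add).prodMk
    (((measurable_ev b).comp measurable_add).sub_const _)

/-- the reference law seen from a box is a mixture of the laws of the unit box -/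
theorem ref_eq (F : M.All) {n : ℕ} {b : ℂ} {W : Sq} (hI : In (dy n 0) b W.o) (c : ℝ)
    {B : Set Xi} (hB : MeasurableSet[GGhat W0.o] B) :
    ∫⁻ e, pt2K M.γ 0 W (scale M.ξ M.γ c e)
        {y | pullX W0 (dy n 0) b (scale M.ξ M.γ c e, y) ∈ B} ∂M.ref =
      ∫⁻ w, ∫⁻ s, M.Phat 0 W0 0 (cst c + (w.1 + cst (w.2 + s))) B ∂gaussianReal 0 1
        ∂boxLaw M n b := by
  have := Ginf_prob M
  have := lay_prob M 0 n
  obtain ⟨p1, p2, -⟩ := ptF F.e0 F.e1m F.e2 F.e6
  have hB' : MeasurableSet B := GGhat_le _ _ hB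
  have hS : MeasurableSet (pullX W0 (dy n 0) b ⁻¹' B) := measurable_pullX _ _ _ hB'
  have hΦ : Measurable fun e => pt2K M.γ 0 W e (Prod.mk e ⁻¹' (pullX W0 (dy n 0) b ⁻¹' B)) :=
    Kernel.measurable_kernel_prodMk_left hS
  have hP : Measurable fun g => M.Phat 0 W0 0 g B := (M.Phat 0 W0 0).measurable_coe hB'
  have h1 : ∀ g : Fn, ∫⁻ e, pt2K M.γ 0 W (scale M.ξ M.γ c e)
      {y | pullX W0 (dy n 0) b (scale M.ξ M.γ c e, y) ∈ B} ∂M.Pk 0 g =
      ∫⁻ η, M.Phat 0 W0 0 (res M.Q n b (g + cst c + η)) B ∂M.lay 0 n := fun g => by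
    refine (lintegral_map hΦ (meas_scale _ _ c)).symm.trans ?_
    rw [F.e9, ← Measure.compProd_apply hS, ← Phat_apply, ← lintegral_indicator_one hS,
      p1 W n _ _ (measurable_one.indicator hS)]
    refine lintegral_congr fun η => ?_
    rw [res_eq, ← lintegral_indicator_one hB']
    exact p2 n 0 b W _ (B.indicator 1) hI
      (@Measurable.indicator _ _ _ _ (GGhat W0.o) _ _ measurable_const hB)
  have hk : Measurable fun q : Fn × ℝ => M.Pk 0 (q.1 + cst q.2) :=
    (M.Pk 0).measurable.comp (measurable_fst.add (measurable_cst.comp measurable_snd))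
  have h2 : Measurable fun z : (Fn × ℝ) × ℝ =>
      M.Phat 0 W0 0 (cst c + (z.1.1 + cst (z.1.2 + z.2))) B :=
    hP.comp (measurable_const.add (measurable_fst.fst.add
      (measurable_cst.comp (measurable_fst.snd.add measurable_snd))))
  have h3 : Measurable fun z : (Fn × ℝ) × Fn =>
      M.Phat 0 W0 0 (res M.Q n b (z.1.1 + cst z.1.2 + cst c + z.2)) B :=
    hP.comp ((measurable_res _ _ _).comp (((measurable_fst.fst.add
      (measurable_cst.comp measurable_fst.snd)).add_const _).add measurable_snd))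
  refine (Measure.lintegral_bind hk.aemeasurable (hΦ.comp (meas_scale _ _ c)).aemeasurable).trans ?_
  rw [boxLaw, lintegral_map h2.lintegral_prod_right' (measurable_box _ n b)]
  refine .trans ?_ (lintegral_prod _
    (h2.lintegral_prod_right'.comp (measurable_box _ n b)).aemeasurable).symm
  refine (lintegral_congr fun q => h1 _).trans ?_
  rw [lintegral_prod _ h3.lintegral_prod_right'.aemeasurable]
  refine lintegral_congr fun g => ?_
  refine (lintegral_lintegral_swap (f := fun (s : ℝ) (η : Fn) =>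
    M.Phat 0 W0 0 (res M.Q n b (g + cst s + cst c + η)) B) (h3.comp
      ((measurable_const.prodMk measurable_fst).prodMk measurable_snd)).aemeasurable).trans ?_
  refine lintegral_congr fun η => lintegral_congr fun s => ?_
  refine congrArg (fun u => M.Phat 0 W0 0 u B) ?_
  ext z
  simp [shp]
  ring

/-- OUTPUT of the module HO -/
theorem outM (F : M.All) : OutM M := by
  obtain ⟨d, D, h7, e1, e2, e3, e4, e5, e6, e7, -⟩ := exists_data F
  obtain ⟨A, κ, K, hA, hκ, h⟩ := D.out
  have eb : ∀ η c, D.bad A κ η c = badX M.γ M.ξ d A κ η c := fun η c => by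
    simp only [Data.bad, e1, e4, e5, e6, e7]
    rfl
  have mb : ∀ η c, MeasurableSet (D.bad A κ η c) := fun η c => by
    have k : ∀ (t : ℝ) {f : EN.XL W0.o → ℝ}, Measurable f → MeasurableSet {x | t < |f x|} :=
      fun t f hf => measurableSet_lt measurable_const hf.norm
    exact D.Loc_meas.compl.union ((k _ ((D.nu_meas _).sub_const _)).union
      ((k _ ((D.nu_meas _).sub_const _)).union ((k _ ((D.nu_meas _).sub_const _)).union
        (k _ (D.pi_meas.sub (D.mu_meas.const_mul _))))))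
  refine ⟨d, A, κ, K, h7, hA, hκ, fun η c => eb η c ▸ mb η c, fun n b W hI η hη => ?_⟩
  have := Ginf_prob M
  have := lay_prob M 0 n
  refine (h (boxLaw M n b) ⟨Measure.isProbabilityMeasure_map (measurable_box _ n b).aemeasurable,
    ?_⟩ η hη).congr fun c => ?_
  · rw [boxLaw, Measure.map_map measurable_fst (measurable_box _ n b), e2]
    exact shape_lay M n b
  · rw [ref_eq F hI c (eb η c ▸ mb η c), Data.rf, e3, ← eb]
    simp only [PL_set _ _ _ _ (mb η c)]
    rfl

end Pool.Agent.Lib.MP_0d9445_pr.HO
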