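import Pool.Agent.Lib.MP_0d9445_pr.HO.Defs

/-! Module HO: elementary lemmas shared by all files. -/

open MeasureTheory ProbabilityTheory Set Filter Topology
open scoped ENNReal NNReal

noncomputable section

namespace Pool.Agent.Lib.MP_0d9445_pr.HO

@[simp] theorem cst_apply (t : ℝ) (z : ℂ) : cst t z = t := rfl

@[simp] theorem res_apply (Q : ℝ) (k : ℕ) (b : ℂ) (g : Fn) (z : ℂ) :
    res Q k b g z = g (b + z / 2 ^ k) - k * Q * Real.log 2 := rfl

@[simp] theorem shp_apply (k : ℕ) (b : ℂ) (g : Fn) (z : ℂ) :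
    shp k b g z = g (b + z / 2 ^ k) - g b := rfl

@[simp] theorem rotF_apply (g : Fn) (z : ℂ) : rotF g z = g (Complex.I * z + 1) := rfl

@[simp] theorem cor_zero (k : ℕ) : cor k 0 = 0 := by simp [cor]

theorem cst_add (s t : ℝ) : cst (s + t) = cst s + cst t := by ext; simp

@[simp] theorem cst_zero : cst 0 = 0 := by ext; simp

theorem res_cst_add (Q : ℝ) (k : ℕ) (b : ℂ) (c : ℝ) (g : Fn) :
    res Q k b (cst c + g) = cst c + res Q k b g := by
  ext z; simp; ring

theorem res_eq_shp (Q : ℝ) (k : ℕ) (b : ℂ) (g : Fn) :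
    res Q k b g = shp k b g + cst (g b - k * Q * Real.log 2) := by
  ext z; simp

theorem rotF_cst_add (c : ℝ) (g : Fn) : rotF (cst c + g) = cst c + rotF g := by
  ext z; simp

theorem continuous_cst : Continuous cst := ContinuousMap.continuous_const'

theorem measurable_cst : Measurable cst := continuous_cst.measurable

theorem measurable_ev (z : ℂ) : Measurable fun g : Fn => g z :=
  (continuous_eval_const z).measurable

theorem continuous_res (Q : ℝ) (k : ℕ) (b : ℂ) : Continuous (res Q k b) := by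
  have e : res Q k b = fun g : Fn => g.comp ⟨fun z => b + z / 2 ^ k, by fun_prop⟩ -
      cst (k * Q * Real.log 2) := by
    funext g; ext z; simp
  rw [e]
  exact (ContinuousMap.continuous_precomp _).sub continuous_const

theorem measurable_res (Q : ℝ) (k : ℕ) (b : ℂ) : Measurable (res Q k b) :=
  (continuous_res Q k b).measurable

theorem continuous_shp (k : ℕ) (b : ℂ) : Continuous (shp k b) := by
  have e : shp k b = fun g : Fn => g.comp ⟨fun z => b + z / 2 ^ k, by fun_prop⟩ - cst (g b) := by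
    funext g; ext z; simp
  rw [e]
  exact (ContinuousMap.continuous_precomp _).sub
    (continuous_cst.comp (continuous_eval_const b))

theorem measurable_shp (k : ℕ) (b : ℂ) : Measurable (shp k b) := (continuous_shp k b).measurable

theorem continuous_rotF : Continuous rotF :=
  ContinuousMap.continuous_precomp (⟨fun z => Complex.I * z + 1, by fun_prop⟩ : C(ℂ, ℂ))

theorem measurable_rotF : Measurable rotF := continuous_rotF.measurable

instance : MeasurableAdd₂ Fn := inferInstance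

theorem ee_add (s t : ℝ) : ee (s + t) = ee s * ee t := by
  rw [ee, Real.exp_add, ENNReal.ofReal_mul (Real.exp_pos _).le]; rfl

theorem ee_mono {s t : ℝ} (h : s ≤ t) : ee s ≤ ee t :=
  ENNReal.ofReal_le_ofReal (Real.exp_le_exp.2 h)

theorem ee_ne_top (t : ℝ) : ee t ≠ ∞ := ENNReal.ofReal_ne_top

theorem ee_pos (t : ℝ) : 0 < ee t := ENNReal.ofReal_pos.2 (Real.exp_pos t)

@[simp] theorem ee_zero : ee 0 = 1 := by simp [ee]

theorem ee_rpow (t r : ℝ) : ee t ^ r = ee (r * t) := by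
  rw [ee, ENNReal.ofReal_rpow_of_pos (Real.exp_pos t), ← Real.exp_mul, mul_comm]; rfl

theorem ee_toReal (t : ℝ) : (ee t).toReal = Real.exp t := ENNReal.toReal_ofReal (Real.exp_pos t).le

theorem measurable_ee : Measurable ee := Real.measurable_exp.ennreal_ofReal

theorem ofReal_abs_le_ee (t : ℝ) : ENNReal.ofReal |t| ≤ ee t + ee (-t) := by
  rw [ee, ee, ← ENNReal.ofReal_add (Real.exp_pos _).le (Real.exp_pos _).le]
  refine ENNReal.ofReal_le_ofReal ?_
  have h1 := Real.add_one_le_exp t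
  have h2 := Real.add_one_le_exp (-t)
  have h3 := Real.exp_pos t
  have h4 := Real.exp_pos (-t)
  rw [abs_le]
  constructor <;> linarith

theorem tendsto_ee_neg {a : ℝ} (ha : 0 < a) : Tendsto (fun c : ℝ => ee (-a * c)) atTop (𝓝 0) := by
  have h : Tendsto (fun c : ℝ => Real.exp (-a * c)) atTop (𝓝 0) :=
    Real.tendsto_exp_atBot.comp (tendsto_id.const_mul_atTop_of_neg (neg_lt_zero.2 ha))
  simpa [ee] using ENNReal.tendsto_ofReal h

theorem card_Ix (k : ℕ) : Fintype.card (Ix k) = 4 ^ k := by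
  simp [Ix, ← mul_pow]

theorem sum_const_Ix (k : ℕ) (t : ℝ) : ∑ _j : Ix k, t = 4 ^ k * t := by
  rw [Finset.sum_const, Finset.card_univ, card_Ix]; simp

theorem sum_const_Ix' (k : ℕ) (t : ℝ≥0∞) : ∑ _j : Ix k, t = 4 ^ k * t := by
  rw [Finset.sum_const, Finset.card_univ, card_Ix]; simp

/-- truncation -/
theorem le_add_rpow_div {x T p : ℝ} (hx : 0 ≤ x) (hT : 0 < T) (hp : 1 ≤ p) :
    x ≤ T + x ^ p / T ^ (p - 1) := by
  have h0 : 0 ≤ x ^ p / T ^ (p - 1) := by positivity
  rcases le_total x T with h | h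
  · linarith
  · have hx' : 0 < x := hT.trans_le h
    have h1 : T ^ (p - 1) ≤ x ^ (p - 1) := Real.rpow_le_rpow hT.le h (by linarith)
    have h2 : x ^ p = x * x ^ (p - 1) := by
      rw [Real.rpow_sub_one hx'.ne']; field_simp
    have h3 : x ≤ x ^ p / T ^ (p - 1) := by
      rw [le_div_iff₀ (by positivity), h2]
      exact mul_le_mul_of_nonneg_left h1 hx
    linarith

/-- the integral over a small set is small -/
theorem setLIntegral_le_trunc {X : Type*} [MeasurableSpace X] (P : Measure X) {F : X → ℝ}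
    (hF : Measurable F) (h0 : ∀ x, 0 ≤ F x) {T p : ℝ} (hT : 0 < T) (hp : 1 ≤ p) (B : Set X) :
    ∫⁻ x in B, ENNReal.ofReal (F x) ∂P ≤ ENNReal.ofReal T * P B +
      (∫⁻ x, ENNReal.ofReal (F x ^ p) ∂P) / ENNReal.ofReal (T ^ (p - 1)) := by
  have hT' : 0 < T ^ (p - 1) := by positivity
  calc ∫⁻ x in B, ENNReal.ofReal (F x) ∂P
      ≤ ∫⁻ x in B, (ENNReal.ofReal T +
          ENNReal.ofReal (F x ^ p) / ENNReal.ofReal (T ^ (p - 1))) ∂P := by
        refine lintegral_mono fun x => ?_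
        rw [← ENNReal.ofReal_div_of_pos hT', ← ENNReal.ofReal_add hT.le
          (div_nonneg (Real.rpow_nonneg (h0 x) _) hT'.le)]
        exact ENNReal.ofReal_le_ofReal (le_add_rpow_div (h0 x) hT hp)
    _ = ENNReal.ofReal T * P B +
          ∫⁻ x in B, ENNReal.ofReal (F x ^ p) / ENNReal.ofReal (T ^ (p - 1)) ∂P := by
        rw [lintegral_add_left measurable_const, setLIntegral_const]
    _ ≤ _ := by
        gcongr
        simp only [div_eq_mul_inv]
        rw [← lintegral_mul_const _ (hF.pow_const p).ennreal_ofReal]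
        exact setLIntegral_le_lintegral _ _

theorem integrable_of_rpow {X : Type*} [MeasurableSpace X] (P : Measure X) [IsFiniteMeasure P]
    {F : X → ℝ} (hF : Measurable F) (h0 : ∀ x, 0 ≤ F x) {p : ℝ} (hp : 1 ≤ p)
    (h : ∫⁻ x, ENNReal.ofReal (F x ^ p) ∂P ≠ ∞) : Integrable F P := by
  refine ⟨hF.aestronglyMeasurable, ?_⟩
  rw [hasFiniteIntegral_iff_ofReal (ae_of_all _ h0)]
  have h1 := setLIntegral_le_trunc P hF h0 one_pos hp univ
  rw [Measure.restrict_univ] at h1
  refine h1.trans_lt ?_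
  simp only [Real.one_rpow, ENNReal.ofReal_one, one_mul, div_one]
  exact ENNReal.add_lt_top.2 ⟨measure_lt_top _ _, h.lt_top⟩

namespace Data

variable {X : Type} [MeasurableSpace X] (d : Data X)

theorem measurable_kid (k : ℕ) (j : Ix k) : Measurable (d.kid k j) := measurable_res _ _ _

theorem measurable_kid_add (k : ℕ) (j : Ix k) (g : Fn) : Measurable fun η => d.kid k j (g + η) :=
  (d.measurable_kid k j).comp (measurable_const.add measurable_id)

theorem kid_zero (k : ℕ) (j : Ix k) (g : Fn) :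
    d.kid k j g 0 = g (cor k j) - k * d.Q * Real.log 2 := by simp [kid]

theorem kid_cst_add (k : ℕ) (j : Ix k) (c : ℝ) (u η : Fn) :
    d.kid k j (cst c + u + η) = cst c + d.kid k j (u + η) := by
  rw [add_assoc, kid, res_cst_add, kid]

theorem V_cst_add (c : ℝ) (g : Fn) : d.V (cst c + g) = d.V g := by rw [add_comm, d.V_cst]

@[simp] theorem V_const (c : ℝ) : d.V (cst c) = 1 := by
  rw [← d.V_zero, ← d.V_cst 0 c, zero_add]

theorem V_kid (k : ℕ) (j : Ix k) (g : Fn) : d.V (d.kid k j g) = d.V (shp k (cor k j) g) := by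
  rw [kid, res_eq_shp, d.V_cst]

theorem measurable_P (B : Set X) (hB : MeasurableSet B) : Measurable fun g => d.P 0 g B :=
  (d.P 0).measurable_coe hB

theorem measurable_lintegral_P {F : X → ℝ≥0∞} (hF : Measurable F) :
    Measurable fun g => ∫⁻ x, F x ∂d.P 0 g := hF.lintegral_kernel

theorem measurable_integral_P {F : X → ℝ} (hF : Measurable F) :
    Measurable fun g => ∫ x, F x ∂d.P 0 g :=
  (hF.stronglyMeasurable.integral_kernel (κ := d.P 0)).measurable

theorem lintegral_ch_level (k : ℕ) (j : Ix k) (g : Fn) {F : X → ℝ≥0∞} (hF : Measurable F) :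
    ∫⁻ x, F (d.ch k j x) ∂d.P k g = ∫⁻ x, F x ∂d.P 0 (d.kid k j g) := by
  rw [kid, ← d.cov, lintegral_map hF (d.ch_meas k j)]

theorem integral_ch_level (k : ℕ) (j : Ix k) (g : Fn) {F : X → ℝ} (hF : Measurable F) :
    ∫ x, F (d.ch k j x) ∂d.P k g = ∫ x, F x ∂d.P 0 (d.kid k j g) := by
  rw [kid, ← d.cov, integral_map (d.ch_meas k j).aemeasurable hF.aestronglyMeasurable]

/-- tower and covariance together -/
theorem lintegral_ch (k : ℕ) (j : Ix k) (g : Fn) {F : X → ℝ≥0∞} (hF : Measurable F) :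
    ∫⁻ x, F (d.ch k j x) ∂d.P 0 g = ∫⁻ η, ∫⁻ x, F x ∂d.P 0 (d.kid k j (g + η)) ∂d.lay k := by
  rw [d.tower k g (fun x => F (d.ch k j x)) (hF.comp (d.ch_meas k j))]
  exact lintegral_congr fun η => d.lintegral_ch_level k j _ hF

theorem measure_tower (k : ℕ) (g : Fn) {B : Set X} (hB : MeasurableSet B) :
    d.P 0 g B = ∫⁻ η, d.P k (g + η) B ∂d.lay k := by
  simpa only [lintegral_indicator_one hB] using
    d.tower k g (B.indicator 1) (measurable_one.indicator hB)

theorem measure_ch (k : ℕ) (j : Ix k) (g : Fn) {B : Set X} (hB : MeasurableSet B) :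
    d.P 0 g (d.ch k j ⁻¹' B) = ∫⁻ η, d.P 0 (d.kid k j (g + η)) B ∂d.lay k := by
  rw [d.measure_tower k g (d.ch_meas k j hB)]
  refine lintegral_congr fun η => ?_
  rw [kid, ← d.cov, Measure.map_apply (d.ch_meas k j) hB]

/-- translation invariance for constant fields -/
theorem lintegral_ch_cst (k : ℕ) (j : Ix k) (c : ℝ) {F : X → ℝ≥0∞} (hF : Measurable F) :
    ∫⁻ x, F (d.ch k j x) ∂d.P 0 (cst c) = ∫⁻ x, F (d.ch k 0 x) ∂d.P 0 (cst c) := by
  have h : ∀ i : Ix k, ∫⁻ x, F (d.ch k i x) ∂d.P 0 (cst c) =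
      ∫⁻ g, ∫⁻ x, F x ∂d.P 0 (cst c + g) ∂(d.lay k).map (res d.Q k 0) := fun i => by
    rw [d.lintegral_ch k i _ hF, ← d.lay_tr k i, lintegral_map
      (f := fun g => ∫⁻ x, F x ∂d.P 0 (cst c + g))
      ((d.measurable_lintegral_P hF).comp (measurable_const.add measurable_id))
      (measurable_res _ _ _)]
    simp only [kid, res_cst_add]
  rw [h, h]

theorem ee_osc (k : ℕ) (j : Ix k) (g : Fn) (s : ℝ) :
    ee (s * g (cor k j)) ≤ ee (s * g 0) * d.V g ^ |s| := by
  calc ee (s * g (cor k j)) ≤ ee (s * g 0 + |s| * |g (cor k j) - g 0|) := by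
        refine ee_mono ?_
        have := le_abs_self (s * (g (cor k j) - g 0))
        rw [abs_mul] at this
        linarith
    _ ≤ _ := by
        rw [ee_add, ← ee_rpow |g (cor k j) - g 0| |s|]
        gcongr
        exact d.V_osc k j g

/-- the weight of a child -/
theorem wt_kid (s : ℝ) : ∃ B : ℝ≥0, ∀ (k : ℕ) (j : Ix k) (g : Fn),
    ∫⁻ η, ee (s * d.kid k j (g + η) 0) * d.V (d.kid k j (g + η)) ∂d.lay k ≤
      B * ee (s * g 0) * ee ((s ^ 2 / 2 - s * d.Q) * (k * Real.log 2)) * d.V g ^ (|s| + 1) := by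
  obtain ⟨B, hB⟩ := d.V_lay s
  refine ⟨B, fun k j g => ?_⟩
  have e : ∀ η : Fn, ee (s * d.kid k j (g + η) 0) * d.V (d.kid k j (g + η)) =
      ee (s * g (cor k j)) * ee (-(s * d.Q) * (k * Real.log 2)) *
        (ee (s * η (cor k j)) * d.V (res d.Q k (cor k j) (g + η))) := fun η => by
    rw [d.kid_zero, ← mul_assoc, ← ee_add, ← ee_add, kid]
    congr 2
    simp only [ContinuousMap.add_apply]
    ring
  simp only [e]
  rw [lintegral_const_mul' _ _ (ENNReal.mul_ne_top (ee_ne_top _) (ee_ne_top _)),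
    ENNReal.rpow_add_of_nonneg _ _ (abs_nonneg s) zero_le_one, ENNReal.rpow_one,
    show (s ^ 2 / 2 - s * d.Q) * (k * Real.log 2) =
      -(s * d.Q) * (k * Real.log 2) + s ^ 2 / 2 * (k * Real.log 2) by ring, ee_add]
  calc _ ≤ ee (s * g 0) * d.V g ^ |s| * ee (-(s * d.Q) * (k * Real.log 2)) *
        (B * ee (s ^ 2 / 2 * (k * Real.log 2)) * d.V g) := by
        gcongr
        · exact d.ee_osc k j g s
        · exact hB k j g
    _ = _ := by ring

theorem Gd_mono {R0 R1 : ℝ} (h : R0 ≤ R1) : d.Gd R0 ⊆ d.Gd R1 := fun _ hu =>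
  ⟨hu.1.trans h, hu.2.trans (ENNReal.ofReal_le_ofReal h)⟩

theorem measurableSet_Gd (R0 : ℝ) : MeasurableSet (d.Gd R0) :=
  (measurableSet_le (measurable_ev 0).abs measurable_const).inter
    (measurableSet_le d.V_meas measurable_const)

theorem one_le_of_Gd {R0 : ℝ} {u : Fn} (hu : u ∈ d.Gd R0) : 1 ≤ R0 :=
  ENNReal.one_le_ofReal.1 ((d.one_le_V u).trans hu.2)

theorem zero_mem_Gd {R0 : ℝ} (h : 1 ≤ R0) : (0 : Fn) ∈ d.Gd R0 :=
  ⟨by simpa using zero_le_one.trans h, by rw [d.V_zero]; exact ENNReal.one_le_ofReal.2 h⟩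

theorem abs_cor_le {R0 : ℝ} {u : Fn} (hu : u ∈ d.Gd R0) (k : ℕ) (j : Ix k) :
    |u (cor k j)| ≤ 2 * R0 := by
  have h1 : Real.exp |u (cor k j) - u 0| ≤ R0 :=
    (ENNReal.ofReal_le_ofReal_iff (zero_le_one.trans (d.one_le_of_Gd hu))).1
      ((d.V_osc k j u).trans hu.2)
  have h2 := Real.add_one_le_exp |u (cor k j) - u 0|
  have h3 := abs_add_le (u (cor k j) - u 0) (u 0)
  rw [sub_add_cancel] at h3
  linarith [hu.1]

theorem measurableSet_allLoc (k : ℕ) : MeasurableSet (d.allLoc k) := by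
  have e : d.allLoc k = d.Loc ∩ ⋂ j, d.ch k j ⁻¹' d.Loc := by
    ext x; simp [allLoc]
  rw [e]
  exact d.Loc_meas.inter (MeasurableSet.iInter fun j => d.ch_meas k j d.Loc_meas)

theorem measurable_av (k : ℕ) {F : X → ℝ} (hF : Measurable F) : Measurable (d.av k F) :=
  (Finset.measurable_sum _ fun j _ => hF.comp (d.ch_meas k j)).div_const _

theorem measurable_rf_arg (c : ℝ) :
    Measurable fun w : (Fn × ℝ) × ℝ => cst c + (w.1.1 + cst (w.1.2 + w.2)) :=
  measurable_const.add (measurable_fst.fst.add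
    (measurable_cst.comp (measurable_fst.snd.add measurable_snd)))

/-- the reference law as a measure -/
def rfM (L : Measure (Fn × ℝ)) (c : ℝ) : Measure X :=
  d.P 0 ∘ₘ (L.prod (gaussianReal 0 1)).map fun w => cst c + (w.1.1 + cst (w.1.2 + w.2))

theorem rfM_prob {L : Measure (Fn × ℝ)} (hL : d.Adm L) (c : ℝ) :
    IsProbabilityMeasure (d.rfM L c) := by
  have := hL.1
  have := Measure.isProbabilityMeasure_map (μ := L.prod (gaussianReal 0 1))
    (measurable_rf_arg c).aemeasurable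
  unfold rfM
  infer_instance

theorem rf_eq {L : Measure (Fn × ℝ)} (hL : d.Adm L) (c : ℝ) {B : Set X} (hB : MeasurableSet B) :
    d.rf L c B = d.rfM L c B := by
  have := hL.1
  rw [rfM, Measure.bind_apply hB (d.P 0).aemeasurable,
    lintegral_map (d.measurable_P B hB) (measurable_rf_arg c),
    lintegral_prod (fun w : (Fn × ℝ) × ℝ => d.P 0 (cst c + (w.1.1 + cst (w.1.2 + w.2))) B)
      ((d.measurable_P B hB).comp (measurable_rf_arg c)).aemeasurable]
  rfl

theorem ae_rfM (L : Measure (Fn × ℝ)) (c : ℝ) {E : X → Prop} (hE : MeasurableSet {x | E x})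
    (h : ∀ g, ∀ᵐ x ∂(d.P 0 g), E x) : ∀ᵐ x ∂(d.rfM L c), E x :=
  Measure.ae_comp_of_ae_ae hE (ae_of_all _ h)

theorem rf_mono_ae (L : Measure (Fn × ℝ)) (c : ℝ) {A B : Set X}
    (h : ∀ g, ∀ᵐ x ∂(d.P 0 g), x ∈ A → x ∈ B) : d.rf L c A ≤ d.rf L c B :=
  lintegral_mono fun _ => lintegral_mono fun _ => measure_mono_ae (h _)

theorem rf_mono (L : Measure (Fn × ℝ)) (c : ℝ) {A B : Set X} (h : A ⊆ B) :
    d.rf L c A ≤ d.rf L c B := d.rf_mono_ae L c fun _ => ae_of_all _ h

end Data

end Pool.Agent.Lib.MP_0d9445_pr.HO
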