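import Pool.Agent.Lib.MP_0d9445_pr.Defs

/-!
Homogenisation in probability (module HO), abstract data and statements.
`P k g` is the law of the local data in the tripled unit box for the fine field of level `k` plus
the continuous function `g`; `ch k j` rescales the child box `j` of depth `k` to the unit box.
-/

open MeasureTheory ProbabilityTheory Set Filter Topology
open scoped ENNReal NNReal

noncomputable section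

namespace Pool.Agent.Lib.MP_0d9445_pr.HO

/-- indices of the children of depth `k` of the unit box -/
abbrev Ix (k : ℕ) : Type := Fin (2 ^ k) × Fin (2 ^ k)

/-- lower left corner of a child -/
def cor (k : ℕ) (j : Ix k) : ℂ := (((j.1 : ℕ) : ℂ) + ((j.2 : ℕ) : ℂ) * Complex.I) / 2 ^ k

/-- constant functions -/
def cst (t : ℝ) : Fn := ContinuousMap.const ℂ t

/-- the coarse field seen from the box of side `2 ^ (-k)` and corner `b` -/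
def res (Q : ℝ) (k : ℕ) (b : ℂ) (g : Fn) : Fn :=
  ⟨fun z => g (b + z / 2 ^ k) - k * Q * Real.log 2, by fun_prop⟩

/-- its shape -/
def shp (k : ℕ) (b : ℂ) (g : Fn) : Fn := ⟨fun z => g (b + z / 2 ^ k) - g b, by fun_prop⟩

/-- quarter turn of the unit box -/
def rotF (g : Fn) : Fn := ⟨fun z => g (Complex.I * z + 1), by fun_prop⟩

/-- `exp` with values in `ℝ≥0∞` -/
def ee (t : ℝ) : ℝ≥0∞ := ENNReal.ofReal (Real.exp t)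

/-- two children are far apart -/
def Far {k : ℕ} (i j : Ix k) : Prop :=
  (i.1 : ℕ) + 4 ≤ j.1 ∨ (j.1 : ℕ) + 4 ≤ i.1 ∨ (i.2 : ℕ) + 4 ≤ j.2 ∨ (j.2 : ℕ) + 4 ≤ i.2

/-- Everything the homogenisation argument uses. -/
structure Data (X : Type) [MeasurableSpace X] where
  γ : ℝ
  Q : ℝ
  p : ℝ
  a : ℝ
  c0 : ℝ
  C : ℝ≥0
  γ_pos : 0 < γ
  one_lt : 1 < p
  le_two : p ≤ 2
  a_pos : 0 < a
  c0_pos : 0 < c0
  zγ : γ * Q - γ ^ 2 / 2 = 2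
  zp : 2 < p * γ * Q - (p * γ) ^ 2 / 2
  P : ℕ → Kernel Fn X
  lay : ℕ → Measure Fn
  Ginf : Measure Fn
  P_markov : ∀ k, IsMarkovKernel (P k)
  lay_prob : ∀ k, IsProbabilityMeasure (lay k)
  Ginf_prob : IsProbabilityMeasure Ginf
  V : Fn → ℝ≥0∞
  ch : (k : ℕ) → Ix k → X → X
  rot : X → X
  Loc : Set X
  nu : ℂ → X → ℝ
  pi : X → ℝ
  mu : X → ℝ
  N : X → ℝ
  V_meas : Measurable V
  ch_meas : ∀ k j, Measurable (ch k j)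
  rot_meas : Measurable rot
  Loc_meas : MeasurableSet Loc
  nu_meas : ∀ q, Measurable (nu q)
  pi_meas : Measurable pi
  mu_meas : Measurable mu
  N_meas : Measurable N
  nu_nonneg : ∀ q x, 0 ≤ nu q x
  pi_nonneg : ∀ x, 0 ≤ pi x
  mu_nonneg : ∀ x, 0 ≤ mu x
  N_nonneg : ∀ x, 0 ≤ N x
  tower : ∀ k g (F : X → ℝ≥0∞), Measurable F →
    ∫⁻ x, F x ∂P 0 g = ∫⁻ η, ∫⁻ x, F x ∂P k (g + η) ∂lay k
  cov : ∀ k j g, (P k g).map (ch k j) = P 0 (res Q k (cor k j) g)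
  ind : ∀ k (i j : Ix k) g, Far i j → IndepFun (ch k i) (ch k j) (P k g)
  lay_tr : ∀ k j, (lay k).map (res Q k (cor k j)) = (lay k).map (res Q k 0)
  lay_rot : ∀ k, ((lay k).map (res Q k 0)).map rotF = (lay k).map (res Q k 0)
  rot_map : ∀ g, (P 0 g).map rot = P 0 (rotF g)
  shape : ∀ k j, (Ginf.prod (lay k)).map (fun w => shp k (cor k j) (w.1 + w.2)) = Ginf
  Ginf_zero : ∀ᵐ g ∂Ginf, g 0 = 0
  one_le_V : ∀ g, 1 ≤ V g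
  V_cst : ∀ g t, V (g + cst t) = V g
  V_zero : V 0 = 1
  V_osc : ∀ k j g, ee |g (cor k j) - g 0| ≤ V g
  V_Ginf : ∀ θ : ℝ, ∫⁻ g, V g ^ θ ∂Ginf ≠ ∞
  V_lay : ∀ s : ℝ, ∃ B : ℝ≥0, ∀ k j g,
    ∫⁻ η, ee (s * η (cor k j)) * V (res Q k (cor k j) (g + η)) ∂lay k ≤
      B * ee (s ^ 2 / 2 * (k * Real.log 2)) * V g
  cm : ∀ s, s = 0 ∨ s = γ → ∀ R0 ε : ℝ, 0 < ε → ∃ m0 : ℕ, ∀ m, m0 ≤ m →
    ∀ (j : Ix m) (c : ℝ) (u : Fn) (F : X → ℝ≥0∞) (E : ℝ≥0∞), |u 0| ≤ R0 →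
      V u ≤ ENNReal.ofReal R0 → Measurable F →
      E = ENNReal.ofReal ε * ee (s ^ 2 / 2 * (m * Real.log 2) * (1 - 1 / p)) *
        (∫⁻ η, ee (-(s * (p - 1)) * η (cor m j)) *
          ∫⁻ x, F x ^ p ∂P 0 (res Q m (cor m j) (cst c + η)) ∂lay m) ^ (1 / p) →
      ∫⁻ x, F (ch m j x) ∂P 0 (cst c + u) ≤
          ee (s * u (cor m j)) * ∫⁻ x, F (ch m j x) ∂P 0 (cst c) + E ∧
        ee (s * u (cor m j)) * ∫⁻ x, F (ch m j x) ∂P 0 (cst c) ≤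
          ∫⁻ x, F (ch m j x) ∂P 0 (cst c + u) + E
  sub : ∀ k g, ∀ᵐ x ∂(P 0 g), x ∈ Loc → (∀ j, ch k j x ∈ Loc) →
    (∀ q, nu q x ≤ (∑ j, nu q (ch k j x)) / 4 ^ k) ∧ pi x = ∑ j, pi (ch k j x)
  mu_add : ∀ k g, ∀ᵐ x ∂(P 0 g), mu x = ∑ j, mu (ch k j x)
  para : ∀ g, ∀ᵐ x ∂(P 0 g),
    nu (1 + Complex.I) x + nu (1 - Complex.I) x = 2 * nu 1 x + 2 * nu Complex.I x
  nu_rot : ∀ g, ∀ᵐ x ∂(P 0 g), x ∈ Loc → rot x ∈ Loc → ∀ q, nu q (rot x) = nu (Complex.I * q) x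
  N_le : ∀ g, ∀ᵐ x ∂(P 0 g), x ∈ Loc → N x ≤ pi x
  K_loc : ∀ g, P 0 g Locᶜ ≤ C * ee (-a * g 0) * V g
  K_nu : ∀ g q, ‖q‖ ≤ 2 → ∫⁻ x, ENNReal.ofReal (nu q x ^ 2) ∂P 0 g ≤ C * V g
  K_pi : ∀ g, ∫⁻ x, ENNReal.ofReal (pi x ^ p) ∂P 0 g ≤ C * ee (p * γ * g 0) * V g
  K_mu : ∀ g, ∫⁻ x, ENNReal.ofReal (mu x ^ p) ∂P 0 g ≤ C * ee (p * γ * g 0) * V g
  K_N : ∀ c, ∫⁻ x, ENNReal.ofReal (N x ^ p) ∂P 0 (cst c) ≤ C * (1 + ee (p * γ * c))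
  mu_low : ∀ c, ENNReal.ofReal c0 * ee (γ * c) ≤ ∫⁻ x, ENNReal.ofReal (mu x) ∂P 0 (cst c)
  mu_le_N : ∀ c, ∫⁻ x, ENNReal.ofReal (mu x) ∂P 0 (cst c) ≤
    ∫⁻ x, ENNReal.ofReal (N x) ∂P 0 (cst c)

namespace Data

variable {X : Type} [MeasurableSpace X] (d : Data X)

instance (k : ℕ) : IsMarkovKernel (d.P k) := d.P_markov k
instance (k : ℕ) : IsProbabilityMeasure (d.lay k) := d.lay_prob k
instance : IsProbabilityMeasure d.Ginf := d.Ginf_prob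

/-- coarse fields of bounded height and slope -/
def Gd (R0 : ℝ) : Set Fn := {u | |u 0| ≤ R0 ∧ d.V u ≤ ENNReal.ofReal R0}

/-- the coarse field of the child `j` -/
def kid (k : ℕ) (j : Ix k) (g : Fn) : Fn := res d.Q k (cor k j) g

/-- the box and all its children of depth `k` are localised -/
def allLoc (k : ℕ) : Set X := {x | x ∈ d.Loc ∧ ∀ j, d.ch k j x ∈ d.Loc}

/-- average over the children of depth `k` -/
def av (k : ℕ) (F : X → ℝ) (x : X) : ℝ := (∑ j, F (d.ch k j x)) / 4 ^ k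

/-- admissible laws of shape and height -/
def Adm (L : Measure (Fn × ℝ)) : Prop := IsProbabilityMeasure L ∧ L.map Prod.fst = d.Ginf

/-- probability of `B` for the reference law of height `c` -/
def rf (L : Measure (Fn × ℝ)) (c : ℝ) (B : Set X) : ℝ≥0∞ :=
  ∫⁻ w, ∫⁻ s, d.P 0 (cst c + (w.1 + cst (w.2 + s))) B ∂gaussianReal 0 1 ∂L

/-- mean of the truncated energy at depth `m` -/
def Am (q : ℂ) (T : ℝ) (m : ℕ) (c : ℝ) : ℝ := ∫ x, min (d.nu q (d.ch m 0 x)) T ∂d.P 0 (cst c)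

/-- the constant of the degree law -/
def kap (c : ℝ) : ℝ := (∫ x, d.pi x ∂d.P 0 (cst c)) / ∫ x, d.mu x ∂d.P 0 (cst c)

/-- the bad event -/
def bad (A κ : ℝ → ℝ) (η c : ℝ) : Set X :=
  {x | x ∉ d.Loc ∨ η < |d.nu 1 x - A c| ∨ η < |d.nu Complex.I x - A c| ∨
    η < |d.nu (1 + Complex.I) x - 2 * A c| ∨ η * Real.exp (d.γ * c) < |d.pi x - κ c * d.mu x|}

/-- OUTPUT of the module -/
def Out : Prop :=
  ∃ (A κ : ℝ → ℝ) (K : ℝ), (∀ c, 0 < A c) ∧ (∀ c, 1 / 2 ≤ κ c ∧ κ c ≤ K) ∧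
    ∀ L, d.Adm L → ∀ η, 0 < η → Tendsto (fun c => d.rf L c (d.bad A κ η c)) atTop (𝓝 0)

/-- law of large numbers over the children -/
def LLN : Prop :=
  ∀ (k : ℕ) (g : Fn) (F : X → ℝ) (δ τ : ℝ), Measurable F → 0 < δ → 0 < τ →
    d.P 0 g {x | 2 * δ < |∑ j, F (d.ch k j x)|} ≤
      ENNReal.ofReal (16 * (√τ + 2 * τ) / δ) +
      (ENNReal.ofReal τ)⁻¹ * ∑ j, ∫⁻ η, ∫⁻ x, ENNReal.ofReal (|F x| ^ d.p)
        ∂d.P 0 (d.kid k j (g + η)) ∂d.lay k +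
      d.lay k {η | ∃ j, δ / 4 ^ k < |∫ x, F x ∂d.P 0 (d.kid k j (g + η))|}

/-- the coarse fields of the children are tight -/
def Tight : Prop :=
  ∀ (k : ℕ) (R0 ε : ℝ), 0 < ε → ∃ R1, ∀ u ∈ d.Gd R0,
    d.lay k {η | ∃ j, d.kid k j (u + η) ∉ d.Gd R1} ≤ ENNReal.ofReal ε

/-- localisation at depth `k` -/
def LocS : Prop :=
  ∀ k : ℕ, ∃ B : ℝ≥0, ∀ g, d.P 0 g (d.allLoc k)ᶜ ≤ B * ee (-d.a * g 0) * d.V g ^ (d.a + 1)

/-- second moments of the energy of the children, uniformly in the depth -/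
def Mom : Prop :=
  ∃ B : ℝ≥0, ∀ (q : ℂ) (k m : ℕ) (j : Ix k) (i : Ix m) (g : Fn), ‖q‖ ≤ 2 →
    ∫⁻ x, ENNReal.ofReal (d.nu q (d.ch m i (d.ch k j x)) ^ 2) ∂d.P 0 g ≤ B * d.V g

/-- averaging over the Gaussian constant -/
def Avg : Prop :=
  ∀ B : Set X, MeasurableSet B →
    ∫⁻ t in Ioi (0 : ℝ), ∫⁻ g, d.P 0 (g + cst t) B ∂d.Ginf ≠ ∞ →
    ∀ L, d.Adm L → Tendsto (fun c => d.rf L c B) atTop (𝓝 0)

/-- the reference law seen from a child -/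
def Child : Prop :=
  ∀ L, d.Adm L → ∀ (k : ℕ) (j : Ix k), ∃ L', d.Adm L' ∧
    ∀ c B, MeasurableSet B → d.rf L c (d.ch k j ⁻¹' B) = d.rf L' c B

/-- from uniform bounds to the reference law -/
def RefT : Prop :=
  ∀ L, d.Adm L → ∀ ε : ℝ, 0 < ε → ∃ R0, ∀ R1, R0 ≤ R1 → ∀ (c : ℝ) (B : Set X) (δ : ℝ≥0∞),
    (∀ u ∈ d.Gd R1, d.P 0 (cst c + u) B ≤ δ) → d.rf L c B ≤ δ + ENNReal.ofReal ε

/-- the defect of subadditivity vanishes -/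
def Defect : Prop :=
  ∀ (k : ℕ) (q : ℂ) (η : ℝ), ‖q‖ ≤ 2 → 0 < η → ∀ L, d.Adm L →
    Tendsto (fun c => d.rf L c {x | η < |d.nu q x - d.av k (d.nu q) x|}) atTop (𝓝 0)

/-- total variation form of the Cameron-Martin input -/
def CM0 : Prop :=
  ∀ R0 ε : ℝ, 0 < ε → ∃ m0 : ℕ, ∀ m, m0 ≤ m → ∀ (j : Ix m) (c T : ℝ), ∀ u ∈ d.Gd R0,
    ∀ F : X → ℝ, Measurable F → (∀ x, 0 ≤ F x ∧ F x ≤ T) →
      |∫ x, F (d.ch m j x) ∂d.P 0 (cst c + u) - ∫ x, F (d.ch m 0 x) ∂d.P 0 (cst c)| ≤ ε * T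

/-- tilted form of the Cameron-Martin input -/
def CMg : Prop :=
  ∀ R0 ε : ℝ, 0 < ε → ∃ m0 : ℕ, ∀ m, m0 ≤ m → ∀ (j : Ix m) (c : ℝ), ∀ u ∈ d.Gd R0,
    ∀ F : X → ℝ, Measurable F → (∀ x, 0 ≤ F x) →
      (∀ g, ∫⁻ x, ENNReal.ofReal (F x ^ d.p) ∂d.P 0 g ≤ d.C * ee (d.p * d.γ * g 0) * d.V g) →
      |∫ x, F (d.ch m j x) ∂d.P 0 (cst c + u) -
        Real.exp (d.γ * u (cor m j)) * ∫ x, F (d.ch m 0 x) ∂d.P 0 (cst c)| ≤
        ε * Real.exp (d.γ * c) / 4 ^ m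

/-- concentration of the truncated double average -/
def Mean : Prop :=
  ∀ (T R0 ε : ℝ), 0 < T → 0 < ε → ∃ k m0 : ℕ, ∀ m, m0 ≤ m → ∀ (q : ℂ) (c : ℝ), ∀ u ∈ d.Gd R0,
    d.P 0 (cst c + u) {x | ε < |d.av k (d.av m fun y => min (d.nu q y) T) x - d.Am q T m c|} ≤
      ENNReal.ofReal ε

/-- the truncation does not matter -/
def Cut : Prop :=
  ∀ R0 ε : ℝ, 0 < ε → ∃ T : ℝ, 0 < T ∧ ∀ (q : ℂ) (k m : ℕ) (c : ℝ), ‖q‖ ≤ 2 → ∀ u ∈ d.Gd R0,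
    d.P 0 (cst c + u)
      {x | ε < |d.av k (d.av m (d.nu q)) x - d.av k (d.av m fun y => min (d.nu q y) T) x|} ≤
      ENNReal.ofReal ε

/-- the energy is close to the truncated mean, with the same parameters for two laws -/
def Near : Prop :=
  ∀ L L', d.Adm L → d.Adm L' → ∀ ε : ℝ, 0 < ε → ∃ (T : ℝ) (m : ℕ), 0 < T ∧
    ∀ q : ℂ, ‖q‖ ≤ 2 → ∀ᶠ c in atTop,
      d.rf L c {x | ε < |d.nu q x - d.Am q T m c|} ≤ ENNReal.ofReal ε ∧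
      d.rf L' c {x | ε < |d.nu q x - d.Am q T m c|} ≤ ENNReal.ofReal ε

/-- isotropy -/
def Iso : Prop :=
  ∀ (q : ℂ) (T : ℝ) (m : ℕ), 0 < T →
    Tendsto (fun c => d.Am q T m c - d.Am (Complex.I * q) T m c) atTop (𝓝 0)

/-- concentration of the energy -/
def Nu : Prop :=
  ∃ A : ℝ → ℝ, (∀ c, 0 < A c) ∧ ∀ L, d.Adm L → ∀ η, 0 < η →
    Tendsto (fun c => d.rf L c {x | η < |d.nu 1 x - A c| ∨ η < |d.nu Complex.I x - A c| ∨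
      η < |d.nu (1 + Complex.I) x - 2 * A c|}) atTop (𝓝 0)

/-- bounds on the constant of the degree law -/
def KapB : Prop := ∃ K : ℝ, ∀ᶠ c in atTop, 1 / 2 ≤ d.kap c ∧ d.kap c ≤ K

/-- additivity of the mean number of edges up to a small error -/
def PiAdd : Prop :=
  ∀ (m : ℕ) (R0 η : ℝ), 0 < η → ∀ᶠ c in atTop, ∀ u ∈ d.Gd R0,
    |∫ x, d.pi x ∂d.P 0 (cst c + u) - ∑ j, ∫ x, d.pi (d.ch m j x) ∂d.P 0 (cst c + u)| ≤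
      η * Real.exp (d.γ * c)

/-- the degree law in the mean -/
def Kap : Prop :=
  ∀ R0 η : ℝ, 0 < η → ∀ᶠ c in atTop, ∀ u ∈ d.Gd R0,
    |∫ x, (d.pi x - d.kap c * d.mu x) ∂d.P 0 (cst c + u)| ≤ η * Real.exp (d.γ * c)

/-- the degree law in probability -/
def Deg : Prop :=
  ∀ R0 η : ℝ, 0 < η → ∀ᶠ c in atTop, ∀ u ∈ d.Gd R0,
    d.P 0 (cst c + u) {x | η * Real.exp (d.γ * c) < |d.pi x - d.kap c * d.mu x|} ≤
      ENNReal.ofReal η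

end Data

/-- fluctuations of a sum of pairwise independent variables -/
def FL : Prop :=
  ∀ (X : Type) [MeasurableSpace X] (P : Measure X) [IsProbabilityMeasure P] (ι : Type)
    (s : Finset ι) (Y : ι → X → ℝ) (p τ : ℝ), 1 ≤ p → p ≤ 2 → 0 ≤ τ → (∀ i, Measurable (Y i)) →
    (s : Set ι).Pairwise (fun i j => IndepFun (Y i) (Y j) P) →
    ∑ i ∈ s, ∫⁻ x, ENNReal.ofReal (|Y i x| ^ p) ∂P ≤ ENNReal.ofReal τ →
    ∫⁻ x, ENNReal.ofReal |∑ i ∈ s, (Y i x - ∫ y, Y i y ∂P)| ∂P ≤ ENNReal.ofReal (√τ + 2 * τ)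

end Pool.Agent.Lib.MP_0d9445_pr.HO
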