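import Pool.Agent.Lib.MP_0d9445_pr.EN.Facts
import Pool.Agent.Lib.MP_0d9445_pr.HO.Defs
import Pool.Agent.Lib.MP_0d9445_pr.Met.LFC

/-! Module HO: the concrete objects (unit box, local net, local energy) and the statements that
turn a model into abstract data. -/

open MeasureTheory ProbabilityTheory Set Filter Topology LQ.Met
open scoped ENNReal NNReal

noncomputable section

namespace Pool.Agent.Lib.MP_0d9445_pr.HO

open PPP CR Cell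

/-- the centre of the unit box -/
def y0 : ℂ := ctr 0 (0, 0)

/-- the window: the tripled unit box -/
def W0 : Sq := (y0, 3 / 2)

/-- the closed doubled unit box -/
def K0 : Set ℂ := csq y0 1

/-- the half-open unit box -/
def S0 : Set ℂ := Walk.box 0 1

/-- the points in the window -/
def Y0 (x : Xi) : Set ℂ := pts x.2.1 ∩ W0.o

/-- the local family of cells -/
def fc0 (x : Xi) : Walk.FC := lfc K0 (Function.curry (T W0 x.1.1)) (Y0 x)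

/-- the local minimal energy -/
def nu0 (q : ℂ) (x : Xi) : ℝ := (fc0 x).nu S0 q

/-- the local degree sum -/
def pi0 (x : Xi) : ℝ := ∑ y ∈ (fc0 x).pts S0, (fc0 x).G.deg y

/-- mass of the unit box -/
def muX (x : Xi) : ℝ := (x.1.2 S0).toReal

/-- number of points in the unit box -/
def NX (x : Xi) : ℝ := ((fc0 x).pts S0).card

/-- the doubled box is shielded -/
def Shield (x : Xi) : Prop := GLoc (Function.curry x.1.1) (Y0 x) K0 (1 / 4)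

/-- the unit box is localised -/
def LocX (ξ : ℝ) (d : ℕ) : Set Xi := {x | CR.Loc d (pat ξ 0 W0 x) 0 (0, 0)}

/-- energy on the localisation event -/
def nuX (ξ : ℝ) (d : ℕ) (q : ℂ) : Xi → ℝ := (LocX ξ d).indicator (nu0 q)

/-- degree sum on the localisation event -/
def piX (ξ : ℝ) (d : ℕ) : Xi → ℝ := (LocX ξ d).indicator pi0

/-- the child `j` of depth `k` -/
def chX (k : ℕ) (j : Ix k) : Xi → Xi := pullX W0 (dy k 0) (cor k j)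

/-- the quarter turn -/
def rotX : Xi → Xi := pullX W0 (dy 0 1) 1

/-- the bad event of the unit box at height `c` -/
def badX (γ ξ : ℝ) (d : ℕ) (A κ : ℝ → ℝ) (η c : ℝ) : Set Xi :=
  {x | x ∉ LocX ξ d ∨ η < |nuX ξ d 1 x - A c| ∨ η < |nuX ξ d Complex.I x - A c| ∨
    η < |nuX ξ d (1 + Complex.I) x - 2 * A c| ∨
    η * Real.exp (γ * c) < |piX ξ d x - κ c * muX x|}

/-- the image of the window under `z ↦ a z + b` lies in `A` -/
def In (a b : ℂ) (A : Set ℂ) : Prop := ∀ z ∈ W0.o, a * z + b ∈ A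

/-- OUTPUT of the module for a model -/
def OutM (M : Model) : Prop :=
  ∃ (d : ℕ) (A κ : ℝ → ℝ) (K : ℝ), 7 ≤ d ∧ (∀ c, 0 < A c) ∧ (∀ c, 1 / 2 ≤ κ c ∧ κ c ≤ K) ∧
    (∀ η c, MeasurableSet[GGhat W0.o] (badX M.γ M.ξ d A κ η c)) ∧
    ∀ (n : ℕ) (b : ℂ) (W : Sq), In (dy n 0) b W.o → ∀ η, 0 < η →
      Tendsto (fun c => ∫⁻ e, pt2K M.γ 0 W (scale M.ξ M.γ c e)
        {y | pullX W0 (dy n 0) b (scale M.ξ M.γ c e, y) ∈ badX M.γ M.ξ d A κ η c} ∂M.ref)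
        atTop (𝓝 0)

/-- configurations and points with the local sigma-algebra of the window -/
def XL : Type := Xi

instance : MeasurableSpace XL := GGhat W0.o

/-- the weight function -/
def VV (Θ : ℝ) (g : Fn) : ℝ≥0∞ := ex (ENNReal.ofReal Θ * oo 0 y0 g)

/-! ### deterministic statements (file `Loc`) -/

/-- measurability of the local functionals -/
def MeasLoc : Prop :=
  (∀ q, Measurable[GGhat W0.o] (nu0 q)) ∧ Measurable[GGhat W0.o] pi0 ∧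
    Measurable[GGhat W0.o] muX ∧ Measurable[GGhat W0.o] NX

/-- subadditivity and additivity over the children, rotation, lower bound of the degree -/
def Det : Prop :=
  (∀ (x : Xi) (k : ℕ), IsGood x.1 → Shield x → (∀ j, Shield (chX k j x)) →
    (∀ q, nu0 q x ≤ (∑ j, nu0 q (chX k j x)) / 4 ^ k) ∧ pi0 x = ∑ j, pi0 (chX k j x)) ∧
  (∀ x : Xi, IsGood x.1 → Shield x → Shield (rotX x) → Disjoint (pts x.2.1) (frontier S0) →
    ∀ q, nu0 q (rotX x) = nu0 (Complex.I * q) x) ∧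
  (∀ x : Xi, IsGood x.1 → Shield x → NX x ≤ pi0 x) ∧
  (∀ (x : Xi) (k : ℕ), x.1.2 S0 ≠ ∞ → muX x = ∑ j, muX (chX k j x)) ∧
  (∀ x : Xi, nu0 (1 + Complex.I) x + nu0 (1 - Complex.I) x =
    2 * nu0 1 x + 2 * nu0 Complex.I x) ∧
  (∀ x : Xi, Continuous fun q => nu0 q x) ∧
  (∀ q x, 0 ≤ nu0 q x) ∧ (∀ x, 0 ≤ pi0 x) ∧
  (∀ (a b : ℂ) (c : Cf), a ≠ 0 → IsGood c → IsGood (pull a b c))

/-! ### layer statements (file `InstLay`) -/

/-- the fields of `Data` that only involve the layers -/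
def LayF (M : Model) (Θ : ℝ) : Prop :=
  (∀ k, IsProbabilityMeasure (M.lay 0 k)) ∧ IsProbabilityMeasure M.Ginf ∧
  (∀ (k : ℕ) (b : ℂ) (g : Fn), res M.Q k b g = MP_0d9445_pr.res M.Q (dy k 0) b g) ∧
  (∀ g : Fn, rotF g = MP_0d9445_pr.res M.Q (dy 0 1) 1 g) ∧
  (∀ (k : ℕ) (b : ℂ), (M.lay 0 k).map (res M.Q k b) = (M.lay 0 k).map (res M.Q k 0)) ∧
  (∀ k : ℕ, ((M.lay 0 k).map (res M.Q k 0)).map rotF = (M.lay 0 k).map (res M.Q k 0)) ∧
  (∀ (k : ℕ) (b : ℂ), (M.Ginf.prod (M.lay 0 k)).map (fun w => shp k b (w.1 + w.2)) = M.Ginf) ∧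
  (∀ᵐ g ∂M.Ginf, g 0 = 0) ∧ Measurable (VV Θ) ∧ (∀ g, 1 ≤ VV Θ g) ∧
  (∀ g t, VV Θ (g + cst t) = VV Θ g) ∧ VV Θ 0 = 1 ∧
  (∀ (k : ℕ) (j : Ix k) (g : Fn), ee |g (cor k j) - g 0| ≤ VV Θ g) ∧
  (∀ θ : ℝ, ∫⁻ g, VV Θ g ^ θ ∂M.Ginf ≠ ∞) ∧
  ∀ s : ℝ, ∃ B : ℝ≥0, ∀ (k : ℕ) (j : Ix k) (g : Fn),
    ∫⁻ η, ee (s * η (cor k j)) * VV Θ (res M.Q k (cor k j) (g + η)) ∂M.lay 0 k ≤
      B * ee (s ^ 2 / 2 * (k * Real.log 2)) * VV Θ g

/-! ### statements about the point kernels (file `InstPt`) -/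

/-- `pullX` is local -/
def PXmeas : Prop :=
  ∀ (k : ℤ) (j : ℕ) (b : ℂ) (A : Set ℂ), In (dy k j) b A →
    Measurable[GGhat A, GGhat W0.o] (pullX W0 (dy k j) b)

/-- given the configuration, the pulled points are Poisson for the pulled configuration -/
def PXlaw : Prop :=
  ∀ (γ : ℝ) (k : ℤ) (j : ℕ) (b : ℂ) (W : Sq) (e : Cf) (F : Xi → ℝ≥0∞), In (dy k j) b W.o →
    e.2 W.o < ∞ → Measurable[GGhat W0.o] F →
    ∫⁻ y, F (pullX W0 (dy k j) b (e, y)) ∂pt2K γ 0 W e =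
      ∫⁻ y, F (pull (dy k j) b e, y) ∂pt2K γ 0 W0 (pull (dy k j) b e)

/-- tower, covariance, independence -/
def PtF (M : Model) : Prop :=
  (∀ (W : Sq) (k : ℕ) (g : Fn) (F : Xi → ℝ≥0∞), Measurable F →
    ∫⁻ x, F x ∂M.Phat 0 W 0 g = ∫⁻ η, ∫⁻ x, F x ∂M.Phat 0 W k (g + η) ∂M.lay 0 k) ∧
  (∀ (k : ℤ) (j : ℕ) (b : ℂ) (W : Sq) (g : Fn) (F : Xi → ℝ≥0∞), In (dy k j) b W.o →
    Measurable[GGhat W0.o] F → ∫⁻ x, F (pullX W0 (dy k j) b x) ∂M.Phat 0 W k g =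
      ∫⁻ x, F x ∂M.Phat 0 W0 0 (MP_0d9445_pr.res M.Q (dy k j) b g)) ∧
  (∀ (k : ℕ) (j : Ix k), In (dy k 0) (cor k j) W0.o) ∧ In (dy 0 1) 1 W0.o ∧
  ∀ (k : ℕ) (i j : Ix k) (g : Fn), Far i j →
    Indep ((GGhat W0.o).comap (chX k i)) ((GGhat W0.o).comap (chX k j)) (M.Phat 0 W0 k g)

/-- the Cameron-Martin field of `Data` -/
def PtCM (M : Model) (Θ p : ℝ) : Prop :=
  ∀ s R0 ε : ℝ, 0 < ε → ∃ m0 : ℕ, ∀ m, m0 ≤ m →
    ∀ (j : Ix m) (c : ℝ) (u : Fn) (F : Xi → ℝ≥0∞) (E : ℝ≥0∞), |u 0| ≤ R0 →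
      VV Θ u ≤ ENNReal.ofReal R0 → Measurable[GGhat W0.o] F →
      E = ENNReal.ofReal ε * ee (s ^ 2 / 2 * (m * Real.log 2) * (1 - 1 / p)) *
        (∫⁻ η, ee (-(s * (p - 1)) * η (cor m j)) *
          ∫⁻ x, F x ^ p ∂M.Phat 0 W0 0 (res M.Q m (cor m j) (cst c + η)) ∂M.lay 0 m) ^ (1 / p) →
      ∫⁻ x, F (chX m j x) ∂M.Phat 0 W0 0 (cst c + u) ≤
          ee (s * u (cor m j)) * ∫⁻ x, F (chX m j x) ∂M.Phat 0 W0 0 (cst c) + E ∧
        ee (s * u (cor m j)) * ∫⁻ x, F (chX m j x) ∂M.Phat 0 W0 0 (cst c) ≤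
          ∫⁻ x, F (chX m j x) ∂M.Phat 0 W0 0 (cst c + u) + E

end Pool.Agent.Lib.MP_0d9445_pr.HO
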