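import Pool.Agent.Lib.MP_0d9445_pr.HO.InstLay
import Pool.Agent.Lib.MP_0d9445_pr.HO.Loc
import Pool.Agent.Lib.MP_0d9445_pr.EN.Casc
import Pool.Agent.Lib.MP_0d9445_pr.CR.D1
import Pool.Agent.Lib.MP_0d9445_pr.CR.D2
import Pool.Agent.Lib.MP_0d9445_pr.CR.Chain
import Pool.Agent.Lib.MP_0d9445_pr.CR.Pi
import Pool.Agent.Lib.MP_0d9445_pr.CR.MomB

/-! Module HO: localisation gives shielding and domination by the crude estimates. -/

open MeasureTheory ProbabilityTheory Set Filter Topology LQ.Met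
open scoped ENNReal NNReal

noncomputable section

namespace Pool.Agent.Lib.MP_0d9445_pr.HO

open PPP CR Cell EN

theorem reg_W0 : reg 0 (0, 0) (3 / 2) = W0.o := by
  rw [reg, sc_zero, mul_one]; rfl

theorem sc_le_of_seven {m : ℕ} (h : 7 ≤ m) : sc m ≤ 1 / 128 := by
  have := pow_le_pow_of_le_one (a := (2 : ℝ)⁻¹) (by norm_num) (by norm_num) h
  unfold sc
  refine this.trans (by norm_num)

/-- the blocked boxes of the pattern lie in the window -/
theorem csq_subset_of_B {ξ : ℝ} {x : Xi} {m : ℕ} {v : ℤ × ℤ} (h : (pat ξ 0 W0 x).B m v) :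
    csq (ctr m v) (5 * sc m) ⊆ W0.c :=
  (csq_subset_closure _ (by have := CR.sc_pos m; positivity)).trans
    ((closure_mono h.1).trans (closure_osq_subset _ _))

theorem ann_subset_of_B {ξ : ℝ} {x : Xi} {m : ℕ} {v : ℤ × ℤ} (h : (pat ξ 0 W0 x).B m v) :
    ann m v ⊆ W0.o := (ann_subset_reg m v).trans h.1

/-- localisation gives shielding -/
theorem shield_of_loc {ξ : ℝ} {d : ℕ} {x : Xi} {S : Set ℂ} (hd : 7 ≤ d) (hx : x ∈ LocX ξ d)
    (h : NearGeo S (Function.curry x.1.1)) (hS : W0.c ⊆ S) : Shield x := by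
  intro w hw u hu
  have hs := shut_of_Loc (d := d) (by omega) hx
  rw [sc_zero] at hs
  obtain ⟨m, hm, hB⟩ := hs w hw
  have hsc := sc_le_of_seven (m := m) (by omega)
  have hp := CR.sc_pos m
  have hw' : w ∈ csq (ctr m (idx m w)) (sc m / 2) := box_subset_csq m _ (mem_box_idx m w)
  have hu' : u ∉ reg m (idx m w) (9 / 2) := by
    intro hr
    obtain ⟨h1, h2⟩ := hr
    obtain ⟨h3, h4⟩ := hw'
    have h5 := Complex.norm_le_abs_re_add_abs_im (u - w)
    rw [← dist_eq_norm, hu, Complex.sub_re, Complex.sub_im] at h5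
    rw [abs_lt] at h1 h2
    rw [abs_le] at h3 h4
    have h6 : |u.re - w.re| ≤ 5 * sc m := abs_le.2 ⟨by linarith, by linarith⟩
    have h7 : |u.im - w.im| ≤ 5 * sc m := abs_le.2 ⟨by linarith, by linarith⟩
    linarith
  obtain ⟨y, hy, hlt⟩ := blk_in h ((csq_subset_of_B hB).trans hS) (by simp) hB.2
    (csq_mono _ (by linarith) hw')
    (hS (csq_mono _ (by norm_num [W0]) (ball_subset_csq hw hu.le))) hu'
  exact ⟨y, ⟨hy.1, ann_subset_of_B hB hy.2⟩, hlt⟩

theorem shield_of_good {ξ : ℝ} {d : ℕ} {x : Xi} (hd : 7 ≤ d) (hx : x ∈ LocX ξ d)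
    (hg : IsGood x.1) : Shield x :=
  shield_of_loc hd hx (nearGeo hg.1 hg.2) (subset_univ _)

/-- domination by the variables of the crude estimates -/
theorem dominate {ξ : ℝ} {d : ℕ} {x : Xi} (hd : 7 ≤ d) (hx : x ∈ LocX ξ d) (hg : IsGood x.1) :
    (∀ q : ℂ, ‖q‖ ≤ 2 → ENNReal.ofReal (nu0 q x) ≤ 4 * Xd d (pat ξ 0 W0 x) 0 (0, 0)) ∧
      ENNReal.ofReal (pi0 x) ≤ Pd d (pat ξ 0 W0 x) 0 (0, 0) := by
  have hn := nearGeo hg.1 hg.2
  have hD : Dom (vorX x) (pat ξ 0 W0 x) W0.o :=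
    { sep := fun n v hB z _ =>
        ⟨fun hz => blk_cell_subset hn (subset_univ _) (by simp) hB.2
            (P := pts x.2.1) (fun y hy => hy.1) hz,
          fun hz => blk_cell_disjoint hn (subset_univ _) (by simp) hB.2
            (P := pts x.2.1) (fun y hy => hy.1) (mem_univ _) hz⟩
      mem := fun z _ => hn.self_mem_cell (subset_univ _) (mem_univ _)
      pts := fun z hz => Or.inl hz.1 }
  have hs := sameOn_vorX hg (shield_of_good hd hx hg)
  have h1 := hD.X_le_Xd (K := univ) hd hx reg_W0.le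
  have h2 := hD.deg_le_Pd (K := univ) hd hx reg_W0.le
  rw [← S0_eq_box] at h1 h2
  rw [hs.X, sc_zero, one_pow, ENNReal.ofReal_one, one_mul] at h1
  rw [hs.sum_deg] at h2
  refine ⟨fun q hq => ?_, h2⟩
  calc ENNReal.ofReal (nu0 q x) ≤ ENNReal.ofReal (‖q‖ ^ 2 * (fc0 x).X S0) :=
        ENNReal.ofReal_le_ofReal (nu_le_X _ _ _)
    _ = ENNReal.ofReal (‖q‖ ^ 2) * ENNReal.ofReal ((fc0 x).X S0) :=
        ENNReal.ofReal_mul (sq_nonneg _)
    _ ≤ _ := by
        gcongr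
        rw [← ENNReal.ofReal_ofNat]
        exact ENNReal.ofReal_le_ofReal (by nlinarith [norm_nonneg q])

variable {M : Model} {p : ℝ}

/-- an almost sure statement for `Phat` from the underlying space -/
theorem ae_Phat (M : Model) (W : Sq) (n : ℤ) (g : Fn) {E : Xi → Prop}
    (hE : MeasurableSet {x | E x})
    (h : ∀ᵐ ω ∂M.P, ∀ᵐ y ∂(pt2K M.γ 0 W (M.cf n g ω)), E (M.cf n g ω, y)) :
    ∀ᵐ x ∂(M.Phat 0 W n g), E x := by
  have hc : MeasurableSet {x | ¬ E x} := hE.compl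
  rw [ae_iff, Phat_apply, Measure.compProd_apply hc, M.Pk_eq,
    lintegral_map (Kernel.measurable_kernel_prodMk_left hc) (M.measurable_cf n g)]
  exact (lintegral_congr_ae (h.mono fun ω hω => ae_iff.1 hω)).trans lintegral_zero

theorem ae_Phat_good (h0 : M.E0) (W : Sq) (n : ℤ) (g : Fn) {E : Xi → Prop}
    (hE : MeasurableSet {x | E x}) (h : ∀ x : Xi, IsGood x.1 → E x) :
    ∀ᵐ x ∂(M.Phat 0 W n g), E x :=
  ae_Phat M W n g hE ((h0 n g).mono fun _ hω => ae_of_all _ fun _ => h _ hω.1)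

theorem measurableSet_LocX (h : M.Base p) {d : ℕ} (hd : 7 ≤ d) :
    MeasurableSet[GGhat W0.o] (LocX M.ξ d) := by
  have := (M.casc h 0 le_rfl W0).Loc_loc hd 0 (0, 0)
  rwa [reg_W0] at this

/-- the three estimates taken from the crude estimates -/
theorem exists_K (h : M.Base p) (hm : MeasLoc) (hn : (∀ q x, 0 ≤ nu0 q x) ∧ ∀ x, 0 ≤ pi0 x) :
    ∃ (d : ℕ) (Θ₀ : ℝ) (C : ℝ≥0), 7 ≤ d ∧ ∀ Θ, Θ₀ ≤ Θ → ∀ g : Fn,
      M.Phat 0 W0 0 g (LocX M.ξ d)ᶜ ≤ C * ee (-1 * g 0) * VV Θ g ∧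
      (∀ q : ℂ, ‖q‖ ≤ 2 →
        ∫⁻ x, ENNReal.ofReal (nuX M.ξ d q x ^ 2) ∂M.Phat 0 W0 0 g ≤ C * VV Θ g) ∧
      ∫⁻ x, ENNReal.ofReal (piX M.ξ d x ^ p) ∂M.Phat 0 W0 0 g ≤
        C * ee (p * M.γ * g 0) * VV Θ g := by
  let K := M.casc h 0 le_rfl W0
  obtain ⟨d, hd⟩ := K.exists_good
  obtain ⟨C1, h1⟩ := K.Loc_prob hd.1
  obtain ⟨C2, h2⟩ := K.Xd_mom hd (r := 2) (by norm_num)
  obtain ⟨C3, h3⟩ := K.Pd_rpow hd
  have hγ := M.γ_pos
  have hp := h.one_lt
  have hσ : 0 < p * M.γ := by positivity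
  have hθ : 0 ≤ K.θ := by
    show 0 ≤ 48 * (p * M.γ) + 400 * (p * M.γ + 1)
    positivity
  have hL := GGhat_le _ _ (measurableSet_LocX h hd.1)
  refine ⟨d, 2 * K.θ + 48 * (p * M.γ + 1), C1 + 16 * C2 + C3, hd.1, fun Θ hΘ g => ⟨?_, ?_, ?_⟩⟩
  · refine (h1 0 (0, 0) g reg_W0.le).trans ?_
    rw [mul_assoc]
    refine mul_le_mul' (by push_cast; exact le_self_add.trans le_self_add)
      (wt_le_VV M.Q (-1) hθ (by rw [abs_neg, abs_one]; linarith) g)
  · intro q hq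
    have hX : Measurable fun x => Xd d (K.pat x) 0 (0, 0) := K.Xd_meas hd.1 0 (0, 0)
    have hN : Measurable (nuX M.ξ d q) :=
      ((hm.1 q).mono (GGhat_le _) le_rfl).indicator hL
    calc _ ≤ ∫⁻ x, 16 * Xd d (K.pat x) 0 (0, 0) ^ 2 ∂M.Phat 0 W0 0 g := by
          refine lintegral_mono_ae (ae_Phat_good h.e0 W0 0 g (measurableSet_le
            (hN.pow_const 2).ennreal_ofReal ((hX.pow_const 2).const_mul 16)) fun x hg => ?_)
          by_cases hx : x ∈ LocX M.ξ d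
          · rw [nuX, indicator_of_mem hx, ENNReal.ofReal_pow (hn.1 q x),
              show (16 : ℝ≥0∞) = 4 ^ 2 by norm_num, ← mul_pow]
            exact pow_le_pow_left' ((dominate hd.1 hx hg).1 q hq) 2
          · simp [nuX, indicator_of_notMem hx]
      _ ≤ 16 * (C2 * K.w 0 (2 * K.θ) 0 (0, 0) g) := by
          rw [lintegral_const_mul _ (hX.pow_const 2)]
          exact mul_le_mul_right (h2 0 (0, 0) g reg_W0.le) _
      _ ≤ _ := by
          rw [← mul_assoc]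
          refine mul_le_mul' (by push_cast; exact le_add_self.trans le_self_add) ?_
          have h4 := wt_le_VV M.Q 0 (t := 2 * K.θ) (Θ := Θ) (by positivity)
            (by rw [abs_zero]; linarith) g
          rwa [zero_mul, ee_zero, one_mul] at h4
  · have hX : Measurable fun x => Pd d (K.pat x) 0 (0, 0) := K.Pd_meas hd.1 0 (0, 0)
    have hN : Measurable (piX M.ξ d) := (hm.2.1.mono (GGhat_le _) le_rfl).indicator hL
    have e : K.σ / K.γ = p := mul_div_cancel_right₀ p hγ.ne'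
    calc _ ≤ ∫⁻ x, Pd d (K.pat x) 0 (0, 0) ^ p ∂M.Phat 0 W0 0 g := by
          refine lintegral_mono_ae (ae_Phat_good h.e0 W0 0 g (measurableSet_le
            (hN.pow_const p).ennreal_ofReal (hX.pow_const p)) fun x hg => ?_)
          by_cases hx : x ∈ LocX M.ξ d
          · rw [piX, indicator_of_mem hx,
              ← ENNReal.ofReal_rpow_of_nonneg (hn.2 x) (by linarith)]
            exact ENNReal.rpow_le_rpow (dominate hd.1 hx hg).2 (by linarith)
          · rw [piX, indicator_of_notMem hx, Real.zero_rpow (by linarith), ENNReal.ofReal_zero]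
            exact zero_le
      _ ≤ C3 * K.w K.σ K.θ 0 (0, 0) g := e ▸ h3 0 (0, 0) g reg_W0.le
      _ ≤ _ := by
          rw [mul_assoc]
          exact mul_le_mul' (by push_cast; exact le_add_self)
            (wt_le_VV M.Q (p * M.γ) hθ (by rw [abs_of_pos hσ]; linarith) g)

end Pool.Agent.Lib.MP_0d9445_pr.HO
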