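import Pool.Agent.Lib.MP_0d9445_pr.HO.Basic
import Pool.Agent.Lib.MP_0d9445_pr.HO.IDefs
import Pool.Agent.Lib.MP_0d9445_pr.CR.Lay

/-! Module HO, instance: the fields of `Data` that only concern the layers. -/

open MeasureTheory ProbabilityTheory Set Filter Topology
open scoped ENNReal NNReal

noncomputable section

namespace Pool.Agent.Lib.MP_0d9445_pr.HO

open CR (oo ex ctr sc lip Casc kids)

theorem VV_eq_wt (Q Θ : ℝ) (g : Fn) : VV Θ g = CR.wt Q 0 Θ 0 y0 g :=
  (CR.wt_zero Q Θ 0 _ g).symm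

theorem VV_meas (Θ : ℝ) : Measurable (VV Θ) :=
  CR.measurable_ex.comp
    (((CR.measurable_lip measurable_ev Metric.isOpen_ball).const_mul _).const_mul _)

theorem one_le_VV (Θ : ℝ) (g : Fn) : 1 ≤ VV Θ g := CR.one_le_ex _

theorem VV_mono {Θ Θ' : ℝ} (h : Θ ≤ Θ') (g : Fn) : VV Θ g ≤ VV Θ' g :=
  CR.ex_mono (mul_le_mul_left (ENNReal.ofReal_le_ofReal h) _)

theorem VV_mul {Θ Θ' : ℝ} (h : 0 ≤ Θ) (h' : 0 ≤ Θ') (g : Fn) :
    VV Θ g * VV Θ' g = VV (Θ + Θ') g := by
  rw [VV, VV, VV, ← CR.ex_add, ← add_mul, ENNReal.ofReal_add h h']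

theorem VV_cst (Θ : ℝ) (g : Fn) (t : ℝ) : VV Θ (g + cst t) = VV Θ g := by
  simp only [VV, oo, cst, CR.lip_add_const]

theorem VV_zero (Θ : ℝ) : VV Θ 0 = 1 := by rw [VV, CR.oo_zero, mul_zero, CR.ex_zero]

theorem sc_zero : sc 0 = 1 := by simp [sc]

theorem sc_coe (k : ℕ) : ((sc k : ℝ) : ℂ) = ((2 : ℂ) ^ k)⁻¹ := by simp [sc]

/-- the index of a child as a pair of integers -/
def zx {k : ℕ} (j : Ix k) : ℤ × ℤ := ((j.1 : ℕ), (j.2 : ℕ))

theorem zx_mem {k : ℕ} (j : Ix k) : zx j ∈ kids k (0, 0) := by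
  have h1 : ((j.1 : ℕ) : ℤ) < 2 ^ k := by exact_mod_cast j.1.2
  have h2 : ((j.2 : ℕ) : ℤ) < 2 ^ k := by exact_mod_cast j.2.2
  rw [CR.Geo_mem_kids]
  simp only [zx, mul_zero, zero_add, mul_one]
  exact ⟨⟨by positivity, h1⟩, by positivity, h2⟩

theorem ctr_eq (k : ℕ) (v : ℤ × ℤ) :
    ctr k v = ((v.1 : ℂ) + 1 / 2 + ((v.2 : ℂ) + 1 / 2) * Complex.I) / 2 ^ k := by
  rw [ctr, Complex.mk_eq_add_mul_I]
  push_cast
  rw [sc_coe]
  ring

theorem ctr_zx (k : ℕ) (j : Ix k) : ctr k (zx j) = cor k j + y0 / 2 ^ k := by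
  simp only [y0, ctr_eq, cor, zx]
  push_cast
  ring

theorem norm_ctr_zero : ‖y0‖ ≤ 1 := by
  have := CR.norm_sub_ctr_le (n := 0) (v := (0, 0)) (z := 0) (by simp [CR.box, sc])
  rwa [zero_sub, norm_neg, sc_zero] at this

theorem cor_mem_ball (k : ℕ) (j : Ix k) : cor k j ∈ Metric.ball (ctr k (zx j)) (48 * sc k) := by
  rw [mem_ball_iff_norm, ctr_zx, sub_add_cancel_left, norm_neg, div_eq_mul_inv, ← sc_coe, norm_mul,
    Complex.norm_real, Real.norm_eq_abs, abs_of_pos (CR.sc_pos k)]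
  nlinarith [norm_ctr_zero, CR.sc_pos k]

theorem sub_zx (k : ℕ) (j : Ix k) : CR.Sub 0 y0 (0 + k) (ctr (0 + k) (zx j)) :=
  CR.sub_kids (zx_mem j)

theorem cor_mem_ball' (k : ℕ) (j : Ix k) : cor k j ∈ Metric.ball y0 (48 * sc 0) := by
  refine (sub_zx k j).ball_subset ?_
  rw [zero_add]
  exact cor_mem_ball k j

/-- moving the base point from the centre to a corner -/
theorem ee_abs_le_VV {a : ℝ} (ha : 0 ≤ a) (k : ℕ) (j : Ix k) (g : Fn) :
    ee (a * |g (cor k j) - g y0|) ≤ VV (48 * a) g :=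
  CR.exp_abs_shift_le (cor_mem_ball' k j) ha g

theorem VV_osc {Θ : ℝ} (hΘ : 96 ≤ Θ) (k : ℕ) (j : Ix k) (g : Fn) :
    ee |g (cor k j) - g 0| ≤ VV Θ g := by
  have h1 := ee_abs_le_VV zero_le_one k j g
  have h2 := ee_abs_le_VV zero_le_one 0 0 g
  rw [cor_zero] at h2
  calc ee |g (cor k j) - g 0|
      ≤ ee (1 * |g (cor k j) - g y0| + 1 * |g 0 - g y0|) := by
        refine ee_mono ?_
        rw [one_mul, one_mul, abs_sub_comm (g 0)]
        exact abs_sub_le _ _ _
    _ ≤ VV (48 * 1) g * VV (48 * 1) g := by rw [ee_add]; exact mul_le_mul' h1 h2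
    _ ≤ VV Θ g := by
        rw [VV_mul (by norm_num) (by norm_num)]; exact VV_mono (by linarith) g

/-- the weights of `CR` at the unit box in terms of `ee` and `VV` -/
theorem wt_le_VV (Q s : ℝ) {t Θ : ℝ} (ht : 0 ≤ t) (h : t + 48 * |s| ≤ Θ) (g : Fn) :
    CR.wt Q s t 0 y0 g ≤ ee (s * g 0) * VV Θ g := by
  have h2 := ee_abs_le_VV (abs_nonneg s) 0 0 g
  rw [cor_zero] at h2
  calc CR.wt Q s t 0 y0 g = ee (s * g y0) * VV t g := by
        simp [CR.wt, CR.cc, ee, VV]
    _ ≤ ee (s * g 0 + |s| * |g 0 - g y0|) * VV t g := by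
        gcongr
        refine ee_mono ?_
        rw [← abs_mul]
        linarith [neg_abs_le (s * (g 0 - g y0))]
    _ ≤ ee (s * g 0) * VV (48 * |s|) g * VV t g := by rw [ee_add]; gcongr
    _ ≤ ee (s * g 0) * VV Θ g := by
        rw [mul_assoc, VV_mul (by positivity) ht]
        exact mul_le_mul_right (VV_mono (by linarith) g) _

theorem oo_res_le (Q : ℝ) (k : ℕ) (b : ℂ) (g : Fn) :
    oo 0 y0 (res Q k b g) ≤ oo k (b + y0 / 2 ^ k) g := by
  have hs := CR.sc_pos k
  have hn : ∀ z : ℂ, ‖z / 2 ^ k‖ = sc k * ‖z‖ := fun z => by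
    rw [div_eq_mul_inv, ← sc_coe, norm_mul, Complex.norm_real, Real.norm_eq_abs, abs_of_pos hs,
      mul_comm]
  have hb : ∀ x ∈ Metric.ball y0 (48 * sc 0),
      b + x / 2 ^ k ∈ Metric.ball (b + y0 / 2 ^ k) (48 * sc k) := fun x hx => by
    rw [mem_ball_iff_norm, sc_zero] at hx
    rw [mem_ball_iff_norm, add_sub_add_left_eq_sub, ← sub_div, hn]
    nlinarith
  rw [oo, sc_zero, ENNReal.ofReal_one, one_mul, ← sc_zero]
  refine iSup₂_le fun x hx => iSup₂_le fun y hy => ENNReal.div_le_of_le_mul ?_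
  have h1 := CR.edist_le_lip g (hb x hx) (hb y hy)
  have e1 : edist (res Q k b g x) (res Q k b g y) =
      edist (g (b + x / 2 ^ k)) (g (b + y / 2 ^ k)) := by
    simp only [res_apply, edist_sub_right]
  have e2 : edist (b + x / 2 ^ k) (b + y / 2 ^ k) = ENNReal.ofReal (sc k) * edist x y := by
    rw [edist_dist, edist_dist, dist_eq_norm, dist_eq_norm, add_sub_add_left_eq_sub, ← sub_div, hn,
      ENNReal.ofReal_mul hs.le]
  rw [e1, oo, mul_comm (ENNReal.ofReal (sc k)), mul_assoc, ← e2]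
  exact h1

/-! ### relations with the maps of `Layers` -/

theorem dy_nat (k : ℕ) : dy k 0 = ((2 : ℂ) ^ k)⁻¹ := by simp [dy]

theorem res_eq (Q : ℝ) (k : ℕ) (b : ℂ) (g : Fn) :
    res Q k b g = MP_0d9445_pr.res Q (dy k 0) b g := by
  ext z
  change g (b + z / 2 ^ k) - _ = g (dy k 0 * z + b) + Q * Real.log ‖dy k 0‖
  rw [dy_nat, norm_inv, norm_pow, Complex.norm_two, Real.log_inv, Real.log_pow, add_comm b,
    div_eq_inv_mul]
  ring

theorem shp_eq (k : ℕ) (b : ℂ) (g : Fn) : shp k b g = shape (dy k 0) b g := by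
  ext z
  change g (b + z / 2 ^ k) - _ = g (dy k 0 * z + b) - g b
  rw [dy_nat, add_comm b, div_eq_inv_mul]

theorem rotF_eq (Q : ℝ) (g : Fn) : rotF g = MP_0d9445_pr.res Q (dy 0 1) 1 g := by
  ext z
  change g (Complex.I * z + 1) = g (dy 0 1 * z + 1) + Q * Real.log ‖dy 0 1‖
  simp [dy]

theorem measurable_resc (a b : ℂ) : Measurable (resc a b) :=
  (ContinuousMap.continuous_precomp (⟨fun z => a * z + b, by fun_prop⟩ : C(ℂ, ℂ))).measurable

variable (M : Model)

theorem measurable_laySum (n : ℤ) (m : ℕ) :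
    Measurable fun ω => ∑ i ∈ Finset.range m, M.eta (n + i) ω :=
  Finset.measurable_fun_sum _ fun _ _ => M.meas_eta _

theorem lay_prob (n : ℤ) (m : ℕ) : IsProbabilityMeasure (M.lay n m) :=
  Measure.isProbabilityMeasure_map (measurable_laySum M n m).aemeasurable

theorem Ginf_prob : IsProbabilityMeasure M.Ginf :=
  Measure.isProbabilityMeasure_map M.meas_ginf.aemeasurable

/-- the sums of layers are invariant under rigid motions of the grid -/
theorem lay_resc (n : ℤ) (m j : ℕ) (b : ℂ) : (M.lay n m).map (resc (dy 0 j) b) = M.lay n m := by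
  have hr := measurable_resc (dy 0 j) b
  have hS : Measurable fun q : (ℤ → Fn) × (ℤ → Field) => ∑ i ∈ Finset.range m, q.1 (n + i) :=
    Finset.measurable_fun_sum _ fun _ _ => (measurable_pi_apply _).comp measurable_fst
  have hm : Measurable fun ω => (fun n => M.eta n ω, fun n => M.H n ω) :=
    (measurable_pi_lambda _ M.meas_eta).prodMk (measurable_pi_lambda _ M.meas_H)
  have hc := M.cov 0 j b
  have hp := Measure.isProbabilityMeasure_map (μ := M.P) hm.aemeasurable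
  rw [← hc] at hp
  have hae := AEMeasurable.of_map_ne_zero hp.ne_zero
  have h := congrArg (Measure.map fun q : (ℤ → Fn) × (ℤ → Field) =>
    ∑ i ∈ Finset.range m, q.1 (n + i)) hc
  rw [Measure.map_map hS hm, AEMeasurable.map_map_of_aemeasurable hS.aemeasurable hae] at h
  rw [Model.lay, Measure.map_map hr (measurable_laySum M n m)]
  refine Eq.trans ?_ h
  congr 1
  funext ω
  ext z
  simp [resc]

theorem lay_tr (Q : ℝ) (k : ℕ) (b : ℂ) :
    (M.lay 0 k).map (res Q k b) = (M.lay 0 k).map (res Q k 0) := by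
  conv_rhs => rw [← lay_resc M 0 k 0 b]
  rw [Measure.map_map (measurable_res _ _ _) (measurable_resc _ _)]
  congr 1
  funext g
  ext z
  simp [resc, dy, add_comm]

theorem lay_rot (Q : ℝ) (k : ℕ) :
    ((M.lay 0 k).map (res Q k 0)).map rotF = (M.lay 0 k).map (res Q k 0) := by
  conv_rhs => rw [← lay_resc M 0 k 1 (1 / 2 ^ k)]
  rw [Measure.map_map (measurable_res _ _ _) (measurable_resc _ _),
    Measure.map_map measurable_rotF (measurable_res _ _ _)]
  congr 1
  funext g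
  ext z
  simp [resc, dy, add_div, mul_div_assoc]

theorem shape_lay (k : ℕ) (b : ℂ) :
    (M.Ginf.prod (M.lay 0 k)).map (fun w => shp k b (w.1 + w.2)) = M.Ginf := by
  have hS : Measurable fun e : ℕ → Fn => ∑ i ∈ Finset.range k, e i :=
    Finset.measurable_fun_sum _ fun _ _ => measurable_pi_apply _
  have hi : IndepFun M.ginf (fun ω => ∑ i ∈ Finset.range k, M.eta (0 + i) ω) M.P := by
    simp only [zero_add]
    exact M.indep_ginf_eta.comp measurable_id hS
  have hl := measurable_laySum M 0 k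
  rw [indepFun_iff_map_prod_eq_prod_map_map M.meas_ginf.aemeasurable hl.aemeasurable] at hi
  have hm : Measurable fun w : Fn × Fn => shp k b (w.1 + w.2) :=
    (measurable_shp k b).comp measurable_add
  rw [Model.Ginf, Model.lay, ← hi, Measure.map_map hm (M.meas_ginf.prodMk hl),
    ← M.shape_law k 0 b]
  congr 1
  funext ω
  simp only [Function.comp, shp_eq, zero_add]

theorem Ginf_zero : ∀ᵐ g ∂M.Ginf, g 0 = 0 :=
  (ae_map_iff M.meas_ginf.aemeasurable (measurable_ev 0 (measurableSet_singleton 0))).2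
    (.of_forall M.ginf_zero)

theorem VV_Ginf (Θ θ : ℝ) : ∫⁻ g, VV Θ g ^ θ ∂M.Ginf ≠ ∞ := by
  have := Ginf_prob M
  rcases le_or_gt θ 0 with h | h
  · refine ne_top_of_le_ne_top (b := ∫⁻ _, 1 ∂M.Ginf) (by simp) (lintegral_mono fun g => ?_)
    exact (ENNReal.rpow_le_rpow_of_exponent_le (one_le_VV Θ g) h).trans_eq ENNReal.rpow_zero
  · rw [Model.Ginf, lintegral_map ((VV_meas Θ).pow_const θ) M.meas_ginf]
    refine ne_top_of_le_ne_top (M.lipexp_ginf (θ * Θ) 49).ne (lintegral_mono fun ω => ?_)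
    rw [VV, CR.ex_rpow h, ← mul_assoc, ← ENNReal.ofReal_mul h.le]
    refine CR.ex_mono (mul_le_mul_right ?_ _)
    rw [oo, sc_zero, ENNReal.ofReal_one, one_mul]
    refine CR.lip_mono _ (Metric.ball_subset_ball' ?_)
    rw [dist_zero_right]
    linarith [norm_ctr_zero]

theorem lay_succ (n : ℤ) (m : ℕ) :
    M.lay n (m + 1) = ((M.lay n m).prod (M.ν (n + m))).map fun p => p.1 + p.2 := by
  have hl := measurable_laySum M n m
  have hi : IndepFun (fun ω => ∑ i ∈ Finset.range m, M.eta (n + i) ω) (M.eta (n + m)) M.P := by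
    have hinj : Function.Injective fun i : ℕ => n + (i : ℤ) := fun a b h => by simpa using h
    have h := (M.iid.precomp hinj).indepFun_finsetSum_of_notMem (fun _ => M.meas_eta _)
      (s := Finset.range m) (i := m) Finset.notMem_range_self
    convert h using 1
    funext ω
    simp only [Finset.sum_apply]
  rw [indepFun_iff_map_prod_eq_prod_map_map hl.aemeasurable (M.meas_eta _).aemeasurable] at hi
  rw [Model.lay, Model.lay, Model.ν, ← hi, Measure.map_map measurable_add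
    (hl.prodMk (M.meas_eta _))]
  congr 1
  funext ω
  simp [Finset.sum_range_succ]

/-- the layer laws of a cascade built on the model -/
theorem casc_lay {Ξ : Type} [MeasurableSpace Ξ] (K : Casc Ξ) (hK : ∀ n : ℕ, K.ν n = M.ν n)
    (n m : ℕ) : K.lay n m = M.lay n m := by
  induction m with
  | zero => simp [Casc.lay, Model.lay]
  | succ m ih => rw [Casc.lay, ih, hK, lay_succ, Nat.cast_add]

theorem VV_lay {Ξ : Type} [MeasurableSpace Ξ] (K : Casc Ξ) (hK : ∀ n : ℕ, K.ν n = M.ν n)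
    (Q : ℝ) {Θ : ℝ} (hΘ : 0 ≤ Θ) (s : ℝ) : ∃ B : ℝ≥0, ∀ (k : ℕ) (j : Ix k) (g : Fn),
    ∫⁻ η, ee (s * η (cor k j)) * VV Θ (res Q k (cor k j) (g + η)) ∂M.lay 0 k ≤
      B * ee (s ^ 2 / 2 * (k * Real.log 2)) * VV Θ g := by
  obtain ⟨C, hC⟩ := K.mgf s (Θ + 48 * |s|)
  refine ⟨C, fun k j g => ?_⟩
  have h := hC 0 k (ctr k (zx j))
  rw [casc_lay M K hK, zero_add, Nat.cast_zero] at h
  have e : ENNReal.ofReal ((2 : ℝ) ^ (k * s ^ 2 / 2)) = ee (s ^ 2 / 2 * (k * Real.log 2)) := by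
    rw [ee, Real.rpow_def_of_pos two_pos]
    congr 2
    ring
  rw [e] at h
  refine le_trans ?_ (mul_le_mul_left h _)
  have hm : Measurable fun η : Fn => ENNReal.ofReal (Real.exp (s * η (ctr k (zx j)))) *
      ex (ENNReal.ofReal (Θ + 48 * |s|) * oo k (ctr k (zx j)) η) :=
    ((measurable_ev _).const_mul s).exp.ennreal_ofReal.mul
      (CR.measurable_ex.comp ((K.measurable_oo _ _).const_mul _))
  rw [← lintegral_mul_const _ hm]
  refine lintegral_mono fun η => ?_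
  have h1 : oo k (ctr k (zx j)) g ≤ oo 0 y0 g := by
    have := CR.oo_le_of_sub (sub_zx k j) g
    rw [zero_add] at this
    refine this.trans (mul_le_of_le_one_left' ?_)
    exact ENNReal.ofReal_le_one.2 (pow_le_one₀ (by norm_num) (by norm_num))
  have h2 : VV Θ (res Q k (cor k j) (g + η)) ≤
      ex (ENNReal.ofReal Θ * oo k (ctr k (zx j)) η) * VV Θ g := by
    rw [VV, VV, ← CR.ex_add, ← mul_add]
    refine CR.ex_mono (mul_le_mul_right ((oo_res_le Q k _ _).trans ?_) _)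
    rw [← ctr_zx, add_comm (oo _ _ η)]
    exact (CR.oo_add_le _ _ _ _).trans (add_le_add_left h1 _)
  have h3 : ee (s * η (cor k j)) ≤ ee (s * η (ctr k (zx j))) *
      ex (ENNReal.ofReal (48 * |s|) * oo k (ctr k (zx j)) η) := by
    refine le_trans ?_ (mul_le_mul_right
      (CR.exp_abs_shift_le (cor_mem_ball k j) (abs_nonneg s) η) _)
    refine (ee_mono ?_).trans (ee_add _ _).le
    rw [← abs_mul]
    linarith [le_abs_self (s * (η (cor k j) - η (ctr k (zx j))))]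
  refine (mul_le_mul' h3 h2).trans (le_of_eq ?_)
  rw [ENNReal.ofReal_add hΘ (by positivity), add_mul, CR.ex_add, ee]
  ring

/-- all layer fields of `Data` -/
theorem layF {Ξ : Type} [MeasurableSpace Ξ] (K : Casc Ξ) (hK : ∀ n : ℕ, K.ν n = M.ν n) {Θ : ℝ}
    (hΘ : 96 ≤ Θ) : LayF M Θ :=
  ⟨lay_prob M 0, Ginf_prob M, res_eq M.Q, rotF_eq M.Q, lay_tr M M.Q, lay_rot M M.Q, shape_lay M,
    Ginf_zero M, VV_meas Θ, one_le_VV Θ, VV_cst Θ, VV_zero Θ, VV_osc hΘ, VV_Ginf M Θ,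
    VV_lay M K hK M.Q (by linarith)⟩

end Pool.Agent.Lib.MP_0d9445_pr.HO
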