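import Pool.Agent.Lib.MP_0d9445_pr.HO.Basic

/-! Module HO: fluctuation lemma. -/

open MeasureTheory ProbabilityTheory Set Filter Topology
open scoped ENNReal NNReal

noncomputable section

namespace Pool.Agent.Lib.MP_0d9445_pr.HO

variable {X : Type} [MeasurableSpace X] (d : Data X)

/-- truncation at level one -/
def PfFL_tr (y : ℝ) : ℝ := if |y| ≤ 1 then y else 0

theorem PfFL_meas : Measurable PfFL_tr :=
  Measurable.ite (measurableSet_le measurable_id.abs measurable_const) measurable_id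
    measurable_const

theorem PfFL_le (y : ℝ) : ‖PfFL_tr y‖ ≤ 1 := by
  unfold PfFL_tr
  split_ifs with h
  · exact h
  · simp

theorem PfFL_sq {p : ℝ} (hp : p ≤ 2) (y : ℝ) : PfFL_tr y ^ 2 ≤ |y| ^ p := by
  unfold PfFL_tr
  split_ifs with h
  · rcases eq_or_ne y 0 with rfl | h0
    · rw [zero_pow two_ne_zero]
      positivity
    · rw [← sq_abs, ← Real.rpow_two]
      exact Real.rpow_le_rpow_of_exponent_ge (abs_pos.2 h0) h hp
  · rw [zero_pow two_ne_zero]
    positivity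

theorem PfFL_rest {p : ℝ} (hp : 1 ≤ p) (y : ℝ) : |y - PfFL_tr y| ≤ |y| ^ p := by
  unfold PfFL_tr
  split_ifs with h
  · rw [sub_self, abs_zero]
    positivity
  · rw [sub_zero]
    have := Real.rpow_le_rpow_of_exponent_le (not_le.1 h).le hp
    rwa [Real.rpow_one] at this

theorem PfFL_dev {X : Type} [MeasurableSpace X] (P : Measure X) [IsProbabilityMeasure P]
    {S : X → ℝ} (hS : MemLp S 2 P) : ∫ x, |S x - ∫ y, S y ∂P| ∂P ≤ √(variance S P) := by
  have h1 : MemLp (fun x => |S x - ∫ y, S y ∂P|) 2 P := (hS.sub (memLp_const _)).abs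
  have h2 := variance_nonneg (fun x => |S x - ∫ y, S y ∂P|) P
  rw [variance_eq_sub h1] at h2
  refine Real.le_sqrt_of_sq_le ?_
  rw [variance_eq_integral hS.aemeasurable]
  simp only [Pi.pow_apply, sq_abs] at h2
  linarith

theorem fl : FL := by
  intro X _ P _ ι s Y p τ hp1 hp2 hτ hY hind hs
  have hm : ∀ i, Measurable fun x => |Y i x| ^ p := fun i => (hY i).abs.pow_const p
  have h0 : ∀ i x, 0 ≤ |Y i x| ^ p := fun i x => by positivity
  have hfin : ∀ i ∈ s, ∫⁻ x, ENNReal.ofReal (|Y i x| ^ p) ∂P ≠ ∞ := fun i hi =>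
    ne_top_of_le_ne_top ENNReal.ofReal_ne_top ((Finset.single_le_sum
      (f := fun i => ∫⁻ x, ENNReal.ofReal (|Y i x| ^ p) ∂P) (fun _ _ => zero_le) hi).trans hs)
  have hI : ∀ i ∈ s, Integrable (fun x => |Y i x| ^ p) P := fun i hi =>
    ⟨(hm i).aestronglyMeasurable,
      (hasFiniteIntegral_iff_ofReal (ae_of_all _ (h0 i))).2 (hfin i hi).lt_top⟩
  have hIY : ∀ i ∈ s, Integrable (Y i) P := fun i hi =>
    (integrable_norm_iff (hY i).aestronglyMeasurable).1
      (integrable_of_rpow P (hY i).abs (fun _ => abs_nonneg _) hp1 (hfin i hi))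
  have ha : ∑ i ∈ s, ∫ x, |Y i x| ^ p ∂P ≤ τ := by
    rw [← ENNReal.ofReal_le_ofReal_iff hτ,
      ENNReal.ofReal_sum_of_nonneg fun i _ => integral_nonneg (h0 i)]
    refine le_trans (le_of_eq (Finset.sum_congr rfl fun i hi => ?_)) hs
    exact ofReal_integral_eq_lintegral_ofReal (hI i hi) (ae_of_all _ (h0 i))
  have hL : ∀ i, MemLp (PfFL_tr ∘ Y i) 2 P := fun i =>
    MemLp.of_bound (PfFL_meas.comp (hY i)).aestronglyMeasurable 1
      (ae_of_all _ fun x => PfFL_le _)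
  have hI1 : ∀ i, Integrable (PfFL_tr ∘ Y i) P := fun i => (hL i).integrable one_le_two
  have hS : MemLp (∑ i ∈ s, PfFL_tr ∘ Y i) 2 P := memLp_finsetSum' s fun i _ => hL i
  have hV : variance (∑ i ∈ s, PfFL_tr ∘ Y i) P ≤ τ := by
    rw [IndepFun.variance_sum (fun i _ => hL i)
      fun i hi j hj hij => (hind hi hj hij).comp PfFL_meas PfFL_meas]
    refine le_trans (Finset.sum_le_sum fun i hi => ?_) ha
    refine (variance_le_expectation_sq (hL i).aestronglyMeasurable).trans ?_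
    exact integral_mono (hL i).integrable_sq (hI i hi) fun x => PfFL_sq hp2 _
  have hE : ∫ y, (∑ i ∈ s, PfFL_tr ∘ Y i) y ∂P = ∑ i ∈ s, ∫ y, (PfFL_tr ∘ Y i) y ∂P := by
    simp only [Finset.sum_apply]
    exact integral_finsetSum s fun i _ => hI1 i
  have hD := (PfFL_dev P hS).trans (Real.sqrt_le_sqrt hV)
  have hZ : Integrable (fun x => |(∑ i ∈ s, PfFL_tr ∘ Y i) x -
      ∫ y, (∑ i ∈ s, PfFL_tr ∘ Y i) y ∂P|) P :=
    ((hS.integrable one_le_two).sub (integrable_const _)).abs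
  have hW : Integrable (fun x => ∑ i ∈ s, |Y i x| ^ p) P := integrable_finsetSum s hI
  have hpt : ∀ x, |∑ i ∈ s, (Y i x - ∫ y, Y i y ∂P)| ≤ |(∑ i ∈ s, PfFL_tr ∘ Y i) x -
      ∫ y, (∑ i ∈ s, PfFL_tr ∘ Y i) y ∂P| + ∑ i ∈ s, |Y i x| ^ p + τ := fun x => by
    have e1 : ∑ i ∈ s, (Y i x - ∫ y, Y i y ∂P) = ((∑ i ∈ s, PfFL_tr ∘ Y i) x -
        ∫ y, (∑ i ∈ s, PfFL_tr ∘ Y i) y ∂P) + ∑ i ∈ s, (Y i x - PfFL_tr (Y i x)) -
        ∑ i ∈ s, ∫ y, (Y i y - PfFL_tr (Y i y)) ∂P := by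
      rw [hE, Finset.sum_apply, ← Finset.sum_sub_distrib, ← Finset.sum_add_distrib,
        ← Finset.sum_sub_distrib]
      refine Finset.sum_congr rfl fun i hi => ?_
      have := integral_sub (hIY i hi) (hI1 i)
      simp only [Function.comp_apply] at this ⊢
      rw [this]
      ring
    have e2 : |∑ i ∈ s, (Y i x - PfFL_tr (Y i x))| ≤ ∑ i ∈ s, |Y i x| ^ p :=
      (Finset.abs_sum_le_sum_abs _ _).trans (Finset.sum_le_sum fun i _ => PfFL_rest hp1 _)
    have e3 : |∑ i ∈ s, ∫ y, (Y i y - PfFL_tr (Y i y)) ∂P| ≤ τ := by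
      refine ((Finset.abs_sum_le_sum_abs _ _).trans (Finset.sum_le_sum fun i hi => ?_)).trans ha
      refine abs_integral_le_integral_abs.trans ?_
      exact integral_mono ((hIY i hi).sub (hI1 i)).abs (hI i hi) fun y => PfFL_rest hp1 _
    rw [e1]
    refine (abs_sub _ _).trans (add_le_add ((abs_add_le _ _).trans ?_) e3)
    exact add_le_add le_rfl e2
  refine (lintegral_mono fun x => ENNReal.ofReal_le_ofReal (hpt x)).trans ?_
  refine (ofReal_integral_eq_lintegral_ofReal ((hZ.add hW).add (integrable_const τ))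
    (ae_of_all _ fun x => (abs_nonneg _).trans (hpt x))).symm.le.trans ?_
  refine ENNReal.ofReal_le_ofReal ?_
  have e4 := integral_add (hZ.add hW) (integrable_const τ)
  have e5 := integral_add hZ hW
  have e6 : ∫ x, ∑ i ∈ s, |Y i x| ^ p ∂P = ∑ i ∈ s, ∫ x, |Y i x| ^ p ∂P :=
    integral_finsetSum s hI
  simp only [Pi.add_apply, integral_const, probReal_univ, one_smul] at e4 e5 ⊢
  linarith

end Pool.Agent.Lib.MP_0d9445_pr.HO
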